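import Pool.Agent.Hhelper34.EU.Vals

/-!
Values of the type A Eulerian polynomials at the non-extreme zeros of `EB N`.
-/

namespace Pool.Agent.Hhelper34.EU

open Polynomial Finset

lemma num1 (k : ℕ) : 4 * ((k : ℝ) + 5) * 4 ^ (k + 4) ≤ 9 / 10 * 9 ^ (k + 4) := by
  induction k with
  | zero => norm_num
  | succ k ih =>
    have h1 : (0 : ℝ) ≤ k := Nat.cast_nonneg k
    have h2 : (0 : ℝ) < 4 ^ (k + 4) := by positivity
    rw [show k + 1 + 4 = k + 4 + 1 by ring, pow_succ 4, pow_succ 9]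
    push_cast
    nlinarith

lemma num2 (k : ℕ) : 16 * ((k : ℝ) + 3) * 16 ^ (k + 4) + 18 * 9 ^ (k + 4) ≤ 9 * 25 ^ (k + 4) := by
  induction k with
  | zero => norm_num
  | succ k ih =>
    have h1 : (0 : ℝ) ≤ k := Nat.cast_nonneg k
    have h2 : (0 : ℝ) < 16 ^ (k + 4) := by positivity
    have h3 : (0 : ℝ) < 9 ^ (k + 4) := by positivity
    rw [show k + 1 + 4 = k + 4 + 1 by ring, pow_succ 16, pow_succ 9, pow_succ 25]
    push_cast
    nlinarith

lemma num3 (k : ℕ) : 29 * ((k : ℝ) + 4) * (k + 3) * 25 ^ (k + 4) ≤ 882 / 100 * 81 ^ (k + 4) := by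
  induction k with
  | zero => norm_num
  | succ k ih =>
    have h1 : (0 : ℝ) ≤ k := Nat.cast_nonneg k
    have h2 : (0 : ℝ) < 25 ^ (k + 4) := by positivity
    rw [show k + 1 + 4 = k + 4 + 1 by ring, pow_succ 25, pow_succ 81]
    push_cast
    have h3 : 25 * ((k : ℝ) + 1 + 4) * (k + 1 + 3) ≤ 81 * ((k + 4) * (k + 3)) := by nlinarith
    nlinarith [mul_le_mul_of_nonneg_right h3 h2.le]

/-- the numerical inequality, `N = 2 M + 1`, `M ≥ 3` -/
lemma num4 {M : ℕ} (hM : 3 ≤ M) {E : ℝ}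
    (hE : E = 3 ^ (2 * M + 1) - ((2 * M + 1 : ℝ) + 1) * 2 ^ (2 * M + 1) + (2 * M + 1) * (2 * M + 2) / 2 - M) :
    (M : ℝ) * (M - 1) * (4 * (M - 1) * 4 ^ (2 * M + 1) + 6 * 3 ^ (2 * M + 1) + 4 * 5 ^ (2 * M + 1)) ≤
      2 * E ^ 2 := by
  rcases Nat.lt_or_ge M 4 with h | h
  · have : M = 3 := by omega
    subst this
    rw [hE]; norm_num
  · obtain ⟨k, rfl⟩ : ∃ k, M = k + 4 := ⟨M - 4, by omega⟩
    have h1 := num1 k
    have h2 := num2 k
    have h3 := num3 k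
    have e9 : (3 : ℝ) ^ (2 * (k + 4) + 1) = 3 * 9 ^ (k + 4) := by
      rw [pow_succ, pow_mul]; norm_num; ring
    have e4 : (2 : ℝ) ^ (2 * (k + 4) + 1) = 2 * 4 ^ (k + 4) := by
      rw [pow_succ, pow_mul]; norm_num; ring
    have e16 : (4 : ℝ) ^ (2 * (k + 4) + 1) = 4 * 16 ^ (k + 4) := by
      rw [pow_succ, pow_mul]; norm_num; ring
    have e25 : (5 : ℝ) ^ (2 * (k + 4) + 1) = 5 * 25 ^ (k + 4) := by
      rw [pow_succ, pow_mul]; norm_num; ring
    have e81 : (81 : ℝ) ^ (k + 4) = (9 ^ (k + 4)) ^ 2 := by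
      rw [← pow_mul, mul_comm, pow_mul]; norm_num
    rw [e9, e4] at hE
    rw [e9, e16, e25]
    rw [e81] at h3
    have hk : (0 : ℝ) ≤ k := Nat.cast_nonneg k
    set x : ℝ := 9 ^ (k + 4) with hx
    set y : ℝ := 4 ^ (k + 4) with hy
    set t : ℝ := 16 ^ (k + 4)
    set s : ℝ := 25 ^ (k + 4)
    have hx0 : 0 < x := by positivity
    have hs0 : 0 < s := by positivity
    push_cast at hE ⊢
    have hEx : 21 / 10 * x ≤ E := by
      rw [hE]; nlinarith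
    have hE2 : 2 * (21 / 10 * x) ^ 2 ≤ 2 * E ^ 2 := by
      have : (21 / 10 * x) ^ 2 ≤ E ^ 2 := pow_le_pow_left₀ (by positivity) hEx 2
      linarith
    refine le_trans ?_ hE2
    have hmm : (0 : ℝ) ≤ (k + 4) * (k + 3) := by positivity
    have h4 : 4 * ((k : ℝ) + 4 - 1) * (4 * t) + 6 * (3 * x) + 4 * (5 * s) ≤ 29 * s := by linarith
    have h5 := mul_le_mul_of_nonneg_left h4 hmm
    have e6 : ((k : ℝ) + 4) * (k + 4 - 1) = (k + 4) * (k + 3) := by ring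
    rw [e6]
    nlinarith

lemma three_pow_lin {N : ℕ} (hN : 2 ≤ N) : ((N : ℝ) + 1) < 3 ^ N := by
  induction N, hN using Nat.le_induction with
  | base => norm_num
  | succ n hn ih =>
    rw [pow_succ]; push_cast
    have : (0 : ℝ) ≤ n := Nat.cast_nonneg n
    linarith

lemma nine_pow {N : ℕ} (hN : 2 ≤ N) : (5 : ℝ) ^ N + N * 3 ^ N / 2 ≤ 3 ^ N * 3 ^ N := by
  induction N, hN using Nat.le_induction with
  | base => norm_num
  | succ n hn ih =>
    rw [pow_succ 5, pow_succ 3]; push_cast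
    have h5 : (2 : ℝ) ≤ n := by exact_mod_cast hn
    have h6 : (0 : ℝ) < 3 ^ n := by positivity
    have h7 : (0 : ℝ) < 5 ^ n := by positivity
    nlinarith [mul_le_mul_of_nonneg_right h5 h6.le]

/-- the bound `2 B_2 / B_1 ≤ 2 * 5^N / 3^N` -/
lemma ratio_bound {N : ℕ} (hN : 2 ≤ N) :
    2 * (EB N).coeff 2 / (EB N).coeff 1 ≤ 2 * 5 ^ N / 3 ^ N := by
  rw [EB_coeff_two, EB_coeff_one]
  have h1 := three_pow_lin hN
  have h2 : (0 : ℝ) < 3 ^ N - N - 1 := by linarith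
  have h3 : (0 : ℝ) < 3 ^ N := by positivity
  rw [div_le_div_iff₀ h2 h3]
  have h4 := nine_pow hN
  have h5 : (0 : ℝ) ≤ N + 1 := by positivity
  nlinarith [mul_le_mul_of_nonneg_left h4 h5]

/-- purely real part of the estimate. `T = 3^N, Y = 4^N, F = 5^N`. -/
lemma Aineq {m S P2 P4 E K k P T Y F : ℝ} (hm : 3 ≤ m) (hk : 0 < k) (hE : E = (S ^ 2 - P2) / 2)
    (hnum : m * (m - 1) * (4 * (m - 1) * Y + 6 * T + 4 * F) ≤ 2 * E ^ 2)
    (hdef : Y - (P2 - 4 * m) = 2 * T - 2) (hT : 2 * m + 1 ≤ T)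
    (cs : (S ^ 2 - P2) ^ 2 ≤ (m * m - m) * (P2 ^ 2 - P4))
    (hK : K ≤ 2 * F / T) (hk1 : 1 ≤ k * (K + 3))
    (hP : 1 + k * (P2 - 4 * m) + k ^ 2 * (((P2 - 4 * m) ^ 2 - (P4 - 8 * P2 + 16 * m)) / 2) ≤ P) :
    Y * k < P := by
  have hP2le : P2 ≤ Y := by linarith
  have hT0 : 0 < T := by linarith
  obtain ⟨Q2, hQ2⟩ : ∃ Q2, Q2 = ((P2 - 4 * m) ^ 2 - (P4 - 8 * P2 + 16 * m)) / 2 := ⟨_, rfl⟩
  rw [← hQ2] at hP
  have hMM : 0 < m * (m - 1) := mul_pos (by linarith) (by linarith)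
  have hcs : 4 * E ^ 2 ≤ m * (m - 1) * (P2 ^ 2 - P4) := by
    have e : 4 * E ^ 2 = (S ^ 2 - P2) ^ 2 := by rw [hE]; ring
    have e' : m * (m - 1) = m * m - m := by ring
    rw [e, e']; exact cs
  have hQ : 6 * T + 4 * F ≤ Q2 := by
    have e : Q2 = (P2 ^ 2 - P4) / 2 - 4 * (m - 1) * P2 + 8 * (m * (m - 1)) := by rw [hQ2]; ring
    have h5 : m * (m - 1) * (4 * (m - 1) * Y + 6 * T + 4 * F) ≤
        m * (m - 1) * ((P2 ^ 2 - P4) / 2) := by
      refine le_trans hnum ?_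
      linarith
    have h6 := le_of_mul_le_mul_left h5 hMM
    have h7 : 4 * (m - 1) * P2 ≤ 4 * (m - 1) * Y := by
      apply mul_le_mul_of_nonneg_left hP2le
      linarith
    rw [e]; linarith
  have hkQ : 2 * T - 2 ≤ k * Q2 := by
    have h8 : (2 * T - 2) * (K + 3) ≤ Q2 := by
      refine le_trans ?_ hQ
      have h9 : (2 * T - 2) * (K + 3) ≤ (2 * T - 2) * (2 * F / T + 3) :=
        mul_le_mul_of_nonneg_left (by linarith) (by linarith)
      refine le_trans h9 ?_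
      have hKpos : 0 < K + 3 := by
        by_contra hcon
        push Not at hcon
        have := mul_nonneg hk.le (neg_nonneg.mpr hcon)
        linarith
      have h10 : (2 * T - 2) * (2 * F / T + 3) ≤ (2 * T) * (2 * F / T + 3) :=
        mul_le_mul_of_nonneg_right (by linarith) (by linarith)
      refine le_trans h10 (le_of_eq ?_)
      field_simp
      ring
    have h11 := mul_le_mul_of_nonneg_left h8 hk.le
    have h12 : (2 * T - 2) * 1 ≤ (2 * T - 2) * (k * (K + 3)) :=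
      mul_le_mul_of_nonneg_left hk1 (by linarith)
    linarith
  refine lt_of_lt_of_le ?_ hP
  have h13 := mul_le_mul_of_nonneg_left hkQ hk.le
  have e1 : Y = (P2 - 4 * m) + (2 * T - 2) := by linarith
  rw [e1]
  have e2 : k ^ 2 * Q2 = k * (k * Q2) := by ring
  rw [e2]
  linarith

lemma four_pow_sq (N : ℕ) : (4 : ℝ) ^ N = (2 ^ N) ^ 2 := by
  rw [← pow_mul, mul_comm N 2, pow_mul]; norm_num

/-- values of the type A polynomials at the non-extreme zeros of `EB N`, `N = n + 1 = 2M+1 ≥ 7` -/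
lemma Aval {M : ℕ} (hM : 3 ≤ M) {c : ℝ} {w : ℕ → ℝ} (hw : HR (EB (2 * M + 1)) (2 * M + 1) c w)
    {r : ℕ} (hr1 : 1 ≤ r) (hr : r + 1 < 2 * M + 1) :
    (1 - w r) ^ (2 * M) < (-1 : ℝ) ^ r * (EA (2 * M + 1)).eval (w r) := by
  obtain ⟨a, ha, hc1, hc2, hv⟩ := vals (n := 2 * M) (M := M) (e := 0) (by omega) (by omega)
  obtain ⟨v1, -, v3⟩ := hv c w hw r (by omega)
  clear hv
  obtain ⟨hk0, hk1⟩ := EB_kappa' hw hr1 hr
  have hu := hw.2.1 r (by omega)
  generalize w r = u at *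
  generalize hk : -u / (1 - u) ^ 2 = k at *
  have hq0 : ∀ i < M, 0 ≤ ps a i ^ 2 - 4 := by
    intro i hi
    have := ps_ge ha (by omega : i < M + 0 + M)
    nlinarith
  obtain ⟨l1, l2, l3⟩ := lbA M (fun i => ps a i ^ 2 - 4) hq0 hk0.le
  have hPk : ∏ i ∈ range M, (1 + k * (ps a i ^ 2 - 4)) = ∏ i ∈ range M, cf a k i := rfl
  rw [hPk] at l3
  have cs := cs_pairs M (ps a)
  have s1 : ∑ i ∈ range M, (ps a i ^ 2 - 4) = (∑ i ∈ range M, ps a i ^ 2) - 4 * M := by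
    rw [Finset.sum_sub_distrib]; simp; ring
  have s2 : ∑ i ∈ range M, (ps a i ^ 2 - 4) ^ 2 =
      (∑ i ∈ range M, (ps a i ^ 2) ^ 2) - 8 * (∑ i ∈ range M, ps a i ^ 2) + 16 * M := by
    have : ∀ i ∈ range M, (ps a i ^ 2 - 4) ^ 2 = (ps a i ^ 2) ^ 2 - 8 * ps a i ^ 2 + 16 := by
      intro i _; ring
    rw [Finset.sum_congr rfl this, Finset.sum_add_distrib, Finset.sum_sub_distrib, ← Finset.mul_sum]
    simp; ring
  rw [s1, s2] at l2 l3
  clear l1 l2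
  rw [EA_coeff_one] at hc1
  rw [EA_coeff_two] at hc2
  generalize (∏ i ∈ range M, cf a k i) = P at *
  generalize hSd : (∑ i ∈ range M, ps a i) = S at *
  generalize (∑ i ∈ range M, ps a i ^ 2) = P2 at *
  generalize (∑ i ∈ range M, (ps a i ^ 2) ^ 2) = P4 at *
  have hMr : (3 : ℝ) ≤ M := by exact_mod_cast hM
  have hE' : (S ^ 2 - P2) / 2 = 3 ^ (2 * M + 1) - ((2 * M + 1 : ℝ) + 1) * 2 ^ (2 * M + 1) +
      (2 * M + 1) * (2 * M + 2) / 2 - M := by
    push_cast at hc2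
    linarith
  have hnum := num4 hM hE'
  have hS' : S = 2 ^ (2 * M + 1) - (2 * M + 1) - 1 := by push_cast at hc1; linarith
  have e4N := four_pow_sq (2 * M + 1)
  have hdef : (4 : ℝ) ^ (2 * M + 1) - (P2 - 4 * M) = 2 * 3 ^ (2 * M + 1) - 2 := by
    have h1 : P2 = S ^ 2 - 2 * ((S ^ 2 - P2) / 2) := by ring
    rw [h1, hE', hS', e4N]; ring
  have hT : 2 * (M : ℝ) + 1 ≤ 3 ^ (2 * M + 1) := by
    have := three_pow_lin (N := 2 * M + 1) (by omega)
    push_cast at this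
    linarith
  have hK := ratio_bound (N := 2 * M + 1) (by omega)
  have hPbig := Aineq hMr hk0 rfl hnum hdef hT cs hK hk1 l3
  -- final
  have h1u : (0 : ℝ) < 1 - u := by linarith
  have hkk : -u = k * (1 - u) ^ 2 := by rw [← hk]; field_simp
  generalize hA : (EA (2 * M + 1)).eval u = A at *
  have hA2 : ((1 - u) ^ (2 * M)) ^ 2 < A ^ 2 := by
    have h14 : -u * (2 ^ (2 * M + 1) * A) ^ 2 = 4 ^ (2 * M + 1) * (-u) * A ^ 2 := by rw [e4N]; ring
    rw [h14] at v1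
    have h15 : (1 - u) ^ (2 * (2 * M + 1)) * (4 ^ (2 * M + 1) * k) < 4 ^ (2 * M + 1) * (-u) * A ^ 2 := by
      rw [v1]; exact mul_lt_mul_of_pos_left hPbig (by positivity)
    have h16 : (1 - u) ^ (2 * (2 * M + 1)) * (4 ^ (2 * M + 1) * k) =
        4 ^ (2 * M + 1) * (-u) * ((1 - u) ^ (2 * M)) ^ 2 := by
      rw [hkk]; ring
    rw [h16] at h15
    exact lt_of_mul_lt_mul_left h15 (mul_nonneg (by positivity) (by linarith))
  apply lt_of_pow_lt_pow_left₀ 2 v3.le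
  have h17 : ((-1 : ℝ) ^ r * A) ^ 2 = A ^ 2 := by
    rw [mul_pow, ← pow_mul, mul_comm r 2, pow_mul]; norm_num
  rw [h17]
  exact hA2

end Pool.Agent.Hhelper34.EU
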