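import Pool.Agent.Hhelper34.EU.Small

/-!
Assembling: real-rootedness of `P + g` and `P - g`.
-/

namespace Pool.Agent.Hhelper34.EU

open Polynomial Finset

lemma assemble {P g : ℝ[X]} {n : ℕ} (hn : 2 ≤ n) (hPd : P.natDegree ≤ n) (hgd : g.natDegree ≤ n)
    (P0 : P.coeff 0 = 1) (g0 : g.coeff 0 = 1) (Pn : P.coeff n = 1) (gn : g.coeff n = 1)
    {w : ℕ → ℝ} (hw0 : ∀ r < n - 1, w r < 0) (hw : ∀ r, r + 1 < n - 1 → w (r + 1) < w r)
    (hs : ∀ r < n - 1, |g.eval (w r)| < (-1 : ℝ) ^ (r + 1) * P.eval (w r)) :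
    (∃ c z, HR (P + g) n c z) ∧ ∃ h : ℝ[X], P - g = X * h ∧ ∃ c z, HR h (n - 2) c z := by
  have habs : ∀ r : ℕ, |(-1 : ℝ) ^ (r + 1)| = 1 := by intro r; simp [abs_pow]
  have hplus : ∀ r < n - 1, 0 < (-1 : ℝ) ^ (r + 1) * (P + g).eval (w r) := by
    intro r hr
    have h1 := hs r hr
    have h2 : -|g.eval (w r)| ≤ (-1 : ℝ) ^ (r + 1) * g.eval (w r) := by
      have := neg_abs_le ((-1 : ℝ) ^ (r + 1) * g.eval (w r))
      rwa [abs_mul, habs, one_mul] at this
    rw [eval_add, mul_add]; linarith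
  have hminus : ∀ r < n - 1, 0 < (-1 : ℝ) ^ (r + 1) * (P - g).eval (w r) := by
    intro r hr
    have h1 := hs r hr
    have h2 : (-1 : ℝ) ^ (r + 1) * g.eval (w r) ≤ |g.eval (w r)| := by
      have := le_abs_self ((-1 : ℝ) ^ (r + 1) * g.eval (w r))
      rwa [abs_mul, habs, one_mul] at this
    rw [eval_sub, mul_sub]; linarith
  constructor
  · have hd : (P + g).natDegree ≤ n := natDegree_add_le_of_degree_le hPd hgd
    have hc : (P + g).coeff n = 2 := by rw [coeff_add, Pn, gn]; norm_num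
    obtain ⟨xf, hxf, hxs⟩ := far hd (by rw [hc]; norm_num) (w (n - 2))
    refine HR_of_signs (x := fun i => if i = 0 then 0 else if i ≤ n - 1 then w (i - 1) else xf)
      hd (by simp) ?_ ?_
    · intro i hi
      rcases i with _ | i
      · simp only [zero_add, one_ne_zero, if_false, if_true]
        rw [if_pos (by omega)]
        exact hw0 0 (by omega)
      · simp only [Nat.add_eq_zero_iff, one_ne_zero, and_false, if_false]
        rw [if_pos (by omega : i + 1 ≤ n - 1)]
        rcases Nat.lt_or_ge (i + 1 + 1) n with h | h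
        · rw [if_pos (by omega)]
          exact hw i (by omega)
        · rw [if_neg (by omega)]
          have : i + 1 - 1 = n - 2 := by omega
          rw [this]; exact hxf
    · intro i hi
      rcases i with _ | i
      · simp only [if_true, pow_zero, one_mul]
        rw [← coeff_zero_eq_eval_zero, coeff_add, P0, g0]; norm_num
      · simp only [Nat.add_eq_zero_iff, one_ne_zero, and_false, if_false]
        rcases Nat.lt_or_ge (i + 1) n with h | h
        · rw [if_pos (by omega)]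
          have := hplus i (by omega)
          simpa using this
        · rw [if_neg (by omega)]
          have : i + 1 = n := by omega
          rw [this]; exact hxs
  · have h0 : (P - g).coeff 0 = 0 := by rw [coeff_sub, P0, g0]; norm_num
    have hX : X ∣ P - g := X_dvd_iff.mpr h0
    obtain ⟨h, hh⟩ := hX
    refine ⟨h, hh, ?_⟩
    have hcoef : ∀ k, h.coeff k = (P - g).coeff (k + 1) := by
      intro k; rw [hh, coeff_X_mul]
    have hd : (P - g).natDegree ≤ n := (natDegree_sub_le _ _).trans (max_le hPd hgd)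
    have hhd : h.natDegree ≤ n - 2 := by
      rw [natDegree_le_iff_coeff_eq_zero]
      intro N hN
      rw [hcoef]
      rcases Nat.lt_or_ge n (N + 1) with h1 | h1
      · exact coeff_eq_zero_of_natDegree_lt (by omega)
      · have : N + 1 = n := by omega
        rw [this, coeff_sub, Pn, gn]; norm_num
    refine HR_of_signs (x := w) hhd (hw0 0 (by omega)).le ?_ ?_
    · intro i hi
      exact hw i (by omega)
    · intro i hi
      have h1 := hminus i (by omega)
      have h2 := hw0 i (by omega)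
      rw [hh, eval_mul, eval_X] at h1
      have h3 : (-1 : ℝ) ^ (i + 1) * (w i * h.eval (w i)) = (-w i) * ((-1 : ℝ) ^ i * h.eval (w i)) := by
        rw [pow_succ]; ring
      rw [h3] at h1
      exact (pos_iff_pos_of_mul_pos h1).mp (by linarith)

/-- combination of the two conclusions -/
lemma RR_pm {P g : ℝ[X]} {n : ℕ}
    (h : (∃ c z, HR (P + g) n c z) ∧ ∃ h : ℝ[X], P - g = X * h ∧ ∃ c z, HR h (n - 2) c z) :
    RR (P + g) ∧ RR (P - g) := by
  obtain ⟨⟨c, z, h1⟩, q, hq, c', z', h2⟩ := h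
  exact ⟨h1.RR, by rw [hq]; exact h2.RR.X_mul⟩

lemma EA_natDegree (n : ℕ) : (EA (n + 1)).natDegree ≤ n := by
  rw [natDegree_le_iff_coeff_eq_zero]
  intro N hN
  obtain ⟨k, rfl⟩ : ∃ k, N = k + 1 := ⟨N - 1, by omega⟩
  exact EA_coeff_big n k hN

lemma EB_natDegree (n : ℕ) : (EB n).natDegree ≤ n := by
  rw [natDegree_le_iff_coeff_eq_zero]
  intro N hN
  exact EB_coeff_big n N hN

lemma EA_top (n : ℕ) : (EA (n + 1)).coeff n = 1 := by
  rw [EA_pal n n 0 (by omega), EA_coeff_zero]

lemma EB_top (n : ℕ) : (EB n).coeff n = 1 := by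
  rw [EB_pal n n 0 (by omega), EB_coeff_zero]

lemma one_sub_X_natDegree (m : ℕ) : ((1 - X : ℝ[X]) ^ m).natDegree ≤ m := by
  refine natDegree_pow_le.trans ?_
  have : (1 - X : ℝ[X]).natDegree ≤ 1 := by
    have := natDegree_sub_le (1 : ℝ[X]) X
    simpa using this
  calc m * (1 - X : ℝ[X]).natDegree ≤ m * 1 := Nat.mul_le_mul_left _ this
    _ = m := mul_one m

lemma one_sub_X_top (m : ℕ) (hm : Even m) : ((1 - X : ℝ[X]) ^ m).coeff m = 1 := by
  have h1 : (1 - X : ℝ[X]) ^ m = (X - 1) ^ m := by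
    rw [← neg_sub, hm.neg_pow]
  have h2 : (X - 1 : ℝ[X]) = X - C 1 := by simp
  rw [h1, h2]
  have hmon : ((X - C 1 : ℝ[X]) ^ m).Monic := (monic_X_sub_C 1).pow m
  have := hmon.coeff_natDegree
  rwa [natDegree_pow, natDegree_X_sub_C, mul_one] at this

lemma one_sub_X_zero (m : ℕ) : ((1 - X : ℝ[X]) ^ m).coeff 0 = 1 := by
  rw [coeff_zero_eq_eval_zero]; simp

/-- The type D correction polynomial. -/
noncomputable def gD (n : ℕ) : ℝ[X] := if Even n then (1 - X) ^ n else (1 - X) ^ (n - 1) * (1 + X)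

lemma gD_natDegree {n : ℕ} (hn : 1 ≤ n) : (gD n).natDegree ≤ n := by
  unfold gD
  split_ifs with h
  · exact one_sub_X_natDegree n
  · refine natDegree_mul_le.trans ?_
    have h1 := one_sub_X_natDegree (n - 1)
    have h2 : (1 + X : ℝ[X]).natDegree ≤ 1 := by
      have := natDegree_add_le (1 : ℝ[X]) X
      simpa using this
    omega

lemma gD_zero (n : ℕ) : (gD n).coeff 0 = 1 := by
  unfold gD
  rw [coeff_zero_eq_eval_zero]
  split_ifs <;> simp

lemma gD_top {n : ℕ} (hn : 1 ≤ n) : (gD n).coeff n = 1 := by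
  unfold gD
  split_ifs with h
  · exact one_sub_X_top n h
  · obtain ⟨k, rfl⟩ : ∃ k, n = k + 1 := ⟨n - 1, by omega⟩
    have hk : Even k := by
      rcases Nat.even_or_odd k with h1 | h1
      · exact h1
      · exact absurd h1.add_one h
    rw [Nat.add_sub_cancel, mul_add, mul_one, coeff_add, coeff_mul_X, one_sub_X_top k hk,
      coeff_eq_zero_of_natDegree_lt (lt_of_le_of_lt (one_sub_X_natDegree k) (Nat.lt_succ_self k))]
    norm_num

lemma gD_abs {n : ℕ} (hn : 1 ≤ n) {x : ℝ} (hx : x < 0) : |(gD n).eval x| ≤ (1 - x) ^ n := by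
  have h1 : (0 : ℝ) < 1 - x := by linarith
  unfold gD
  split_ifs with h
  · simp only [eval_pow, eval_sub, eval_one, eval_X]
    rw [abs_of_pos (by positivity)]
  · obtain ⟨k, rfl⟩ : ∃ k, n = k + 1 := ⟨n - 1, by omega⟩
    simp only [Nat.add_sub_cancel, eval_mul, eval_pow, eval_sub, eval_one, eval_X, eval_add]
    rw [abs_mul, abs_of_pos (by positivity : 0 < (1 - x) ^ k), pow_succ]
    apply mul_le_mul_of_nonneg_left _ (by positivity)
    rw [abs_le]; constructor <;> linarith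

lemma ED_natDegree {n : ℕ} (hn : 2 ≤ n) : (ED n).natDegree ≤ n := by
  obtain ⟨k, rfl⟩ : ∃ k, n = k + 2 := ⟨n - 2, by omega⟩
  unfold ED
  refine (natDegree_sub_le _ _).trans (max_le (EB_natDegree _) ?_)
  rw [show k + 2 - 1 = k + 1 by omega]
  refine natDegree_mul_le.trans ?_
  have h1 := EA_natDegree k
  have h2 : (C (((k + 2 : ℕ) : ℝ) * 2 ^ (k + 1)) * X : ℝ[X]).natDegree ≤ 1 :=
    (natDegree_C_mul_le _ _).trans natDegree_X_le
  omega

lemma ED_zero (n : ℕ) : (ED n).coeff 0 = 1 := by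
  unfold ED
  rw [coeff_sub, EB_coeff_zero, mul_assoc, coeff_C_mul, coeff_X_mul_zero]; simp

lemma ED_top {n : ℕ} (hn : 2 ≤ n) : (ED n).coeff n = 1 := by
  obtain ⟨k, rfl⟩ : ∃ k, n = k + 2 := ⟨n - 2, by omega⟩
  unfold ED
  rw [show k + 2 - 1 = k + 1 by omega, coeff_sub, EB_top, mul_assoc, coeff_C_mul,
    show k + 2 = (k + 1) + 1 by ring, coeff_X_mul, EA_coeff_big k k (by omega)]
  simp

/-- type D, large rank -/
lemma D_large {n : ℕ} (hn : 8 ≤ n) : RR (ED n + gD n) ∧ RR (ED n - gD n) := by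
  obtain ⟨k, rfl⟩ : ∃ k, n = k + 2 := ⟨n - 2, by omega⟩
  obtain ⟨c, w, hw⟩ := HR_EB (k + 1)
  apply RR_pm (n := k + 2)
  apply assemble (w := w) (by omega) (ED_natDegree (by omega)) (gD_natDegree (by omega)) (ED_zero _)
    (gD_zero _) (ED_top (by omega)) (gD_top (by omega))
  · intro r hr; exact hw.2.1 r (by omega)
  · intro r hr; exact hw.2.2.1 r (r + 1) (by omega) (by omega)
  · intro r hr
    exact lt_of_le_of_lt (gD_abs (by omega) (hw.2.1 r (by omega)))
      (Dval (by omega) hw (by omega)).1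

/-- type B, large rank -/
lemma B_large {n : ℕ} (hn : 8 ≤ n) (he : Even n) :
    RR (EB n + (1 - X) ^ n) ∧ RR (EB n - (1 - X) ^ n) := by
  obtain ⟨k, rfl⟩ : ∃ k, n = k + 2 := ⟨n - 2, by omega⟩
  obtain ⟨c, w, hw⟩ := HR_EB (k + 1)
  apply RR_pm (n := k + 2)
  apply assemble (w := w) (by omega) (EB_natDegree _) (one_sub_X_natDegree _) (EB_coeff_zero _)
    (one_sub_X_zero _) (EB_top _) (one_sub_X_top _ he)
  · intro r hr; exact hw.2.1 r (by omega)
  · intro r hr; exact hw.2.2.1 r (r + 1) (by omega) (by omega)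
  · intro r hr
    have h0 := hw.2.1 r (by omega)
    have h1 : (0 : ℝ) < 1 - w r := by linarith
    have h2 : |((1 - X : ℝ[X]) ^ (k + 2)).eval (w r)| ≤ (1 - w r) ^ (k + 2) := by
      simp only [eval_pow, eval_sub, eval_one, eval_X]
      rw [abs_of_pos (by positivity)]
    exact lt_of_le_of_lt h2 (Dval (by omega) hw (by omega)).2

/-- type A chain: the correction term satisfies the same recursion -/
lemma chainF (m k : ℕ) : (1 - X : ℝ[X]) ^ m * EA (k + 2) =
    (C 1 + C ((m + 1 + k : ℕ) : ℝ) * X) * ((1 - X) ^ m * EA (k + 1)) +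
      X * (1 - X) * derivative ((1 - X) ^ m * EA (k + 1)) := by
  rw [EA_succ (k + 1), derivative_mul]
  rcases m with _ | l
  · rw [show 0 + 1 + k = k + 1 by ring]; simp
  · rw [derivative_pow, derivative_sub, derivative_one, derivative_X, Nat.add_sub_cancel]
    have e1 : (C ((l + 1 + 1 + k : ℕ) : ℝ) : ℝ[X]) = (l + 1 : ℝ[X]) + C ((k + 1 : ℕ) : ℝ) := by
      push_cast; simp; ring
    have e2 : (C ((l + 1 : ℕ) : ℝ) : ℝ[X]) = (l + 1 : ℝ[X]) := by
      push_cast; simp
    rw [e1, e2]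
    ring

lemma chain_plus {m k : ℕ}
    (h : ∃ c z, HR (EA (m + 1 + k) + (1 - X) ^ m * EA (k + 1)) (m + k) c z) :
    ∀ l, ∃ c z, HR (EA (m + 1 + (k + l)) + (1 - X) ^ m * EA ((k + l) + 1)) (m + (k + l)) c z := by
  intro l
  induction l with
  | zero => simpa using h
  | succ l ih =>
    obtain ⟨c, z, hz⟩ := ih
    have hs := hz.step (a := 1) (b := ((m + 1 + (k + l) : ℕ) : ℝ)) one_pos (by push_cast; linarith)
    have e : EA (m + 1 + (k + (l + 1))) + (1 - X) ^ m * EA ((k + (l + 1)) + 1) =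
        (C 1 + C ((m + 1 + (k + l) : ℕ) : ℝ) * X) * (EA (m + 1 + (k + l)) + (1 - X) ^ m * EA ((k + l) + 1)) +
        X * (1 - X) * derivative (EA (m + 1 + (k + l)) + (1 - X) ^ m * EA ((k + l) + 1)) := by
      have h1 := chainF m (k + l)
      have h2 := EA_succ (m + 1 + (k + l))
      rw [show m + 1 + (k + (l + 1)) = m + 1 + (k + l) + 1 by ring,
        show k + (l + 1) + 1 = k + l + 2 by ring, h1, h2, derivative_add]
      ring
    rw [e]
    exact hs

lemma chain_minus {m k : ℕ} (hm : 2 ≤ m)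
    (h : ∃ q : ℝ[X], EA (m + 1 + k) - (1 - X) ^ m * EA (k + 1) = X * q ∧
      ∃ c z, HR q (m + k - 2) c z) :
    ∀ l, ∃ q : ℝ[X], EA (m + 1 + (k + l)) - (1 - X) ^ m * EA ((k + l) + 1) = X * q ∧
      ∃ c z, HR q (m + (k + l) - 2) c z := by
  intro l
  induction l with
  | zero => simpa using h
  | succ l ih =>
    obtain ⟨q, hq, c, z, hz⟩ := ih
    have hs := hz.step (a := 2) (b := ((m + (k + l) : ℕ) : ℝ)) two_pos (by
      have : m + (k + l) - 2 < m + (k + l) := by omega
      exact_mod_cast this)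
    refine ⟨(C 2 + C ((m + (k + l) : ℕ) : ℝ) * X) * q + X * (1 - X) * derivative q, ?_, ?_⟩
    rotate_left
    · rw [show m + (k + (l + 1)) - 2 = m + (k + l) - 2 + 1 by omega]
      exact hs
    · have h1 := chainF m (k + l)
      have h2 := EA_succ (m + 1 + (k + l))
      rw [show m + 1 + (k + (l + 1)) = m + 1 + (k + l) + 1 by ring,
        show k + (l + 1) + 1 = k + l + 2 by ring, h1, h2]
      have h3 : derivative (EA (m + 1 + (k + l))) - derivative ((1 - X) ^ m * EA (k + l + 1)) =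
          q + X * derivative q := by
        rw [← derivative_sub, hq, derivative_mul, derivative_X]; ring
      have h4 : (C (2 : ℝ) : ℝ[X]) = 2 := rfl
      have h5 : (C ((m + 1 + (k + l) : ℕ) : ℝ) : ℝ[X]) = C ((m + (k + l) : ℕ) : ℝ) + 1 := by
        rw [← C_1, ← C_add]; congr 1; push_cast; ring
      rw [h4, h5, C_1]
      linear_combination (1 + (C ((m + (k + l) : ℕ) : ℝ) + 1) * X) * hq + X * (1 - X) * h3

/-- type A, large `m = 2M ≥ 6` -/
lemma A_base {M : ℕ} (hM : 3 ≤ M) :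
    (∃ c z, HR (EA (2 * M + 1) + (1 - X) ^ (2 * M)) (2 * M) c z) ∧
    ∃ h : ℝ[X], EA (2 * M + 1) - (1 - X) ^ (2 * M) = X * h ∧ ∃ c z, HR h (2 * M - 2) c z := by
  obtain ⟨c, w, hw⟩ := HR_EB (2 * M + 1)
  apply assemble (w := fun r => w (r + 1)) (by omega) (EA_natDegree _) (one_sub_X_natDegree _)
    (EA_coeff_zero _) (one_sub_X_zero _) (EA_top _) (one_sub_X_top _ (even_two_mul M))
  · intro r hr; exact hw.2.1 (r + 1) (by omega)
  · intro r hr; exact hw.2.2.1 (r + 1) (r + 1 + 1) (by omega) (by omega)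
  · intro r hr
    have h0 := hw.2.1 (r + 1) (by omega)
    have h1 : (0 : ℝ) < 1 - w (r + 1) := by linarith
    have h2 : |((1 - X : ℝ[X]) ^ (2 * M)).eval (w (r + 1))| ≤ (1 - w (r + 1)) ^ (2 * M) := by
      simp only [eval_pow, eval_sub, eval_one, eval_X]
      rw [abs_of_pos (by positivity)]
    exact lt_of_le_of_lt h2 (Aval hM hw (by omega) (by omega))

end Pool.Agent.Hhelper34.EU
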