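import Mathlib

/-!
Real polynomials with negative simple roots: the sign lemma and the Rolle-type step.
-/

namespace Pool.Agent.Hhelper34.EU

open Polynomial Finset

/-- `p` has exactly `d` simple roots, all negative (listed in decreasing order), degree `d`
and positive leading coefficient. -/
def HR (p : ℝ[X]) (d : ℕ) (c : ℝ) (z : ℕ → ℝ) : Prop :=
  0 < c ∧ (∀ i < d, z i < 0) ∧ (∀ i j, i < j → j < d → z j < z i) ∧
    p = C c * ∏ i ∈ range d, (X - C (z i))

/-- all complex roots are real -/
def RR (p : ℝ[X]) : Prop := p ≠ 0 ∧ ∀ z : ℂ, aeval z p = 0 → z.im = 0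

lemma RR_of_prod {p : ℝ[X]} {c : ℝ} {d : ℕ} {z : ℕ → ℝ} (hc : c ≠ 0)
    (h : p = C c * ∏ i ∈ range d, (X - C (z i))) : RR p := by
  have hp : p ≠ 0 := by
    rw [h]
    exact mul_ne_zero (by simpa using hc) (Finset.prod_ne_zero_iff.mpr fun i _ => X_sub_C_ne_zero _)
  refine ⟨hp, fun w hw => ?_⟩
  rw [h] at hw
  simp only [map_mul, map_prod, map_sub, aeval_X, aeval_C] at hw
  rcases mul_eq_zero.mp hw with h1 | h1
  · exact absurd h1 (by simpa using hc)
  · obtain ⟨i, _, hi⟩ := Finset.prod_eq_zero_iff.mp h1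
    have : w = ((z i : ℝ) : ℂ) := by
      simpa [sub_eq_zero] using hi
    rw [this]; simp

lemma HR.RR {p : ℝ[X]} {d : ℕ} {c : ℝ} {z : ℕ → ℝ} (h : HR p d c z) : RR p :=
  RR_of_prod (ne_of_gt h.1) h.2.2.2

/-- a constant multiple/with a factor X -/
lemma RR.C_mul {p : ℝ[X]} {c : ℝ} (hc : c ≠ 0) (h : RR p) : RR (C c * p) := by
  refine ⟨mul_ne_zero (by simpa using hc) h.1, fun w hw => ?_⟩
  simp only [map_mul, aeval_C] at hw
  rcases mul_eq_zero.mp hw with h1 | h1
  · exact absurd h1 (by simpa using hc)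
  · exact h.2 w h1

lemma RR.X_mul {p : ℝ[X]} (h : RR p) : RR (X * p) := by
  refine ⟨mul_ne_zero X_ne_zero h.1, fun w hw => ?_⟩
  simp only [map_mul, aeval_X] at hw
  rcases mul_eq_zero.mp hw with h1 | h1
  · rw [h1]; simp
  · exact h.2 w h1

/-- The sign lemma. -/
lemma sign_lemma {p : ℝ[X]} {D : ℕ} {x : ℕ → ℝ} (hdeg : p.natDegree ≤ D)
    (hx : ∀ i < D, x (i + 1) < x i)
    (hs : ∀ i ≤ D, 0 < (-1 : ℝ) ^ i * p.eval (x i)) :
    ∃ c : ℝ, ∃ z : ℕ → ℝ, 0 < c ∧ (∀ i < D, x (i + 1) < z i ∧ z i < x i) ∧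
      p = C c * ∏ i ∈ range D, (X - C (z i)) := by
  have hroot : ∀ i : ℕ, ∃ z : ℝ, i < D → (x (i + 1) < z ∧ z < x i) ∧ p.eval z = 0 := by
    intro i
    by_cases hi : i < D
    · have h1 := hs i hi.le
      have h2 := hs (i + 1) hi
      have hlt := hx i hi
      -- q = (-1)^i p
      have hcont : ContinuousOn (fun y : ℝ => (-1 : ℝ) ^ i * p.eval y) (Set.Icc (x (i + 1)) (x i)) :=
        (continuous_const.mul p.continuous).continuousOn
      have h2' : (-1 : ℝ) ^ i * p.eval (x (i + 1)) < 0 := by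
        rw [pow_succ] at h2; linarith
      have := intermediate_value_Ioo hlt.le hcont
      obtain ⟨y, hy, hy0⟩ := this ⟨h2', h1⟩
      refine ⟨y, fun _ => ⟨⟨hy.1, hy.2⟩, ?_⟩⟩
      have : (-1 : ℝ) ^ i ≠ 0 := pow_ne_zero _ (by norm_num)
      simpa [this] using hy0
    · exact ⟨0, fun h => absurd h hi⟩
  choose z hz using hroot
  -- x is decreasing on [0, D]
  have hmono : ∀ i j, i ≤ j → j ≤ D → x j ≤ x i := by
    intro i j hij
    induction j, hij using Nat.le_induction with
    | base => intro _; exact le_refl _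
    | succ j hij ih =>
      intro hj
      exact le_trans (hx j hj).le (ih (by omega))
  have hdec : ∀ i j, i < j → j < D → z j < z i := by
    intro i j hij hj
    have h1 := (hz j hj).1.2
    have h2 := (hz i (by omega)).1.1
    have h3 := hmono (i + 1) j hij hj.le
    linarith
  have hinj : Set.InjOn z (range D : Set ℕ) := by
    intro i hi j hj hij
    rcases lt_trichotomy i j with h | h | h
    · exact absurd hij (ne_of_gt (hdec i j h (by simpa using hj)))
    · exact h
    · exact absurd hij (ne_of_lt (hdec j i h (by simpa using hi)))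
  have hdvd : (∏ i ∈ range D, (X - C (z i))) ∣ p := by
    apply Finset.prod_dvd_of_coprime
    · intro i hi j hj hij
      exact isCoprime_X_sub_C_of_isUnit_sub
        (sub_ne_zero_of_ne (fun h => hij (hinj hi hj h))).isUnit
    · intro i hi
      rw [dvd_iff_isRoot]
      exact (hz i (by simpa using hi)).2
  obtain ⟨r, hr⟩ := hdvd
  have hp0 : p ≠ 0 := by
    rintro rfl
    have := hs 0 (Nat.zero_le _)
    simp at this
  have hmonic : (∏ i ∈ range D, (X - C (z i))).Monic := monic_prod_of_monic _ _ fun i _ => monic_X_sub_C _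
  have hnd : (∏ i ∈ range D, (X - C (z i))).natDegree = D := by
    rw [natDegree_prod_of_monic _ _ fun i _ => monic_X_sub_C _]
    simp
  have hr0 : r ≠ 0 := by rintro rfl; simp at hr; exact hp0 hr
  have hrd : r.natDegree = 0 := by
    have := hmonic.natDegree_mul' hr0
    rw [← hr, hnd] at this
    omega
  obtain ⟨c, hc⟩ := natDegree_eq_zero.mp hrd
  have hpc : p = C c * ∏ i ∈ range D, (X - C (z i)) := by
    rw [hr, ← hc, mul_comm]
  refine ⟨c, z, ?_, fun i hi => (hz i hi).1, hpc⟩
  have h0 := hs 0 (Nat.zero_le _)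
  rw [hpc] at h0
  simp only [pow_zero, one_mul, eval_mul, eval_C, eval_prod, eval_sub, eval_X] at h0
  have hpos : 0 < ∏ i ∈ range D, (x 0 - z i) := by
    apply Finset.prod_pos
    intro i hi
    have hi' : i < D := by simpa using hi
    have := (hz i hi').1.2
    have := hmono 0 i (Nat.zero_le _) hi'.le
    linarith
  exact (pos_iff_pos_of_mul_pos h0).mpr hpos

/-- far to the left the sign is the sign of `(-1)^D * leading coefficient` -/
lemma far {q : ℝ[X]} {D : ℕ} (hdeg : q.natDegree ≤ D) (hc : 0 < q.coeff D) (M : ℝ) :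
    ∃ x < M, 0 < (-1 : ℝ) ^ D * q.eval x := by
  have hnd : q.natDegree = D := natDegree_eq_of_le_of_coeff_ne_zero hdeg (ne_of_gt hc)
  rcases Nat.eq_zero_or_pos D with h0 | hpos
  · subst h0
    obtain ⟨c, hc'⟩ := natDegree_eq_zero.mp hnd
    refine ⟨M - 1, by linarith, ?_⟩
    rw [← hc'] at hc ⊢
    simpa using hc
  · set r : ℝ[X] := C ((-1 : ℝ) ^ D) * q.comp (-X) with hr
    have hneg : (-X : ℝ[X]).natDegree = 1 := by rw [natDegree_neg, natDegree_X]
    have hcd : (q.comp (-X)).natDegree = D := by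
      rw [natDegree_comp, hneg, hnd, mul_one]
    have hlc : (q.comp (-X)).leadingCoeff = q.coeff D * (-1) ^ D := by
      rw [leadingCoeff_comp (by rw [hneg]; exact one_ne_zero)]
      rw [leadingCoeff_neg, leadingCoeff_X, hnd, leadingCoeff, hnd]
    have hsq : ((-1 : ℝ) ^ D) * (-1) ^ D = 1 := by
      rw [← mul_pow]; norm_num
    have hrl : r.leadingCoeff = q.coeff D := by
      rw [hr, leadingCoeff_mul, leadingCoeff_C, hlc]
      linear_combination (q.coeff D) * hsq
    have hrd : 0 < r.degree := by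
      rw [← natDegree_pos_iff_degree_pos, hr, natDegree_C_mul (pow_ne_zero _ (by norm_num)), hcd]
      exact hpos
    have ht := r.tendsto_atTop_of_leadingCoeff_nonneg hrd (by rw [hrl]; exact hc.le)
    have h1 := (ht.eventually_gt_atTop 0).and (Filter.eventually_gt_atTop (-M))
    obtain ⟨y, hy0, hyM⟩ := h1.exists
    refine ⟨-y, by linarith, ?_⟩
    rw [hr] at hy0
    simpa using hy0

lemma natDegree_prodX (d : ℕ) (z : ℕ → ℝ) : (∏ i ∈ range d, (X - C (z i))).natDegree = d := by
  rw [natDegree_prod_of_monic _ _ fun i _ => monic_X_sub_C _]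
  simp

lemma HR.natDegree {p : ℝ[X]} {d : ℕ} {c : ℝ} {z : ℕ → ℝ} (h : HR p d c z) : p.natDegree = d := by
  rw [h.2.2.2, natDegree_C_mul (ne_of_gt h.1), natDegree_prodX]

lemma HR.coeff {p : ℝ[X]} {d : ℕ} {c : ℝ} {z : ℕ → ℝ} (h : HR p d c z) : p.coeff d = c := by
  have hm : (∏ i ∈ range d, (X - C (z i))).Monic := monic_prod_of_monic _ _ fun i _ => monic_X_sub_C _
  have := hm.coeff_natDegree
  rw [natDegree_prodX] at this
  rw [h.2.2.2, coeff_C_mul, this, mul_one]

lemma HR.eval_zero_pos {p : ℝ[X]} {d : ℕ} {c : ℝ} {z : ℕ → ℝ} (h : HR p d c z) :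
    0 < p.eval 0 := by
  rw [h.2.2.2]
  simp only [eval_mul, eval_C, eval_prod, eval_sub, eval_X]
  apply mul_pos h.1
  apply Finset.prod_pos
  intro i hi
  have := h.2.1 i (by simpa using hi)
  linarith

lemma HR.root {p : ℝ[X]} {d : ℕ} {c : ℝ} {z : ℕ → ℝ} (h : HR p d c z) {i : ℕ} (hi : i < d) :
    p.eval (z i) = 0 := by
  rw [h.2.2.2]
  simp only [eval_mul, eval_C, eval_prod, eval_sub, eval_X]
  rw [Finset.prod_eq_zero (mem_range.mpr hi) (sub_self _), mul_zero]

/-- the sign of the derivative at the roots -/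
lemma HR.deriv {p : ℝ[X]} {d : ℕ} {c : ℝ} {z : ℕ → ℝ} (h : HR p d c z) {i : ℕ} (hi : i < d) :
    0 < (-1 : ℝ) ^ i * (derivative p).eval (z i) := by
  obtain ⟨k, rfl⟩ : ∃ k, d = i + 1 + k := ⟨d - (i + 1), by omega⟩
  have hp : p = (X - C (z i)) * (C c * (∏ j ∈ range i, (X - C (z j))) *
      ∏ j ∈ range k, (X - C (z (i + 1 + j)))) := by
    rw [h.2.2.2, Finset.prod_range_add, Finset.prod_range_succ]
    ring
  have hd : (derivative p).eval (z i) = c * (∏ j ∈ range i, (z i - z j)) *
      ∏ j ∈ range k, (z i - z (i + 1 + j)) := by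
    rw [hp, derivative_mul]
    simp [eval_prod]
  have h1 : 0 < (-1 : ℝ) ^ i * ∏ j ∈ range i, (z i - z j) := by
    have : (-1 : ℝ) ^ i * ∏ j ∈ range i, (z i - z j) = ∏ j ∈ range i, (z j - z i) := by
      have h2 : (-1 : ℝ) ^ i = ∏ _j ∈ range i, (-1 : ℝ) := by simp
      rw [h2, ← Finset.prod_mul_distrib]
      apply Finset.prod_congr rfl
      intro j _; ring
    rw [this]
    apply Finset.prod_pos
    intro j hj
    have := h.2.2.1 j i (by simpa using hj) hi
    linarith
  have h3 : 0 < ∏ j ∈ range k, (z i - z (i + 1 + j)) := by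
    apply Finset.prod_pos
    intro j hj
    have hj' : j < k := by simpa using hj
    have := h.2.2.1 i (i + 1 + j) (by omega) (by omega)
    linarith
  rw [hd]
  have : (-1 : ℝ) ^ i * (c * (∏ j ∈ range i, (z i - z j)) * ∏ j ∈ range k, (z i - z (i + 1 + j)))
      = c * ((-1 : ℝ) ^ i * ∏ j ∈ range i, (z i - z j)) * ∏ j ∈ range k, (z i - z (i + 1 + j)) := by
    ring
  rw [this]
  exact mul_pos (mul_pos h.1 h1) h3

/-- coefficients of `(a + bX) p + X(1-X) p'` -/
lemma coeff_step (p : ℝ[X]) (a b : ℝ) (k : ℕ) :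
    ((C a + C b * X) * p + X * (1 - X) * derivative p).coeff (k + 1) =
      (a + (k + 1)) * p.coeff (k + 1) + (b - k) * p.coeff k := by
  have e : (C a + C b * X) * p + X * (1 - X) * derivative p =
      C a * p + C b * (X * p) + X * derivative p - X * (X * derivative p) := by ring
  rw [e, coeff_sub, coeff_add, coeff_add, coeff_C_mul, coeff_C_mul, coeff_X_mul, coeff_X_mul,
    coeff_X_mul, coeff_derivative]
  rcases k with _ | k
  · simp; ring
  · rw [coeff_X_mul, coeff_derivative]; push_cast; ring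

lemma coeff_step_zero (p : ℝ[X]) (a b : ℝ) :
    ((C a + C b * X) * p + X * (1 - X) * derivative p).coeff 0 = a * p.coeff 0 := by
  simp [mul_coeff_zero]

/-- The Rolle-type step: `p ↦ (a + bX) p + X(1-X) p'`. -/
lemma HR.step {p : ℝ[X]} {d : ℕ} {c : ℝ} {z : ℕ → ℝ} (h : HR p d c z) {a b : ℝ}
    (ha : 0 < a) (hb : (d : ℝ) < b) :
    ∃ c' z', HR ((C a + C b * X) * p + X * (1 - X) * derivative p) (d + 1) c' z' := by
  set q : ℝ[X] := (C a + C b * X) * p + X * (1 - X) * derivative p with hq
  have hpd := h.natDegree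
  have hpc := h.coeff
  have hqd : q.natDegree ≤ d + 1 := by
    rw [natDegree_le_iff_coeff_eq_zero]
    intro N hN
    obtain ⟨k, rfl⟩ : ∃ k, N = k + 1 := ⟨N - 1, by omega⟩
    rw [hq, coeff_step, coeff_eq_zero_of_natDegree_lt (by omega),
      coeff_eq_zero_of_natDegree_lt (by omega)]
    ring
  have hqc : q.coeff (d + 1) = (b - d) * c := by
    rw [hq, coeff_step, coeff_eq_zero_of_natDegree_lt (by omega), hpc]
    ring
  have hb' : 0 < (b - d) * c := mul_pos (by linarith) h.1
  obtain ⟨xf, hxf, hxs⟩ := far hqd (by rw [hqc]; exact hb') (min (-1) (z (d - 1)))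
  -- the test points
  set x : ℕ → ℝ := fun i => if i = 0 then 0 else if i ≤ d then z (i - 1) else xf with hx
  have hx0 : x 0 = 0 := by simp [hx]
  have hxi : ∀ i < d, x (i + 1) = z i := by
    intro i hi
    simp only [hx]
    rw [if_neg (by omega), if_pos (by omega)]
    simp
  have hxd : x (d + 1) = xf := by
    simp only [hx]
    rw [if_neg (by omega), if_neg (by omega)]
  have hdecr : ∀ i < d + 1, x (i + 1) < x i := by
    intro i hi
    rcases Nat.lt_or_ge i d with hid | hid
    · rw [hxi i hid]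
      rcases i with _ | i
      · rw [hx0]; exact h.2.1 0 hid
      · rw [hxi i (by omega)]
        exact h.2.2.1 i (i + 1) (by omega) hid
    · have : i = d := by omega
      subst this
      rw [hxd]
      rcases i with _ | i
      · rw [hx0]
        have := (lt_min_iff.mp hxf).1
        linarith
      · rw [hxi i (by omega)]
        have := (lt_min_iff.mp hxf).2
        simpa using this
  have hsign : ∀ i ≤ d + 1, 0 < (-1 : ℝ) ^ i * q.eval (x i) := by
    intro i hi
    rcases Nat.lt_or_ge d i with hid | hid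
    · have : i = d + 1 := by omega
      subst this
      rw [hxd]; exact hxs
    · rcases i with _ | i
      · rw [hx0, pow_zero, one_mul, hq]
        simp only [eval_add, eval_mul, eval_C, eval_X, eval_sub, eval_one]
        have := h.eval_zero_pos
        have := mul_pos ha this
        simpa using this
      · rw [hxi i (by omega), hq]
        simp only [eval_add, eval_mul, eval_C, eval_X, eval_sub, eval_one]
        rw [h.root (by omega : i < d)]
        have hd := h.deriv (by omega : i < d)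
        have hz := h.2.1 i (by omega)
        have : (-1 : ℝ) ^ (i + 1) * ((a + b * z i) * 0 + z i * (1 - z i) * eval (z i) (derivative p))
            = (-z i) * (1 - z i) * ((-1 : ℝ) ^ i * eval (z i) (derivative p)) := by
          rw [pow_succ]; ring
        rw [this]
        apply mul_pos (mul_pos (by linarith) (by linarith)) hd
  obtain ⟨c', z', hc', hz', hp'⟩ := sign_lemma hqd hdecr hsign
  refine ⟨c', z', hc', ?_, ?_, hp'⟩
  · intro i hi
    have h1 := (hz' i hi).2
    have h2 : x i ≤ 0 := by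
      rcases i with _ | i
      · rw [hx0]
      · rw [hxi i (by omega)]
        exact (h.2.1 i (by omega)).le
    linarith
  · intro i j hij hj
    have hmono : ∀ i j, i ≤ j → j ≤ d + 1 → x j ≤ x i := by
      intro i j hij
      induction j, hij using Nat.le_induction with
      | base => intro _; exact le_refl _
      | succ j hij ih =>
        intro hj
        exact le_trans (hdecr j hj).le (ih (by omega))
    have h1 := (hz' j hj).2
    have h2 := (hz' i (by omega)).1
    have h3 := hmono (i + 1) j hij hj.le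
    linarith

/-- general consequence of the sign lemma for negative test points -/
lemma HR_of_signs {p : ℝ[X]} {D : ℕ} {x : ℕ → ℝ} (hdeg : p.natDegree ≤ D)
    (h0 : x 0 ≤ 0) (hx : ∀ i < D, x (i + 1) < x i)
    (hs : ∀ i ≤ D, 0 < (-1 : ℝ) ^ i * p.eval (x i)) :
    ∃ c z, HR p D c z := by
  obtain ⟨c', z', hc', hz', hp'⟩ := sign_lemma hdeg hx hs
  have hmono : ∀ i j, i ≤ j → j ≤ D → x j ≤ x i := by
    intro i j hij
    induction j, hij using Nat.le_induction with
    | base => intro _; exact le_refl _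
    | succ j hij ih =>
      intro hj
      exact le_trans (hx j hj).le (ih (by omega))
  refine ⟨c', z', hc', ?_, ?_, hp'⟩
  · intro i hi
    have h1 := (hz' i hi).2
    have h2 := hmono 0 i (Nat.zero_le _) hi.le
    linarith
  · intro i j hij hj
    have h1 := (hz' j hj).2
    have h2 := (hz' i (by omega)).1
    have h3 := hmono (i + 1) j hij hj.le
    linarith

end Pool.Agent.Hhelper34.EU
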