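import Pool.Agent.Hhelper34.EU.Pairs

/-!
Lower bounds for the products over pairs.
-/

namespace Pool.Agent.Hhelper34.EU

open Polynomial Finset

lemma lbD1 (M : ℕ) (p c : ℕ → ℝ) (hc : ∀ i < M, 1 ≤ c i) (hp : ∀ i < M, 0 ≤ p i) :
    1 ≤ ∏ i ∈ range M, c i ∧ 0 ≤ ∑ i ∈ range M, p i / c i ∧ 0 ≤ ∑ i ∈ range M, p i ∧
    ∑ i ∈ range M, p i ≤ (∏ i ∈ range M, c i) * ∑ i ∈ range M, p i / c i ∧
    (∑ i ∈ range M, p i) ^ 2 - ∑ i ∈ range M, p i ^ 2 ≤
      (∏ i ∈ range M, c i) * (∑ i ∈ range M, p i / c i) ^ 2 := by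
  induction M with
  | zero => simp
  | succ M ih =>
    obtain ⟨h1, h2, h3, h4, h5⟩ := ih (fun i hi => hc i (by omega)) (fun i hi => hp i (by omega))
    have hcM := hc M (by omega)
    have hpM := hp M (by omega)
    simp only [Finset.prod_range_succ, Finset.sum_range_succ]
    set P := ∏ i ∈ range M, c i
    set S := ∑ i ∈ range M, p i / c i
    set T := ∑ i ∈ range M, p i
    set U := ∑ i ∈ range M, p i ^ 2
    have hc0 : 0 < c M := by linarith
    have hpc : 0 ≤ p M / c M := div_nonneg hpM hc0.le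
    have e1 : P * c M * (p M / c M) = P * p M := by field_simp
    have hPS : 0 ≤ P * S := mul_nonneg (by linarith) h2
    refine ⟨?_, by linarith, by linarith, ?_, ?_⟩
    · nlinarith
    · have : P * c M * (S + p M / c M) = P * S * c M + P * p M := by
        rw [mul_add, e1]; ring
      rw [this]
      nlinarith
    · have e2 : P * c M * (S + p M / c M) ^ 2 =
          (P * S ^ 2) * c M + 2 * (P * S) * p M + P * p M * (p M / c M) := by
        have : P * c M * (S + p M / c M) ^ 2 = (P * S ^ 2) * c M +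
          2 * S * (P * c M * (p M / c M)) + (P * c M * (p M / c M)) * (p M / c M) := by ring
        rw [this, e1]; ring
      rw [e2]
      have h6 : 0 ≤ P * S ^ 2 := mul_nonneg (by linarith) (sq_nonneg _)
      have h7 : 0 ≤ P * p M * (p M / c M) := mul_nonneg (mul_nonneg (by linarith) hpM) hpc
      nlinarith [mul_nonneg h6 (by linarith : (0 : ℝ) ≤ c M - 1), mul_le_mul_of_nonneg_right h4 hpM]

lemma lbA (M : ℕ) (q : ℕ → ℝ) (hq : ∀ i < M, 0 ≤ q i) {k : ℝ} (hk : 0 ≤ k) :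
    0 ≤ ∑ i ∈ range M, q i ∧ 0 ≤ (∑ i ∈ range M, q i) ^ 2 - ∑ i ∈ range M, q i ^ 2 ∧
    1 + k * ∑ i ∈ range M, q i + k ^ 2 * (((∑ i ∈ range M, q i) ^ 2 - ∑ i ∈ range M, q i ^ 2) / 2) ≤
      ∏ i ∈ range M, (1 + k * q i) := by
  induction M with
  | zero => simp
  | succ M ih =>
    obtain ⟨h1, h2, h3⟩ := ih (fun i hi => hq i (by omega))
    have hqM := hq M (by omega)
    simp only [Finset.prod_range_succ, Finset.sum_range_succ]
    set P := ∏ i ∈ range M, (1 + k * q i)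
    set S := ∑ i ∈ range M, q i
    set U := ∑ i ∈ range M, q i ^ 2
    refine ⟨by linarith, by nlinarith [mul_nonneg h1 hqM], ?_⟩
    have h4 := mul_le_mul_of_nonneg_right h3 (by nlinarith [mul_nonneg hk hqM] : (0 : ℝ) ≤ 1 + k * q M)
    refine le_trans ?_ h4
    have : 0 ≤ k ^ 2 * ((S ^ 2 - U) / 2) * (k * q M) := by positivity
    nlinarith

lemma cs_pairs (M : ℕ) (p : ℕ → ℝ) :
    ((∑ i ∈ range M, p i) ^ 2 - ∑ i ∈ range M, p i ^ 2) ^ 2 ≤
      ((M : ℝ) * M - M) * ((∑ i ∈ range M, p i ^ 2) ^ 2 - ∑ i ∈ range M, (p i ^ 2) ^ 2) := by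
  have key : ∀ f : ℕ → ℝ, ∑ x ∈ (range M).offDiag, f x.1 * f x.2 =
      (∑ i ∈ range M, f i) ^ 2 - ∑ i ∈ range M, f i ^ 2 := by
    intro f
    have h1 : ∑ x ∈ (range M) ×ˢ (range M), f x.1 * f x.2 = (∑ i ∈ range M, f i) ^ 2 := by
      rw [sq, Finset.sum_mul_sum, Finset.sum_product]
    have h2 : ∑ x ∈ (range M).diag, f x.1 * f x.2 = ∑ i ∈ range M, f i ^ 2 := by
      rw [Finset.sum_diag]
      apply Finset.sum_congr rfl; intro i _; ring
    rw [← h1, ← h2, ← Finset.diag_union_offDiag, Finset.sum_union (Finset.disjoint_diag_offDiag _)]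
    ring
  have h := sq_sum_le_card_mul_sum_sq (s := (range M).offDiag) (f := fun x : ℕ × ℕ => p x.1 * p x.2)
  rw [key p, Finset.offDiag_card, card_range] at h
  have h3 : ∑ x ∈ (range M).offDiag, (p x.1 * p x.2) ^ 2 =
      (∑ i ∈ range M, p i ^ 2) ^ 2 - ∑ i ∈ range M, (p i ^ 2) ^ 2 := by
    rw [← key (fun i => p i ^ 2)]
    apply Finset.sum_congr rfl; intro x _; ring
  rw [h3] at h
  have hc : ((M * M - M : ℕ) : ℝ) = (M : ℝ) * M - M := by
    rw [Nat.cast_sub (Nat.le_mul_self M)]; push_cast; ring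
  rwa [hc] at h

lemma coeff_lin (b : ℕ → ℝ) (M : ℕ) :
    (∏ i ∈ range M, (1 + C (b i) * X)).coeff 0 = 1 ∧
    (∏ i ∈ range M, (1 + C (b i) * X)).coeff 1 = ∑ i ∈ range M, b i ∧
    2 * (∏ i ∈ range M, (1 + C (b i) * X)).coeff 2 =
      (∑ i ∈ range M, b i) ^ 2 - ∑ i ∈ range M, b i ^ 2 := by
  induction M with
  | zero => simp [coeff_one]
  | succ M ih =>
    obtain ⟨h0, h1, h2⟩ := ih
    rw [Finset.prod_range_succ, Finset.sum_range_succ, Finset.sum_range_succ]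
    set Q : ℝ[X] := ∏ i ∈ range M, (1 + C (b i) * X)
    have e : Q * (1 + C (b M) * X) = Q + C (b M) * (X * Q) := by ring
    rw [e]
    refine ⟨?_, ?_, ?_⟩
    · simp [h0]
    · rw [coeff_add, coeff_C_mul, coeff_X_mul, h1, h0]
      simp
    · rw [coeff_add, coeff_C_mul, coeff_X_mul, h1]
      linear_combination h2

/-- bound for `κ` -/
lemma kappa_bound {x K u : ℝ} (hx : 0 < x) (hu : u = -x⁻¹) (h1 : x ≤ K) (h2 : x⁻¹ ≤ K) :
    0 < -u / (1 - u) ^ 2 ∧ 1 ≤ (-u / (1 - u) ^ 2) * (K + 3) := by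
  have hx' : 0 < x⁻¹ := by positivity
  have hu0 : 0 < -u := by rw [hu]; simpa using hx
  have h3 : 0 < (1 - u) ^ 2 := by nlinarith
  refine ⟨div_pos hu0 h3, ?_⟩
  rw [div_mul_eq_mul_div, le_div_iff₀ h3, one_mul]
  have e : (1 - u) ^ 2 = -u * (x + x⁻¹ + 2) := by
    rw [hu]; field_simp; ring
  rw [e]
  apply mul_le_mul_of_nonneg_left _ hu0.le
  rcases le_total x 1 with h | h
  · linarith
  · have : x⁻¹ ≤ 1 := inv_le_one_of_one_le₀ h
    linarith

/-- any root of `EB N` gives `1/κ ≤ 3^N - N + 2` -/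
lemma EB_kappa {N : ℕ} {c : ℝ} {w : ℕ → ℝ} (h : HR (EB N) N c w) {r : ℕ} (hr : r < N) :
    0 < -w r / (1 - w r) ^ 2 ∧ 1 ≤ (-w r / (1 - w r) ^ 2) * ((3 ^ N - N - 1) + 3) := by
  have hp := h.prod_form (EB_coeff_zero N)
  obtain ⟨_, h1, _⟩ := coeff_lin (fun i => -(w i)⁻¹) N
  rw [← hp, EB_coeff_one] at h1
  have hpos : ∀ i < N, 0 < -(w i)⁻¹ := by
    intro i hi
    have := h.2.1 i hi
    have := inv_lt_zero.mpr this
    linarith
  have hle : ∀ i < N, -(w i)⁻¹ ≤ 3 ^ N - N - 1 := by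
    intro i hi
    rw [h1]
    exact Finset.single_le_sum (f := fun i => -(w i)⁻¹) (fun j hj => (hpos j (by simpa using hj)).le)
      (mem_range.mpr hi)
  have hpal := h.pal (EB_pal N) hr
  have h3 := hle (N - 1 - r) (by omega)
  rw [hpal, inv_inv] at h3
  apply kappa_bound (hpos r hr) _ (hle r hr) _
  · rw [inv_neg, inv_inv, neg_neg]
  · rw [inv_neg, inv_inv]; exact h3

/-- non-extreme roots of `EB N` -/
lemma EB_kappa' {N : ℕ} {c : ℝ} {w : ℕ → ℝ} (h : HR (EB N) N c w) {r : ℕ} (hr1 : 1 ≤ r)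
    (hr : r + 1 < N) :
    0 < -w r / (1 - w r) ^ 2 ∧
      1 ≤ (-w r / (1 - w r) ^ 2) * (2 * (EB N).coeff 2 / (EB N).coeff 1 + 3) := by
  have hp := h.prod_form (EB_coeff_zero N)
  obtain ⟨_, h1, h2⟩ := coeff_lin (fun i => -(w i)⁻¹) N
  rw [← hp] at h1 h2
  have hpos : ∀ i < N, 0 < -(w i)⁻¹ := by
    intro i hi
    have := h.2.1 i hi
    have := inv_lt_zero.mpr this
    linarith
  have hSpos : 0 < (EB N).coeff 1 := by
    rw [h1]; exact Finset.sum_pos (fun i hi => hpos i (by simpa using hi)) ⟨0, mem_range.mpr (by omega)⟩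
  have hmax : ∀ i, 1 ≤ i → i < N → -(w i)⁻¹ ≤ -(w 0)⁻¹ := by
    intro i hi1 hi
    have h3 := h.2.2.1 0 i hi1 hi
    have h4 := h.2.1 i hi
    have h5 := h.2.1 0 (by omega)
    have := (inv_lt_inv_of_neg h5 h4).mpr h3
    -- inv: w i < w 0 < 0 → (w 0)⁻¹ < (w i)⁻¹
    linarith
  have hle : ∀ i, 1 ≤ i → i < N → -(w i)⁻¹ ≤ 2 * (EB N).coeff 2 / (EB N).coeff 1 := by
    intro i hi1 hi
    rw [le_div_iff₀ hSpos, h1, h2]
    set b : ℕ → ℝ := fun i => -(w i)⁻¹ with hb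
    change b i * _ ≤ (∑ i ∈ range N, b i) ^ 2 - _
    -- (∑ b)^2 - ∑ b^2 ≥ 2 b_i (∑ b - b_i) ≥ b_i ∑ b
    have hbpos : ∀ j ∈ range N, 0 ≤ b j := fun j hj => (hpos j (by simpa using hj)).le
    have hi_mem : i ∈ range N := mem_range.mpr hi
    have hsplit1 : ∑ j ∈ range N, b j = b i + ∑ j ∈ (range N).erase i, b j := by
      rw [Finset.add_sum_erase _ _ hi_mem]
    have hsplit2 : ∑ j ∈ range N, b j ^ 2 = b i ^ 2 + ∑ j ∈ (range N).erase i, b j ^ 2 := by
      rw [Finset.add_sum_erase _ (fun j => b j ^ 2) hi_mem]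
    have hR : ∑ j ∈ (range N).erase i, b j ^ 2 ≤ (∑ j ∈ (range N).erase i, b j) ^ 2 :=
      Finset.sum_sq_le_sq_sum_of_nonneg (fun j hj => hbpos j (Finset.mem_of_mem_erase hj))
    have h0 : b i ≤ ∑ j ∈ (range N).erase i, b j := by
      refine le_trans (hmax i hi1 hi) ?_
      apply Finset.single_le_sum (f := b) (fun j hj => hbpos j (Finset.mem_of_mem_erase hj))
      rw [Finset.mem_erase]
      exact ⟨by omega, mem_range.mpr (by omega)⟩
    rw [hsplit1, hsplit2]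
    have := hpos i hi
    have hbi : 0 < b i := this
    nlinarith
  have hpal := h.pal (EB_pal N) (by omega : r < N)
  have h3 := hle (N - 1 - r) (by omega) (by omega)
  rw [hpal, inv_inv] at h3
  apply kappa_bound (hpos r (by omega)) _ (hle r hr1 (by omega)) _
  · rw [inv_neg, inv_inv, neg_neg]
  · rw [inv_neg, inv_inv]; exact h3

end Pool.Agent.Hhelper34.EU
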