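import Pool.Agent.Hhelper34.EU.Polys

/-!
Descents of permutations through their first letter.
-/

namespace Pool.Agent.Hhelper34.EU

open Polynomial Finset Equiv

/-- descents of the word `t, f 0, …, f (n-1)` -/
def desT : ℤ → (n : ℕ) → (Fin n → ℤ) → ℕ
  | _, 0, _ => 0
  | t, n + 1, f => (if f 0 < t then 1 else 0) + desT (f 0) n (fun k => f k.succ)

lemma desT_zero (t : ℤ) (f : Fin 0 → ℤ) : desT t 0 f = 0 := rfl

lemma desT_succ (t : ℤ) (n : ℕ) (f : Fin (n + 1) → ℤ) :
    desT t (n + 1) f = (if f 0 < t then 1 else 0) + desT (f 0) n (fun k => f k.succ) := rfl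

lemma desT_congr : ∀ (n : ℕ) (t t' : ℤ) (f f' : Fin n → ℤ), (∀ k, f k < t ↔ f' k < t') →
    (∀ k l, f k < f l ↔ f' k < f' l) → desT t n f = desT t' n f' := by
  intro n
  induction n with
  | zero => intro t t' f f' _ _; rfl
  | succ n ih =>
    intro t t' f f' h1 h2
    rw [desT_succ, desT_succ, ih (f 0) (f' 0) (fun k => f k.succ) (fun k => f' k.succ)
      (fun k => h2 _ _) (fun k l => h2 _ _)]
    congr 1
    simp only [h1 0]

/-- the permutation with first letter `j` and remaining pattern `e` -/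
def ins {n : ℕ} (j : Fin (n + 1)) (e : Perm (Fin n)) : Perm (Fin (n + 1)) :=
  j.cycleRange.symm * Equiv.Perm.decomposeFin.symm (0, e)

lemma ins_zero {n : ℕ} (j : Fin (n + 1)) (e : Perm (Fin n)) : ins j e 0 = j := by
  unfold ins
  rw [Perm.mul_apply, Equiv.Perm.decomposeFin_symm_apply_zero]
  exact Fin.cycleRange_symm_zero j

lemma ins_succ {n : ℕ} (j : Fin (n + 1)) (e : Perm (Fin n)) (k : Fin n) :
    ins j e k.succ = j.succAbove (e k) := by
  unfold ins
  rw [Perm.mul_apply, Equiv.Perm.decomposeFin_symm_apply_succ, swap_self, refl_apply]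
  exact Fin.cycleRange_symm_succ j (e k)

lemma sign_ins {n : ℕ} (j : Fin (n + 1)) (e : Perm (Fin n)) :
    Perm.sign (ins j e) = (-1) ^ (j : ℕ) * Perm.sign e := by
  unfold ins
  rw [Perm.sign_mul, Equiv.Perm.decomposeFin.symm_sign, if_pos rfl, one_mul, Perm.sign_symm,
    Fin.sign_cycleRange]

lemma ins_bij (n : ℕ) : Function.Bijective
    (fun x : Fin (n + 1) × Perm (Fin n) => ins x.1 x.2) := by
  rw [Fintype.bijective_iff_injective_and_card]
  constructor
  · rintro ⟨j, e⟩ ⟨j', e'⟩ h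
    have h' : ins j e = ins j' e' := h
    have h0 : j = j' := by
      have := congrArg (fun σ : Perm (Fin (n + 1)) => σ 0) h'
      simpa [ins_zero] using this
    subst h0
    have h1 : Equiv.Perm.decomposeFin.symm ((0 : Fin (n + 1)), e) =
        Equiv.Perm.decomposeFin.symm ((0 : Fin (n + 1)), e') := mul_left_cancel h'
    have h2 := Equiv.Perm.decomposeFin.symm.injective h1
    simpa using h2
  · rw [Fintype.card_prod, Fintype.card_perm, Fintype.card_perm, Fintype.card_fin, Fintype.card_fin,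
      Nat.factorial_succ]

lemma sum_ins {n : ℕ} {M : Type*} [AddCommMonoid M] (F : Perm (Fin (n + 1)) → M) :
    ∑ σ, F σ = ∑ j : Fin (n + 1), ∑ e : Perm (Fin n), F (ins j e) := by
  rw [← Fintype.sum_prod_type']
  exact (Function.Bijective.sum_comp (ins_bij n) F).symm

/-- word of a permutation of `Fin n` -/
def wd {n : ℕ} (τ : Perm (Fin n)) (k : Fin n) : ℤ := ((τ k : ℕ) : ℤ)

lemma desT_ins {n : ℕ} (t : ℤ) (j : Fin (n + 1)) (e : Perm (Fin n)) :
    desT t (n + 1) (wd (ins j e)) = (if ((j : ℕ) : ℤ) < t then 1 else 0) + desT ((j : ℕ) : ℤ) n (wd e) := by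
  rw [desT_succ]
  have h0 : wd (ins j e) 0 = ((j : ℕ) : ℤ) := by unfold wd; rw [ins_zero]
  rw [h0]
  congr 1
  have hs : ∀ k, wd (ins j e) k.succ = ((j.succAbove (e k) : ℕ) : ℤ) := by
    intro k; unfold wd; rw [ins_succ]
  apply desT_congr
  · intro k
    rw [hs]
    unfold wd
    rw [Nat.cast_lt, Nat.cast_lt]
    have := Fin.succAbove_lt_iff_castSucc_lt j (e k)
    rw [Fin.lt_def, Fin.lt_def] at this
    simpa using this
  · intro k l
    rw [hs, hs]
    unfold wd
    rw [Nat.cast_lt, Nat.cast_lt]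
    have := (Fin.strictMono_succAbove j).lt_iff_lt (a := e k) (b := e l)
    rw [Fin.lt_def, Fin.lt_def] at this
    exact this

/-- `sgn(τ)^b` as a polynomial -/
noncomputable def sg (b : ℕ) {n : ℕ} (τ : Perm (Fin n)) : ℝ[X] := (((Perm.sign τ : ℤˣ) : ℤ) : ℝ[X]) ^ b

/-- generating polynomial with threshold `i` -/
noncomputable def TT (b n : ℕ) (i : ℕ) : ℝ[X] :=
  ∑ τ : Perm (Fin n), sg b τ * X ^ desT (i : ℤ) n (wd τ)

lemma TT_zero (b i : ℕ) : TT b 0 i = 1 := by
  unfold TT
  rw [Fintype.sum_unique]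
  simp [sg, desT_zero]

lemma sg_ins (b : ℕ) {n : ℕ} (j : Fin (n + 1)) (e : Perm (Fin n)) :
    sg b (ins j e) = ((-1) ^ (j : ℕ)) ^ b * sg b e := by
  unfold sg
  rw [sign_ins, ← mul_pow]
  congr 1
  push_cast
  ring

lemma TT_succ (b n i : ℕ) : TT b (n + 1) i =
    ∑ j ∈ range (n + 1), ((-1) ^ j) ^ b * X ^ (if j < i then 1 else 0) * TT b n j := by
  unfold TT
  rw [sum_ins, Finset.sum_range]
  apply Finset.sum_congr rfl
  intro j _
  rw [Finset.mul_sum]
  apply Finset.sum_congr rfl
  intro e _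
  rw [sg_ins, desT_ins, pow_add]
  simp only [Nat.cast_lt]
  ring

/-- `TT b (n+1) 0` -/
lemma TT_R0 (b n : ℕ) : TT b (n + 1) 0 = ∑ j ∈ range (n + 1), ((-1) ^ j) ^ b * TT b n j := by
  rw [TT_succ]
  simp

lemma TT_R1 (b n i : ℕ) (hi : i ≤ n) :
    TT b (n + 1) i - TT b (n + 1) (i + 1) = ((-1) ^ i) ^ b * (1 - X) * TT b n i := by
  rw [TT_succ, TT_succ, ← Finset.sum_sub_distrib]
  rw [Finset.sum_eq_single i]
  · rw [if_neg (lt_irrefl i), if_pos (Nat.lt_succ_self i)]; ring
  · intro j _ hj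
    by_cases h : j < i
    · rw [if_pos h, if_pos (by omega)]; ring
    · rw [if_neg h, if_neg (by omega)]; ring
  · intro h
    exact absurd (mem_range.mpr (by omega)) h

lemma TT_R2 (b n : ℕ) : TT b (n + 1) (n + 1) = X * TT b (n + 1) 0 := by
  rw [TT_succ, TT_R0, Finset.mul_sum]
  apply Finset.sum_congr rfl
  intro j hj
  rw [if_pos (mem_range.mp hj)]; ring

/-- the differential recursion for the unsigned array -/
lemma TT_diff (n : ℕ) : ∀ j ≤ n, TT 0 (n + 1) j =
    X * (1 - X) * derivative (TT 0 n j) + (1 + C (n : ℝ) * X) * TT 0 n j := by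
  induction n with
  | zero =>
    intro j hj
    have : j = 0 := by omega
    subst this
    rw [TT_R0]
    simp [TT_zero]
  | succ n ih =>
    intro j
    have hC : (C ((n + 1 : ℕ) : ℝ) : ℝ[X]) = C (n : ℝ) + 1 := by
      rw [← C_1, ← C_add]; push_cast; rfl
    induction j with
    | zero =>
      intro _
      have h1 : ∀ k ∈ range (n + 1), TT 0 (n + 1) (k + 1) =
          X * (1 - X) * derivative (TT 0 n k) + ((C (n : ℝ) + 1) * X) * TT 0 n k := by
        intro k hk
        have hk' : k ≤ n := by have := mem_range.mp hk; omega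
        have h2 := TT_R1 0 n k hk'
        have h3 := ih k hk'
        rw [pow_zero, one_mul] at h2
        linear_combination h3 - h2
      have h4 : TT 0 (n + 1 + 1) 0 = TT 0 (n + 1) 0 + ∑ k ∈ range (n + 1), TT 0 (n + 1) (k + 1) := by
        rw [TT_R0, Finset.sum_range_succ']
        simp only [pow_zero, one_mul]
        ring
      have h5 : TT 0 (n + 1) 0 = ∑ k ∈ range (n + 1), TT 0 n k := by
        rw [TT_R0]; simp
      rw [h4, Finset.sum_congr rfl h1, Finset.sum_add_distrib, ← Finset.mul_sum, ← Finset.mul_sum,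
        ← derivative_sum, ← h5, hC]
      ring
    | succ j ihj =>
      intro hj
      have h1 := ihj (by omega)
      have h2 := TT_R1 0 (n + 1) j (by omega)
      have h3 := TT_R1 0 n j (by omega)
      have h4 := ih j (by omega)
      rw [pow_zero, one_mul] at h2 h3
      have h5 : TT 0 (n + 1) (j + 1) = TT 0 (n + 1) j - (1 - X) * TT 0 n j := by
        linear_combination -h3
      have h6 : derivative (TT 0 (n + 1) (j + 1)) =
          derivative (TT 0 (n + 1) j) - ((-1) * TT 0 n j + (1 - X) * derivative (TT 0 n j)) := by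
        rw [h5, derivative_sub, derivative_mul, derivative_sub, derivative_one, derivative_X]; ring
      rw [hC] at h1 ⊢
      rw [h6, h5]
      linear_combination h1 - h2 - (1 - X) * h4

theorem EA_eq (n : ℕ) : TT 0 n 0 = EA n := by
  induction n with
  | zero => rw [TT_zero]; rfl
  | succ n ih =>
    rw [TT_diff n 0 (Nat.zero_le _), ih, EA_succ, C_1]; ring

end Pool.Agent.Hhelper34.EU
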