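import Pool.Agent.Hhelper34.EU.Comb1

/-!
Closed forms for the signed array and the sums over sets of negative values.
-/

namespace Pool.Agent.Hhelper34.EU

open Polynomial Finset Equiv

/-- weighted sum over the subsets of `{0, …, n-1}` of a function of the cardinality -/
noncomputable def SS (w : ℕ → ℝ[X]) (n : ℕ) (f : ℕ → ℝ[X]) : ℝ[X] :=
  ∑ s ∈ (range n).powerset, (∏ k ∈ s, w k) * f (#s)

lemma SS_zero (w : ℕ → ℝ[X]) (f : ℕ → ℝ[X]) : SS w 0 f = f 0 := by
  simp [SS]

lemma SS_succ (w : ℕ → ℝ[X]) (n : ℕ) (f : ℕ → ℝ[X]) :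
    SS w (n + 1) f = SS w n (fun i => f i + w n * f (i + 1)) := by
  unfold SS
  rw [Finset.range_add_one, Finset.sum_powerset_insert Finset.notMem_range_self,
    ← Finset.sum_add_distrib]
  apply Finset.sum_congr rfl
  intro s hs
  have hn : n ∉ s := fun h => Finset.notMem_range_self (Finset.mem_powerset.mp hs h)
  rw [Finset.prod_insert hn, Finset.card_insert_of_notMem hn]
  ring

lemma SS_congr {w : ℕ → ℝ[X]} {n : ℕ} {f g : ℕ → ℝ[X]} (h : ∀ i ≤ n, f i = g i) :
    SS w n f = SS w n g := by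
  unfold SS
  apply Finset.sum_congr rfl
  intro s hs
  rw [h]
  have := Finset.card_le_card (Finset.mem_powerset.mp hs)
  rwa [card_range] at this

lemma SS_add (w : ℕ → ℝ[X]) (n : ℕ) (f g : ℕ → ℝ[X]) :
    SS w n (fun i => f i + g i) = SS w n f + SS w n g := by
  unfold SS
  rw [← Finset.sum_add_distrib]
  apply Finset.sum_congr rfl; intro s _; ring

lemma SS_two {w : ℕ → ℝ[X]} {n : ℕ} (h1 : w n + w (n + 1) = 0) (h2 : w n * w (n + 1) = -1)
    (f : ℕ → ℝ[X]) : SS w (n + 2) f = SS w n (fun i => f i - f (i + 2)) := by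
  rw [SS_succ, SS_succ]
  apply SS_congr
  intro i _
  linear_combination f (i + 1) * h1 + f (i + 2) * h2

/-- `EB n` as a sum over subsets -/
theorem EB_eq (n : ℕ) : SS (fun _ => 1) n (TT 0 n) = EB n := by
  induction n with
  | zero => rw [SS_zero, TT_zero]; rfl
  | succ n ih =>
    have e1 : (C (1 / 2 : ℝ) : ℝ[X]) * C 2 = 1 := by rw [← C_mul]; norm_num
    have e2 : (C ((n : ℝ) + 1 / 2) : ℝ[X]) * C 2 = 2 * C (n : ℝ) + 1 := by
      rw [← C_mul]
      have : ((n : ℝ) + 1 / 2) * 2 = 2 * n + 1 := by ring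
      rw [this, C_add, C_mul, C_1]
      rfl
    have e3 : (C (2 : ℝ) : ℝ[X]) = 2 := rfl
    have h1 : SS (fun _ => 1) (n + 1) (TT 0 (n + 1)) =
        SS (fun _ => 1) n (fun i => 2 * X * (1 - X) * derivative (TT 0 n i) +
          (1 + (2 * C (n : ℝ) + 1) * X) * TT 0 n i) := by
      rw [SS_succ]
      apply SS_congr
      intro i hi
      have h2 := TT_R1 0 n i hi
      have h3 := TT_diff n i hi
      rw [pow_zero, one_mul] at h2
      linear_combination 2 * h3 - h2
    have h4 : SS (fun _ => 1) n (fun i => 2 * X * (1 - X) * derivative (TT 0 n i) +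
          (1 + (2 * C (n : ℝ) + 1) * X) * TT 0 n i) =
        2 * X * (1 - X) * derivative (SS (fun _ => 1) n (TT 0 n)) +
          (1 + (2 * C (n : ℝ) + 1) * X) * SS (fun _ => 1) n (TT 0 n) := by
      unfold SS
      rw [derivative_sum, Finset.mul_sum, Finset.mul_sum, ← Finset.sum_add_distrib]
      apply Finset.sum_congr rfl
      intro s _
      simp
    rw [h1, h4, ih, EB_succ]
    linear_combination (-EB n) * e1 - X * EB n * e2 - X * (1 - X) * derivative (EB n) * e3

/-- closed forms of the signed array -/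
lemma TT1_closed (m : ℕ) :
    ((∀ i ≤ m, TT 1 (2 * m) (2 * i) = (1 - X) ^ m * TT 0 m i) ∧
      (∀ i < m, TT 1 (2 * m) (2 * i + 1) = 0)) ∧
    ((∀ i ≤ m, TT 1 (2 * m + 1) (2 * i) = (1 - X) ^ m * TT 0 (m + 1) i) ∧
      (∀ i ≤ m, TT 1 (2 * m + 1) (2 * i + 1) = (1 - X) ^ m * TT 0 (m + 1) (i + 1))) := by
  -- step from even to odd
  have step1 : ∀ m, ((∀ i ≤ m, TT 1 (2 * m) (2 * i) = (1 - X) ^ m * TT 0 m i) ∧
      (∀ i < m, TT 1 (2 * m) (2 * i + 1) = 0)) →
      ((∀ i ≤ m, TT 1 (2 * m + 1) (2 * i) = (1 - X) ^ m * TT 0 (m + 1) i) ∧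
      (∀ i ≤ m, TT 1 (2 * m + 1) (2 * i + 1) = (1 - X) ^ m * TT 0 (m + 1) (i + 1))) := by
    intro m hm
    have sgn2 : ∀ i : ℕ, ((-1 : ℝ[X]) ^ (2 * i)) = 1 := by intro i; rw [pow_mul]; simp
    -- sum over range (2k+1) for k ≤ m
    have hsum : ∀ k ≤ m, ∑ j ∈ range (2 * k + 1), ((-1 : ℝ[X]) ^ j) ^ 1 * TT 1 (2 * m) j =
        (1 - X) ^ m * ∑ i ∈ range (k + 1), TT 0 m i := by
      intro k
      induction k with
      | zero =>
        intro hk
        have := hm.1 0 hk
        simp only [mul_zero, zero_add, Finset.sum_range_one, pow_zero, one_mul] at this ⊢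
        rw [this]; ring
      | succ k ih =>
        intro hk
        rw [show 2 * (k + 1) + 1 = 2 * k + 1 + 1 + 1 by ring, Finset.sum_range_succ,
          Finset.sum_range_succ, ih (by omega), hm.2 k (by omega),
          show 2 * k + 1 + 1 = 2 * (k + 1) by ring, hm.1 (k + 1) hk, sgn2,
          Finset.sum_range_succ _ (k + 1)]
        ring
    have hboth : ∀ i ≤ m, TT 1 (2 * m + 1) (2 * i) = (1 - X) ^ m * TT 0 (m + 1) i ∧
        TT 1 (2 * m + 1) (2 * i + 1) = (1 - X) ^ m * TT 0 (m + 1) (i + 1) := by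
      intro i
      induction i with
      | zero =>
        intro _
        have h0 : TT 1 (2 * m + 1) (2 * 0) = (1 - X) ^ m * TT 0 (m + 1) 0 := by
          rw [mul_zero, TT_R0, hsum m (le_refl m), TT_R0]
          simp
        refine ⟨h0, ?_⟩
        have h1 := TT_R1 1 (2 * m) (2 * 0) (by omega)
        have h2 := TT_R1 0 m 0 (Nat.zero_le _)
        have h3 := hm.1 0 (Nat.zero_le _)
        rw [h0, h3] at h1
        rw [sgn2] at h1
        simp only [pow_zero, one_mul, pow_one] at h1 h2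
        linear_combination (1 - X) ^ m * h2 - h1
      | succ i ih =>
        intro hi
        obtain ⟨_, h5⟩ := ih (by omega)
        have h1 := TT_R1 1 (2 * m) (2 * i + 1) (by omega)
        rw [hm.2 i (by omega), h5] at h1
        have h0 : TT 1 (2 * m + 1) (2 * (i + 1)) = (1 - X) ^ m * TT 0 (m + 1) (i + 1) := by
          rw [show 2 * (i + 1) = 2 * i + 1 + 1 by ring]
          linear_combination -h1
        refine ⟨h0, ?_⟩
        have h6 := TT_R1 1 (2 * m) (2 * (i + 1)) (by omega)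
        have h7 := TT_R1 0 m (i + 1) hi
        rw [h0, hm.1 (i + 1) hi, sgn2] at h6
        simp only [pow_zero, one_mul, one_pow] at h6 h7
        linear_combination (1 - X) ^ m * h7 - h6
    exact ⟨fun i hi => (hboth i hi).1, fun i hi => (hboth i hi).2⟩
  -- step from odd to even
  have step2 : ∀ m, ((∀ i ≤ m, TT 1 (2 * m + 1) (2 * i) = (1 - X) ^ m * TT 0 (m + 1) i) ∧
      (∀ i ≤ m, TT 1 (2 * m + 1) (2 * i + 1) = (1 - X) ^ m * TT 0 (m + 1) (i + 1))) →
      ((∀ i ≤ m + 1, TT 1 (2 * (m + 1)) (2 * i) = (1 - X) ^ (m + 1) * TT 0 (m + 1) i) ∧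
      (∀ i < m + 1, TT 1 (2 * (m + 1)) (2 * i + 1) = 0)) := by
    intro m hm
    have sgn2 : ∀ i : ℕ, ((-1 : ℝ[X]) ^ (2 * i)) = 1 := by intro i; rw [pow_mul]; simp
    have sgn3 : ∀ i : ℕ, ((-1 : ℝ[X]) ^ (2 * i + 1)) = -1 := by intro i; rw [pow_succ, sgn2]; simp
    have hsum : ∀ k ≤ m + 1, ∑ j ∈ range (2 * k), ((-1 : ℝ[X]) ^ j) ^ 1 * TT 1 (2 * m + 1) j =
        (1 - X) ^ m * (TT 0 (m + 1) 0 - TT 0 (m + 1) k) := by
      intro k
      induction k with
      | zero => intro _; simp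
      | succ k ih =>
        intro hk
        rw [show 2 * (k + 1) = 2 * k + 1 + 1 by ring, Finset.sum_range_succ,
          Finset.sum_range_succ, ih (by omega), hm.1 k (by omega), hm.2 k (by omega), sgn2, sgn3]
        ring
    have h0 : TT 1 (2 * (m + 1)) (2 * 0) = (1 - X) ^ (m + 1) * TT 0 (m + 1) 0 := by
      rw [show 2 * (m + 1) = 2 * m + 1 + 1 by ring, mul_zero, TT_R0,
        show 2 * m + 1 + 1 = 2 * (m + 1) by ring, hsum (m + 1) (le_refl _), TT_R2]
      ring
    have hboth : ∀ i, (i ≤ m + 1 → TT 1 (2 * (m + 1)) (2 * i) = (1 - X) ^ (m + 1) * TT 0 (m + 1) i) ∧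
        (i < m + 1 → TT 1 (2 * (m + 1)) (2 * i + 1) = 0) := by
      intro i
      induction i with
      | zero =>
        refine ⟨fun _ => h0, fun _ => ?_⟩
        have h1 := TT_R1 1 (2 * m + 1) (2 * 0) (by omega)
        rw [show 2 * m + 1 + 1 = 2 * (m + 1) by ring, h0, hm.1 0 (Nat.zero_le _), sgn2] at h1
        linear_combination -h1
      | succ i ih =>
        have hA : i + 1 ≤ m + 1 → TT 1 (2 * (m + 1)) (2 * (i + 1)) =
            (1 - X) ^ (m + 1) * TT 0 (m + 1) (i + 1) := by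
          intro hi
          have h5 := ih.2 (by omega)
          have h1 := TT_R1 1 (2 * m + 1) (2 * i + 1) (by omega)
          rw [show 2 * m + 1 + 1 = 2 * (m + 1) by ring, h5, hm.2 i (by omega), sgn3] at h1
          rw [show 2 * (i + 1) = 2 * i + 1 + 1 by ring]
          linear_combination -h1
        refine ⟨hA, fun hi => ?_⟩
        have h1 := TT_R1 1 (2 * m + 1) (2 * (i + 1)) (by omega)
        rw [show 2 * m + 1 + 1 = 2 * (m + 1) by ring, hA (by omega), hm.1 (i + 1) (by omega), sgn2] at h1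
        linear_combination -h1
    exact ⟨fun i hi => (hboth i).1 hi, fun i hi => (hboth i).2 hi⟩
  have base : ((∀ i ≤ 0, TT 1 (2 * 0) (2 * i) = (1 - X) ^ 0 * TT 0 0 i) ∧
      (∀ i < 0, TT 1 (2 * 0) (2 * i + 1) = 0)) := by
    constructor
    · intro i _; rw [mul_zero, TT_zero, TT_zero]; simp
    · intro i hi; exact absurd hi (Nat.not_lt_zero _)
  induction m with
  | zero => exact ⟨base, step1 0 base⟩
  | succ m ih =>
    have h := step2 m ih.2
    exact ⟨h, step1 (m + 1) h⟩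

/-- signed total over `S_n` -/
theorem TT1_total (n : ℕ) : TT 1 n 0 = (1 - X) ^ (n / 2) * EA (n - n / 2) := by
  rcases Nat.even_or_odd' n with ⟨m, rfl | rfl⟩
  · have := (TT1_closed m).1.1 0 (Nat.zero_le _)
    rw [mul_zero] at this
    rw [this, EA_eq, show 2 * m / 2 = m by omega, show 2 * m - m = m by omega]
  · have := (TT1_closed m).2.1 0 (Nat.zero_le _)
    rw [mul_zero] at this
    rw [this, EA_eq, show (2 * m + 1) / 2 = m by omega, show 2 * m + 1 - m = m + 1 by omega]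

/-- alternate weights: general difference formula -/
lemma SS_alt {w : ℕ → ℝ[X]} (h1 : ∀ n, w (2 * n) + w (2 * n + 1) = 0)
    (h2 : ∀ n, w (2 * n) * w (2 * n + 1) = -1) (a b : ℕ) (hb : b ≤ a) :
    ∀ (m : ℕ) (c : ℝ[X]) (f : ℕ → ℝ[X]), (∀ i ≤ m, f (2 * i) = c * TT 0 (m + a) (i + b)) →
      SS w (2 * m) f = c * (1 - X) ^ m * TT 0 a b := by
  intro m
  induction m with
  | zero =>
    intro c f hf
    have := hf 0 (le_refl 0)
    rw [mul_zero, zero_add, zero_add] at this
    rw [mul_zero, SS_zero, this]; ring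
  | succ m ih =>
    intro c f hf
    rw [show 2 * (m + 1) = 2 * m + 2 by ring, SS_two (h1 m) (h2 m)]
    rw [ih (c * (1 - X)) (fun i => f i - f (i + 2))]
    · ring
    · intro i hi
      have e1 := hf i (by omega)
      have e2 := hf (i + 1) (by omega)
      have e3 := TT_R1 0 (m + a) (i + b) (by omega)
      rw [pow_zero, one_mul] at e3
      show f (2 * i) - f (2 * i + 2) = _
      rw [show 2 * i + 2 = 2 * (i + 1) by ring, e1, e2,
        show m + 1 + a = m + a + 1 by ring, show i + 1 + b = i + b + 1 by ring]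
      linear_combination c * e3

/-- the signed sum, even rank -/
theorem SS_even {w : ℕ → ℝ[X]} (h1 : ∀ n, w (2 * n) + w (2 * n + 1) = 0)
    (h2 : ∀ n, w (2 * n) * w (2 * n + 1) = -1) (m : ℕ) :
    SS w (2 * m) (TT 1 (2 * m)) = (1 - X) ^ (2 * m) := by
  rw [SS_alt h1 h2 0 0 (le_refl 0) m ((1 - X) ^ m) (TT 1 (2 * m))
    (fun i hi => (TT1_closed m).1.1 i hi), TT_zero]
  ring

/-- the signed sum, odd rank, weights `(-1)^k` -/
theorem SS_odd {w : ℕ → ℝ[X]} (h1 : ∀ n, w (2 * n) + w (2 * n + 1) = 0)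
    (h2 : ∀ n, w (2 * n) * w (2 * n + 1) = -1) (h3 : ∀ n, w (2 * n) = 1) (m : ℕ) :
    SS w (2 * m + 1) (TT 1 (2 * m + 1)) = (1 - X) ^ (2 * m) * (1 + X) := by
  rw [SS_succ, h3, SS_add]
  have e1 := SS_alt h1 h2 1 0 (by norm_num) m ((1 - X) ^ m) (TT 1 (2 * m + 1))
    (fun i hi => (TT1_closed m).2.1 i hi)
  have e2 := SS_alt h1 h2 1 1 (le_refl 1) m ((1 - X) ^ m) (fun i => 1 * TT 1 (2 * m + 1) (i + 1))
    (fun i hi => by rw [one_mul]; exact (TT1_closed m).2.2 i hi)
  rw [e1, e2]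
  have e3 : TT 0 1 0 = 1 := by rw [EA_eq, EA_one]
  have e4 : TT 0 1 1 = X := by
    have := TT_R2 0 0
    rw [zero_add, e3, mul_one] at this
    exact this
  rw [e3, e4]; ring

end Pool.Agent.Hhelper34.EU
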