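import Pool.Agent.Hhelper34.EU.Comb2

/-!
Signed words: values `±(k+1)` with signs determined by a set `s` of negative values.
-/

namespace Pool.Agent.Hhelper34.EU

open Polynomial Finset Equiv

/-- the value with index `k`: `-(k+1)` if `k ∈ s`, `k+1` otherwise -/
def vs (s : Finset ℕ) (k : ℕ) : ℤ := if k ∈ s then -((k : ℤ) + 1) else (k : ℤ) + 1

lemma vs_natAbs (s : Finset ℕ) (k : ℕ) : |vs s k| = (k : ℤ) + 1 := by
  unfold vs
  split_ifs
  · rw [abs_neg, abs_of_pos (by positivity)]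
  · rw [abs_of_pos (by positivity)]

lemma vs_ne (s : Finset ℕ) (k : ℕ) : vs s k ≠ 0 := by
  unfold vs; split_ifs <;> omega

lemma vs_neg_iff (s : Finset ℕ) (k : ℕ) : vs s k < 0 ↔ k ∈ s := by
  unfold vs; split_ifs with h
  · simp only [h, iff_true]; omega
  · simp only [h, iff_false]; omega

lemma vs_lt_iff (s : Finset ℕ) {i j : ℕ} (hij : i < j) : vs s i < vs s j ↔ j ∉ s := by
  unfold vs; split_ifs <;> simp_all <;> omega

lemma vs_inj (s : Finset ℕ) {i j : ℕ} (h : vs s i = vs s j) : i = j := by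
  have h1 := vs_natAbs s i
  have h2 := vs_natAbs s j
  rw [h] at h1; omega

lemma exists_std {n : ℕ} (v : Fin n → ℤ) (hv : Function.Injective v) :
    ∃ σ : Perm (Fin n), ∀ a b, v a < v b ↔ σ a < σ b := by
  refine ⟨(Tuple.sort v)⁻¹, ?_⟩
  have hm := Tuple.monotone_sort v
  have hs : StrictMono (v ∘ Tuple.sort v) := hm.strictMono_of_injective
    (hv.comp (Tuple.sort v).injective)
  intro a b
  have := hs.lt_iff_lt (a := (Tuple.sort v)⁻¹ a) (b := (Tuple.sort v)⁻¹ b)
  simpa using this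

lemma card_lt_perm {n : ℕ} (σ : Perm (Fin n)) (x : Fin n) :
    #{b : Fin n | σ b < x} = (x : ℕ) := by
  have : (univ.filter fun b : Fin n => σ b < x) = (Iio x).map σ.symm.toEmbedding := by
    ext b
    simp [Finset.mem_map_equiv]
  rw [this, card_map, Fin.card_Iio]

lemma card_le_perm {n : ℕ} (σ : Perm (Fin n)) (x : Fin n) :
    #{b : Fin n | σ b ≤ x} = (x : ℕ) + 1 := by
  have : (univ.filter fun b : Fin n => σ b ≤ x) = (Iic x).map σ.symm.toEmbedding := by
    ext b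
    simp [Finset.mem_map_equiv]
  rw [this, card_map, Fin.card_Iic]

lemma std_neg {n : ℕ} {v : Fin n → ℤ} {σ : Perm (Fin n)} (h : ∀ a b, v a < v b ↔ σ a < σ b)
    (a : Fin n) : v a < 0 ↔ (σ a : ℕ) < #{b : Fin n | v b < 0} := by
  constructor
  · intro ha
    have hsub : (univ.filter fun b : Fin n => σ b ≤ σ a) ⊆ univ.filter fun b : Fin n => v b < 0 := by
      intro b hb
      simp only [mem_filter, mem_univ, true_and] at hb ⊢
      have : ¬ v a < v b := by rw [h]; exact not_lt.mpr hb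
      linarith
    have := card_le_card hsub
    rw [card_le_perm] at this
    omega
  · intro ha
    by_contra hcon
    have hsub : (univ.filter fun b : Fin n => v b < 0) ⊆ univ.filter fun b : Fin n => σ b < σ a := by
      intro b hb
      simp only [mem_filter, mem_univ, true_and] at hb ⊢
      rw [← h]; linarith
    have := card_le_card hsub
    rw [card_lt_perm] at this
    omega

/-- number of negative values -/
lemma card_neg {n : ℕ} {s : Finset ℕ} (hs : s ⊆ range n) :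
    #{b : Fin n | vs s b < 0} = #s := by
  symm
  apply Finset.card_bij (i := fun k hk => (⟨k, mem_range.mp (hs hk)⟩ : Fin n))
  · intro k hk; simp [vs_neg_iff, hk]
  · intro a ha b hb h; simpa using h
  · intro b hb
    have hb' : (b : ℕ) ∈ s := by
      rw [← vs_neg_iff]; exact (mem_filter.mp hb).2
    exact ⟨b, hb', rfl⟩

/-- sign of the standardisation -/
lemma std_sign {n : ℕ} {s : Finset ℕ} (hs : s ⊆ range n) {σ : Perm (Fin n)}
    (h : ∀ a b : Fin n, vs s a < vs s b ↔ σ a < σ b) :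
    (((Perm.sign σ : ℤˣ) : ℤ) : ℝ[X]) = ∏ k ∈ s, (-1) ^ k := by
  have h1 : Perm.sign σ = ∏ j : Fin n, (if (j : ℕ) ∈ s then (-1 : ℤˣ) ^ (j : ℕ) else 1) := by
    rw [Equiv.Perm.sign_eq_prod_prod_Iio]
    apply Finset.prod_congr rfl
    intro j _
    split_ifs with hj
    · have : ∀ i ∈ Iio j, (if σ i < σ j then (1 : ℤˣ) else -1) = -1 := by
        intro i hi
        apply if_neg
        rw [← h, vs_lt_iff s (by simpa using hi : (i : ℕ) < j)]
        simpa using hj
      rw [Finset.prod_congr rfl this, Finset.prod_const, Fin.card_Iio]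
    · apply Finset.prod_eq_one
      intro i hi
      apply if_pos
      rw [← h, vs_lt_iff s (by simpa using hi : (i : ℕ) < j)]
      exact hj
  rw [h1]
  push_cast
  have h2 : ∀ j : Fin n, ((((if (j : ℕ) ∈ s then (-1 : ℤˣ) ^ (j : ℕ) else 1) : ℤˣ) : ℤ) : ℝ[X]) =
      (fun k : ℕ => if k ∈ s then ((-1 : ℝ[X]) ^ k) else 1) j := by
    intro j
    by_cases hj : (j : ℕ) ∈ s
    · simp only [hj, if_true]; push_cast; rfl
    · simp only [hj, if_false]; push_cast; rfl
  rw [Finset.prod_congr rfl (fun j _ => h2 j)]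
  rw [← Finset.prod_range (fun k : ℕ => if k ∈ s then ((-1 : ℝ[X]) ^ k) else 1)]
  rw [Finset.prod_ite_mem, Finset.inter_eq_right.mpr hs]

lemma sg_mul (b : ℕ) {n : ℕ} (σ τ : Perm (Fin n)) : sg b (σ * τ) = sg b σ * sg b τ := by
  unfold sg
  rw [Perm.sign_mul, ← mul_pow]
  congr 1
  push_cast
  rfl

lemma sg_sq (b : ℕ) {n : ℕ} (σ : Perm (Fin n)) : sg b σ * sg b σ = 1 := by
  unfold sg
  rw [← mul_pow]
  have : (((Perm.sign σ : ℤˣ) : ℤ) : ℝ[X]) * (((Perm.sign σ : ℤˣ) : ℤ) : ℝ[X]) = 1 := by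
    rw [← Int.cast_mul, ← Units.val_mul, Int.units_mul_self]; simp
  rw [this, one_pow]

/-- the word of the signed permutation `(s, ρ)` -/
def ww (s : Finset ℕ) {n : ℕ} (ρ : Perm (Fin n)) (k : Fin n) : ℤ := vs s (ρ k)

/-- general standardisation of sums: a statistic of the order pattern -/
lemma std_sum (b : ℕ) {n : ℕ} {s : Finset ℕ} (hs : s ⊆ range n)
    (F G : Perm (Fin n) → ℝ[X])
    (hFG : ∀ σ : Perm (Fin n), (∀ a b : Fin n, vs s a < vs s b ↔ σ a < σ b) →
      (∀ a : Fin n, vs s a < 0 ↔ (σ a : ℕ) < #s) → ∀ ρ, F ρ = G (σ * ρ)) :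
    ∑ ρ : Perm (Fin n), sg b ρ * F ρ = (∏ k ∈ s, (-1) ^ k) ^ b * ∑ τ : Perm (Fin n), sg b τ * G τ := by
  obtain ⟨σ, hσ⟩ := exists_std (fun a : Fin n => vs s a) (by
    intro i j hij
    exact Fin.ext (vs_inj s hij))
  have hneg : ∀ a : Fin n, vs s a < 0 ↔ (σ a : ℕ) < #s := by
    intro a
    rw [← card_neg hs]
    exact std_neg (v := fun a : Fin n => vs s a) hσ a
  have h1 := hFG σ hσ hneg
  have h2 : (∏ k ∈ s, (-1 : ℝ[X]) ^ k) ^ b = sg b σ := by
    unfold sg; rw [std_sign hs hσ]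
  have h3 := Equiv.sum_comp (Equiv.mulLeft σ) (fun τ => sg b σ * (sg b τ * G τ))
  rw [h2, Finset.mul_sum, ← h3]
  apply Finset.sum_congr rfl
  intro ρ _
  rw [Equiv.coe_mulLeft, sg_mul, h1 ρ]
  linear_combination (-(sg b ρ * G (σ * ρ))) * sg_sq b σ

/-- type B descents, fixed set of negative values -/
lemma sumB_fixed (b : ℕ) {n : ℕ} {s : Finset ℕ} (hs : s ⊆ range n) :
    ∑ ρ : Perm (Fin n), sg b ρ * X ^ desT 0 n (ww s ρ) = (∏ k ∈ s, (-1) ^ k) ^ b * TT b n (#s) := by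
  unfold TT
  apply std_sum b hs
  intro σ h1 h2 ρ
  congr 1
  apply desT_congr
  · intro k
    unfold ww wd
    rw [h2 (ρ k), Perm.mul_apply, Nat.cast_lt]
  · intro k l
    unfold ww wd
    rw [h1 (ρ k) (ρ l), Perm.mul_apply, Perm.mul_apply, Nat.cast_lt, Fin.lt_def]

/-- interior descents -/
def desA : (n : ℕ) → (Fin n → ℤ) → ℕ
  | 0, _ => 0
  | n + 1, f => desT (f 0) n (fun k => f k.succ)

lemma desA_congr {n : ℕ} {f f' : Fin n → ℤ} (h : ∀ k l, f k < f l ↔ f' k < f' l) :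
    desA n f = desA n f' := by
  rcases n with _ | n
  · rfl
  · exact desT_congr _ _ _ _ _ (fun k => h _ _) (fun k l => h _ _)

lemma desA_wd {n : ℕ} (e : Perm (Fin n)) : desA n (wd e) = desT 0 n (wd e) := by
  rcases n with _ | n
  · rfl
  · rw [desT_succ, if_neg (by unfold wd; omega), zero_add]; rfl

/-- tail sums, fixed set of negative values -/
lemma sumC_fixed (b : ℕ) {n : ℕ} {s : Finset ℕ} (hs : s ⊆ range (n + 1)) :
    ∑ ρ : Perm (Fin (n + 1)), sg b ρ * X ^ desA n (fun k => ww s ρ k.succ) =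
      (∏ k ∈ s, (-1) ^ k) ^ b *
        ∑ τ : Perm (Fin (n + 1)), sg b τ * X ^ desA n (fun k => wd τ k.succ) := by
  apply std_sum b hs
  intro σ h1 h2 ρ
  congr 1
  apply desA_congr
  intro k l
  unfold ww wd
  rw [h1 (ρ k.succ) (ρ l.succ), Perm.mul_apply, Perm.mul_apply, Nat.cast_lt, Fin.lt_def]

lemma sumC_zero (n : ℕ) :
    ∑ τ : Perm (Fin (n + 1)), sg 0 τ * X ^ desA n (fun k => wd τ k.succ) =
      ((n + 1 : ℕ) : ℝ[X]) * EA n := by
  rw [sum_ins, ← EA_eq]
  have : ∀ j : Fin (n + 1), ∑ e : Perm (Fin n), sg 0 (ins j e) * X ^ desA n (fun k => wd (ins j e) k.succ) =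
      TT 0 n 0 := by
    intro j
    unfold TT
    apply Finset.sum_congr rfl
    intro e _
    have h1 : desA n (fun k => wd (ins j e) k.succ) = desT ((0 : ℕ) : ℤ) n (wd e) := by
      rw [Nat.cast_zero, ← desA_wd]
      apply desA_congr
      intro k l
      unfold wd
      rw [ins_succ, ins_succ, Nat.cast_lt, Nat.cast_lt]
      have := (Fin.strictMono_succAbove j).lt_iff_lt (a := e k) (b := e l)
      rw [Fin.lt_def, Fin.lt_def] at this
      exact this
    rw [h1]; simp [sg]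
  rw [Finset.sum_congr rfl (fun j _ => this j), Finset.sum_const, card_univ, Fintype.card_fin,
    nsmul_eq_mul]

/-- sum over all signed permutations, type B -/
noncomputable def BS (b n : ℕ) : ℝ[X] :=
  ∑ s ∈ (range n).powerset, ∑ ρ : Perm (Fin n), sg b ρ * X ^ desT 0 n (ww s ρ)

lemma BS_eq (b n : ℕ) : BS b n = SS (fun k => ((-1) ^ k) ^ b) n (TT b n) := by
  unfold BS SS
  apply Finset.sum_congr rfl
  intro s hs
  rw [sumB_fixed b (Finset.mem_powerset.mp hs), Finset.prod_pow]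

lemma BS_zero (n : ℕ) : BS 0 n = EB n := by
  rw [BS_eq, ← EB_eq]; simp

/-- the alternating weights -/
noncomputable def wG (k : ℕ) : ℝ[X] := (-1) ^ k

noncomputable def wB (k : ℕ) : ℝ[X] := -(-1) ^ k

lemma wG_even (n : ℕ) : wG (2 * n) = 1 := by unfold wG; rw [pow_mul]; simp
lemma wG_odd (n : ℕ) : wG (2 * n + 1) = -1 := by unfold wG; rw [pow_succ, pow_mul]; simp
lemma wB_even (n : ℕ) : wB (2 * n) = -1 := by unfold wB; rw [pow_mul]; simp
lemma wB_odd (n : ℕ) : wB (2 * n + 1) = 1 := by unfold wB; rw [pow_succ, pow_mul]; simp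

lemma BS_one (n : ℕ) : BS 1 n =
    if Even n then (1 - X) ^ n else (1 - X) ^ (n - 1) * (1 + X) := by
  have e : BS 1 n = SS wG n (TT 1 n) := by
    rw [BS_eq]
    have : (fun k : ℕ => ((-1 : ℝ[X]) ^ k) ^ 1) = wG := by
      funext k; rw [pow_one]; rfl
    rw [this]
  rw [e]
  have h1 : ∀ n, wG (2 * n) + wG (2 * n + 1) = 0 := by intro n; rw [wG_even, wG_odd]; ring
  have h2 : ∀ n, wG (2 * n) * wG (2 * n + 1) = -1 := by intro n; rw [wG_even, wG_odd]; ring
  rcases Nat.even_or_odd' n with ⟨m, rfl | rfl⟩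
  · rw [if_pos (even_two_mul m)]
    exact SS_even h1 h2 m
  · rw [if_neg (by simp), Nat.add_sub_cancel]
    exact SS_odd h1 h2 wG_even m

/-- the sum with the length character of type B, even rank -/
lemma BS_neg (m : ℕ) : ∑ s ∈ (range (2 * m)).powerset, ∑ ρ : Perm (Fin (2 * m)),
    (-1) ^ #s * sg 1 ρ * X ^ desT 0 (2 * m) (ww s ρ) = (1 - X : ℝ[X]) ^ (2 * m) := by
  have h1 : ∀ n, wB (2 * n) + wB (2 * n + 1) = 0 := by intro n; rw [wB_even, wB_odd]; ring
  have h2 : ∀ n, wB (2 * n) * wB (2 * n + 1) = -1 := by intro n; rw [wB_even, wB_odd]; ring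
  rw [← SS_even h1 h2 m]
  unfold SS
  apply Finset.sum_congr rfl
  intro s hs
  have h5 := sumB_fixed 1 (Finset.mem_powerset.mp hs)
  rw [pow_one] at h5
  have h6 : ∏ k ∈ s, wB k = (-1) ^ #s * ∏ k ∈ s, (-1) ^ k := by
    rw [← Finset.prod_const, ← Finset.prod_mul_distrib]
    apply Finset.prod_congr rfl
    intro k _; unfold wB; ring
  rw [h6, mul_assoc, ← h5, Finset.mul_sum]
  apply Finset.sum_congr rfl
  intro ρ _
  ring

/-- tail sum over all signed permutations -/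
noncomputable def CS (b n : ℕ) : ℝ[X] :=
  ∑ s ∈ (range (n + 1)).powerset, ∑ ρ : Perm (Fin (n + 1)), sg b ρ * X ^ desA n (fun k => ww s ρ k.succ)

lemma CS_zero (n : ℕ) : CS 0 n = 2 ^ (n + 1) * (((n + 1 : ℕ) : ℝ[X]) * EA n) := by
  unfold CS
  rw [Finset.sum_congr rfl (fun s hs => sumC_fixed 0 (Finset.mem_powerset.mp hs))]
  rw [sumC_zero]
  simp only [pow_zero, one_mul]
  rw [Finset.sum_const, card_powerset, card_range, nsmul_eq_mul]
  push_cast; ring

lemma CS_one (n : ℕ) (hn : 1 ≤ n) : CS 1 n = 0 := by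
  unfold CS
  rw [Finset.sum_congr rfl (fun s hs => sumC_fixed 1 (Finset.mem_powerset.mp hs)), ← Finset.sum_mul]
  have : ∑ s ∈ (range (n + 1)).powerset, (∏ k ∈ s, (-1 : ℝ[X]) ^ k) ^ 1 = 0 := by
    simp only [pow_one]
    rw [← Finset.prod_one_add]
    apply Finset.prod_eq_zero (i := 1) (mem_range.mpr (by omega))
    simp
  rw [this, zero_mul]

end Pool.Agent.Hhelper34.EU
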