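import Pool.Agent.Hhelper34.EU.Comb3
import Pool.Agent.Hhelper34.EU.Assemble

/-!
Type D sums.
-/

namespace Pool.Agent.Hhelper34.EU

open Polynomial Finset Equiv

open scoped symmDiff

/-- change the sign of the value with index `k` -/
def fl (k : ℕ) (s : Finset ℕ) : Finset ℕ := s ∆ {k}

lemma fl_fl (k : ℕ) (s : Finset ℕ) : fl k (fl k s) = s := by
  unfold fl; rw [symmDiff_assoc, symmDiff_self, symmDiff_bot]

lemma vs_fl_self (k : ℕ) (s : Finset ℕ) : vs (fl k s) k = -vs s k := by
  unfold vs fl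
  by_cases h : k ∈ s
  · have : k ∉ s ∆ {k} := by simp [Finset.mem_symmDiff, h]
    rw [if_neg this, if_pos h]; ring
  · have : k ∈ s ∆ {k} := by simp [Finset.mem_symmDiff, h]
    rw [if_pos this, if_neg h]

lemma vs_fl_ne {k j : ℕ} (hj : j ≠ k) (s : Finset ℕ) : vs (fl k s) j = vs s j := by
  unfold vs fl
  have : j ∈ s ∆ {k} ↔ j ∈ s := by simp [Finset.mem_symmDiff, hj]
  simp only [this]

lemma fl_mem {n k : ℕ} (hk : k < n) {s : Finset ℕ} (hs : s ∈ (range n).powerset) :
    fl k s ∈ (range n).powerset := by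
  rw [Finset.mem_powerset] at hs ⊢
  intro x hx
  unfold fl at hx
  rw [Finset.mem_symmDiff] at hx
  rcases hx with h | h
  · exact hs h.1
  · have := Finset.mem_singleton.mp h.1
    rw [this]; exact mem_range.mpr hk

lemma fl_parity (k : ℕ) (s : Finset ℕ) : Even #(fl k s) ↔ ¬ Even #s := by
  unfold fl
  by_cases h : k ∈ s
  · have : s ∆ {k} = s.erase k := by
      ext x; simp only [Finset.mem_symmDiff, Finset.mem_singleton, Finset.mem_erase]
      constructor
      · rintro (⟨h1, h2⟩ | ⟨h1, h2⟩)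
        · exact ⟨h2, h1⟩
        · exact absurd (h1 ▸ h) h2
      · rintro ⟨h1, h2⟩; exact Or.inl ⟨h2, h1⟩
    rw [this, Finset.card_erase_of_mem h]
    have hpos : 0 < #s := Finset.card_pos.mpr ⟨k, h⟩
    obtain ⟨c, hc⟩ : ∃ c, #s = c + 1 := ⟨#s - 1, by omega⟩
    rw [hc, Nat.add_sub_cancel, Nat.even_add_one, not_not]
  · have : s ∆ {k} = insert k s := by
      ext x; simp only [Finset.mem_symmDiff, Finset.mem_singleton, Finset.mem_insert]
      constructor
      · rintro (⟨h1, h2⟩ | ⟨h1, h2⟩)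
        · exact Or.inr h1
        · exact Or.inl h1
      · rintro (h1 | h1)
        · exact Or.inr ⟨h1, by rw [h1]; exact h⟩
        · exact Or.inl ⟨h1, by rintro rfl; exact h h1⟩
    rw [this, Finset.card_insert_of_notMem h, Nat.even_add_one]

/-- type D descents of the word `w` -/
def desD {m : ℕ} (w : Fin (m + 2) → ℤ) : ℕ := desT (-w 1) (m + 2) w

lemma desD_eq {m : ℕ} (w : Fin (m + 2) → ℤ) : desD w =
    (if w 0 < -w 1 then 1 else 0) + ((if w 1 < w 0 then 1 else 0) +
      desT (w 1) m (fun k => w k.succ.succ)) := by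
  unfold desD
  rw [desT_succ, desT_succ]
  rfl

lemma desB_eq {m : ℕ} (w : Fin (m + 2) → ℤ) : desT 0 (m + 2) w =
    (if w 0 < 0 then 1 else 0) + ((if w 1 < w 0 then 1 else 0) +
      desT (w 1) m (fun k => w k.succ.succ)) := by
  rw [desT_succ, desT_succ]
  rfl

lemma desA_tail {m : ℕ} (w : Fin (m + 2) → ℤ) : desA (m + 1) (fun k => w k.succ) =
      desT (w 1) m (fun k => w k.succ.succ) := rfl

/-- local identity at the first two letters -/
lemma pair_local (a b : ℤ) (ha : a ≠ 0) (hb : b ≠ 0) (hab : |a| ≠ |b|) :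
    (X : ℝ[X]) ^ ((if a < -b then 1 else 0) + (if b < a then 1 else 0)) + X =
      X ^ ((if a < 0 then 1 else 0) + (if b < a then 1 else 0)) +
      X ^ ((if -a < 0 then 1 else 0) + (if b < -a then 1 else 0)) ∧
    (if -a < -b then 1 else 0) + (if b < -a then 1 else 0) =
      (if a < -b then 1 else 0) + (if b < a then 1 else 0) := by
  rcases lt_or_gt_of_ne ha with h1 | h1 <;> rcases lt_or_gt_of_ne hb with h2 | h2
  · rw [abs_of_neg h1, abs_of_neg h2] at hab
    rcases lt_or_gt_of_ne hab with h3 | h3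
    · refine ⟨?_, ?_⟩
      · rw [if_pos (by omega), if_pos (by omega), if_pos (by omega), if_neg (by omega),
          if_pos (by omega)]; ring
      · rw [if_pos (by omega), if_pos (by omega), if_pos (by omega), if_pos (by omega)]
    · refine ⟨?_, ?_⟩
      · rw [if_pos (by omega), if_neg (by omega), if_pos (by omega), if_neg (by omega),
          if_pos (by omega)]; ring
      · rw [if_neg (by omega), if_pos (by omega), if_pos (by omega), if_neg (by omega)]
  · rw [abs_of_neg h1, abs_of_pos h2] at hab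
    rcases lt_or_gt_of_ne hab with h3 | h3
    · refine ⟨?_, ?_⟩
      · rw [if_neg (by omega), if_neg (by omega), if_pos (by omega), if_neg (by omega),
          if_neg (by omega)]; ring
      · rw [if_neg (by omega), if_neg (by omega), if_neg (by omega), if_neg (by omega)]
    · refine ⟨?_, ?_⟩
      · rw [if_pos (by omega), if_neg (by omega), if_pos (by omega), if_neg (by omega),
          if_pos (by omega)]; ring
      · rw [if_neg (by omega), if_pos (by omega), if_pos (by omega), if_neg (by omega)]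
  · rw [abs_of_pos h1, abs_of_neg h2] at hab
    rcases lt_or_gt_of_ne hab with h3 | h3
    · refine ⟨?_, ?_⟩
      · rw [if_pos (by omega), if_pos (by omega), if_neg (by omega), if_pos (by omega),
          if_pos (by omega)]; ring
      · rw [if_pos (by omega), if_pos (by omega), if_pos (by omega), if_pos (by omega)]
    · refine ⟨?_, ?_⟩
      · rw [if_neg (by omega), if_pos (by omega), if_neg (by omega), if_pos (by omega),
          if_neg (by omega)]; ring
      · rw [if_pos (by omega), if_neg (by omega), if_neg (by omega), if_pos (by omega)]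
  · rw [abs_of_pos h1, abs_of_pos h2] at hab
    rcases lt_or_gt_of_ne hab with h3 | h3
    · refine ⟨?_, ?_⟩
      · rw [if_neg (by omega), if_neg (by omega), if_neg (by omega), if_pos (by omega),
          if_neg (by omega)]; ring
      · rw [if_neg (by omega), if_neg (by omega), if_neg (by omega), if_neg (by omega)]
    · refine ⟨?_, ?_⟩
      · rw [if_neg (by omega), if_pos (by omega), if_neg (by omega), if_pos (by omega),
          if_neg (by omega)]; ring
      · rw [if_pos (by omega), if_neg (by omega), if_neg (by omega), if_pos (by omega)]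

lemma ww_abs (s : Finset ℕ) {n : ℕ} (ρ : Perm (Fin n)) (k : Fin n) :
    |ww s ρ k| = ((ρ k : ℕ) : ℤ) + 1 := vs_natAbs s _

/-- the pair identity for words -/
lemma pair_word {m : ℕ} (s : Finset ℕ) (ρ : Perm (Fin (m + 2))) :
    (X : ℝ[X]) ^ desD (ww s ρ) + X * X ^ desA (m + 1) (fun k => ww s ρ k.succ) =
      X ^ desT 0 (m + 2) (ww s ρ) + X ^ desT 0 (m + 2) (ww (fl (ρ 0) s) ρ) ∧
    desD (ww (fl (ρ 0) s) ρ) = desD (ww s ρ) := by
  have hne : ∀ k : Fin (m + 2), k ≠ 0 → ww (fl (ρ 0) s) ρ k = ww s ρ k := by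
    intro k hk
    unfold ww
    apply vs_fl_ne
    intro h
    exact hk (ρ.injective (Fin.ext h))
  have h0 : ww (fl (ρ 0) s) ρ 0 = -ww s ρ 0 := vs_fl_self _ _
  have h1 : ww (fl (ρ 0) s) ρ 1 = ww s ρ 1 := hne 1 (by simp)
  have h2 : (fun k : Fin m => ww (fl (ρ 0) s) ρ k.succ.succ) = (fun k : Fin m => ww s ρ k.succ.succ) := by
    funext k; exact hne _ (Fin.succ_ne_zero _)
  have habs : |ww s ρ 0| ≠ |ww s ρ 1| := by
    rw [ww_abs, ww_abs]
    intro h
    have : (ρ 0 : ℕ) = ρ 1 := by omega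
    have := ρ.injective (Fin.ext this)
    simp at this
  have hp := pair_local (ww s ρ 0) (ww s ρ 1) (vs_ne _ _) (vs_ne _ _) habs
  constructor
  · rw [desD_eq, desB_eq, desB_eq, desA_tail, h0, h1, h2, ← add_assoc, ← add_assoc, ← add_assoc,
      pow_add _ _ (desT _ _ _), pow_add _ _ (desT _ _ _), pow_add _ _ (desT _ _ _), ← add_mul, ← add_mul,
      hp.1]
  · rw [desD_eq, desD_eq, h0, h1, h2, ← add_assoc, ← add_assoc, hp.2]

lemma sum_fl {n k : ℕ} (hk : k < n) {M : Type*} [AddCommMonoid M] (F : Finset ℕ → M) :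
    ∑ s ∈ (range n).powerset, F (fl k s) = ∑ s ∈ (range n).powerset, F s := by
  apply Finset.sum_nbij' (fun s => fl k s) (fun s => fl k s)
  · intro s hs; exact fl_mem hk hs
  · intro s hs; exact fl_mem hk hs
  · intro s _; exact fl_fl k s
  · intro s _; exact fl_fl k s
  · intro s _; rfl

/-- all signed permutations -/
noncomputable def DS (b m : ℕ) : ℝ[X] :=
  ∑ s ∈ (range (m + 2)).powerset, ∑ ρ : Perm (Fin (m + 2)), sg b ρ * X ^ desD (ww s ρ)

/-- an even number of negative letters -/
noncomputable def DE (b m : ℕ) : ℝ[X] :=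
  ∑ s ∈ (range (m + 2)).powerset with Even #s, ∑ ρ : Perm (Fin (m + 2)), sg b ρ * X ^ desD (ww s ρ)

lemma DS_eq (b m : ℕ) : DS b m = 2 * BS b (m + 2) - X * CS b (m + 1) := by
  have h1 : DS b m + X * CS b (m + 1) = ∑ s ∈ (range (m + 2)).powerset, ∑ ρ : Perm (Fin (m + 2)),
      (sg b ρ * X ^ desT 0 (m + 2) (ww s ρ) + sg b ρ * X ^ desT 0 (m + 2) (ww (fl (ρ 0) s) ρ)) := by
    unfold DS CS
    rw [Finset.mul_sum, ← Finset.sum_add_distrib]
    apply Finset.sum_congr rfl
    intro s _
    rw [Finset.mul_sum, ← Finset.sum_add_distrib]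
    apply Finset.sum_congr rfl
    intro ρ _
    linear_combination sg b ρ * (pair_word s ρ).1
  have h2 : ∑ s ∈ (range (m + 2)).powerset, ∑ ρ : Perm (Fin (m + 2)),
      sg b ρ * X ^ desT 0 (m + 2) (ww (fl (ρ 0) s) ρ) = BS b (m + 2) := by
    unfold BS
    rw [Finset.sum_comm, Finset.sum_comm (s := (range (m + 2)).powerset)]
    apply Finset.sum_congr rfl
    intro ρ _
    exact sum_fl (ρ 0).isLt (fun s => sg b ρ * X ^ desT 0 (m + 2) (ww s ρ))
  have h3 : DS b m + X * CS b (m + 1) = BS b (m + 2) + BS b (m + 2) := by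
    rw [h1]
    simp only [Finset.sum_add_distrib]
    rw [h2]
    rfl
  linear_combination h3

lemma two_DE (b m : ℕ) : 2 * DE b m = DS b m := by
  have h1 : DS b m = DE b m + ∑ s ∈ (range (m + 2)).powerset with ¬ Even #s,
      ∑ ρ : Perm (Fin (m + 2)), sg b ρ * X ^ desD (ww s ρ) := by
    unfold DS DE
    rw [Finset.sum_filter_add_sum_filter_not]
  have h2 : DE b m = ∑ s ∈ (range (m + 2)).powerset with ¬ Even #s,
      ∑ ρ : Perm (Fin (m + 2)), sg b ρ * X ^ desD (ww s ρ) := by
    unfold DE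
    rw [Finset.sum_comm, Finset.sum_comm (s := ((range (m + 2)).powerset).filter fun s => ¬ Even #s)]
    apply Finset.sum_congr rfl
    intro ρ _
    apply Finset.sum_nbij' (fun s => fl (ρ 0) s) (fun s => fl (ρ 0) s)
    · intro s hs
      rw [mem_filter] at hs ⊢
      exact ⟨fl_mem (ρ 0).isLt hs.1, by rw [fl_parity, not_not]; exact hs.2⟩
    · intro s hs
      rw [mem_filter] at hs ⊢
      exact ⟨fl_mem (ρ 0).isLt hs.1, by rw [fl_parity]; exact hs.2⟩
    · intro s _; exact fl_fl _ s
    · intro s _; exact fl_fl _ s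
    · intro s _; rw [(pair_word s ρ).2]
  rw [h1, ← h2]; ring

lemma DE_zero (m : ℕ) : DE 0 m = ED (m + 2) := by
  have h := two_DE 0 m
  rw [DS_eq, BS_zero, CS_zero] at h
  have h2 : (2 : ℝ[X]) * DE 0 m = 2 * ED (m + 2) := by
    rw [h]; unfold ED
    rw [show m + 2 - 1 = m + 1 by omega, C_mul, C_pow]
    have e : (C (2 : ℝ) : ℝ[X]) = 2 := rfl
    rw [e]
    simp only [map_natCast]
    push_cast; ring
  exact mul_left_cancel₀ two_ne_zero h2

lemma DE_one (m : ℕ) : DE 1 m = gD (m + 2) := by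
  have h := two_DE 1 m
  rw [DS_eq, BS_one, CS_one (m + 1) (by omega)] at h
  have h2 : (2 : ℝ[X]) * DE 1 m = 2 * gD (m + 2) := by
    rw [h]; unfold gD; ring
  exact mul_left_cancel₀ two_ne_zero h2

end Pool.Agent.Hhelper34.EU
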