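import Mathlib

/-!
Definitions for problem MP_de1c22_co: signed descent polynomials of types A, B, D.
-/

namespace Pool.Agent.Hhelper34.EU

open Polynomial Finset

/-- A nonzero real polynomial all of whose complex roots are real. -/
def RealRooted (p : ℝ[X]) : Prop := p ≠ 0 ∧ ∀ z : ℂ, aeval z p = 0 → z.im = 0

/-! ### Type A -/

/-- Number of descents of a permutation of an `n`-element chain
(`i` is a descent if it has a successor `j` and `π_i > π_j`). -/
def des {n : ℕ} (π : Equiv.Perm (Fin n)) : ℕ :=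
  #{i : Fin n | ∃ j : Fin n, (j : ℕ) = (i : ℕ) + 1 ∧ π j < π i}

/-- `A_n^+(t)`: sum over the even permutations. -/
noncomputable def Aplus (n : ℕ) : ℝ[X] :=
  ∑ π : Equiv.Perm (Fin n) with Equiv.Perm.sign π = 1, X ^ des π

/-- `A_n^-(t)`: sum over the odd permutations. -/
noncomputable def Aminus (n : ℕ) : ℝ[X] :=
  ∑ π : Equiv.Perm (Fin n) with Equiv.Perm.sign π ≠ 1, X ^ des π

/-! ### Type B -/

/-- The set `{±1, …, ±n}` of integers. -/
abbrev PM (n : ℕ) : Type := {x : ℤ // x ∈ (Finset.Icc (-(n : ℤ)) (n : ℤ)).erase 0}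

/-- `𝔅_n`: permutations `π` of `{±1, …, ±n}` with `π(-i) = -π(i)`. -/
noncomputable def signedPerms (n : ℕ) : Finset (Equiv.Perm (PM n)) :=
  {π | ∀ x y : PM n, (y : ℤ) = -(x : ℤ) → ((π y : PM n) : ℤ) = -((π x : PM n) : ℤ)}

/-- `π_i = π(i)` for `i = 1, …, n`; outside of this range the value is `0`, in particular
`π_0 = 0`. -/
noncomputable def entry {n : ℕ} (π : Equiv.Perm (PM n)) (i : ℕ) : ℤ :=
  if h : (i : ℤ) ∈ (Finset.Icc (-(n : ℤ)) (n : ℤ)).erase 0 then ((π ⟨(i : ℤ), h⟩ : PM n) : ℤ) else 0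

/-- The number of `i ∈ {0, …, n-1}` with `w_i > w_{i+1}`. -/
def desCount (w : ℕ → ℤ) (n : ℕ) : ℕ := #{i ∈ range n | w (i + 1) < w i}

/-- `ℓ_D = |{i<j : w_i > w_j}| + |{i<j : -w_i > w_j}|`, indices in `[n]`. -/
def lenD (w : ℕ → ℤ) (n : ℕ) : ℕ :=
  #{p ∈ Icc 1 n ×ˢ Icc 1 n | p.1 < p.2 ∧ w p.2 < w p.1} +
  #{p ∈ Icc 1 n ×ˢ Icc 1 n | p.1 < p.2 ∧ w p.2 < -w p.1}

/-- The number of negative entries `w_i`, `1 ≤ i ≤ n`. -/
def negs (w : ℕ → ℤ) (n : ℕ) : ℕ := #{i ∈ Icc 1 n | w i < 0}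

/-- `inv_B = ℓ_D + |{i : w_i < 0}|`. -/
def invB (w : ℕ → ℤ) (n : ℕ) : ℕ := lenD w n + negs w n

/-- `B_n^+(t)`: sum of `t^{des_B}` over the elements of even length. -/
noncomputable def Bplus (n : ℕ) : ℝ[X] :=
  ∑ π ∈ signedPerms n with Even (invB (entry π) n), X ^ desCount (entry π) n

/-- `B_n^-(t)`: sum of `t^{des_B}` over the elements of odd length. -/
noncomputable def Bminus (n : ℕ) : ℝ[X] :=
  ∑ π ∈ signedPerms n with ¬ Even (invB (entry π) n), X ^ desCount (entry π) n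

/-! ### Type D -/

/-- `𝔇_n`: an even number of negative entries among `π_1, …, π_n`. -/
noncomputable def evenSigned (n : ℕ) : Finset (Equiv.Perm (PM n)) :=
  {π ∈ signedPerms n | Even (negs (entry π) n)}

/-- The word `π_0, π_1, π_2, …` with the type D convention `π_0 = -π_2`. -/
noncomputable def entryD {n : ℕ} (π : Equiv.Perm (PM n)) (i : ℕ) : ℤ := if i = 0 then -entry π 2 else entry π i

/-- `D_n^+(t)`: sum of `t^{des_D}` over the elements of `𝔇_n` of even length. -/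
noncomputable def Dplus (n : ℕ) : ℝ[X] :=
  ∑ π ∈ evenSigned n with Even (lenD (entry π) n), X ^ desCount (entryD π) n

/-- `D_n^-(t)`: sum of `t^{des_D}` over the elements of `𝔇_n` of odd length. -/
noncomputable def Dminus (n : ℕ) : ℝ[X] :=
  ∑ π ∈ evenSigned n with ¬ Even (lenD (entry π) n), X ^ desCount (entryD π) n

end Pool.Agent.Hhelper34.EU
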