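import Pool.Agent.Hhelper34.EU.Assemble

/-!
Real-rootedness of the (doubled) signed Eulerian polynomials in closed form.
-/

namespace Pool.Agent.Hhelper34.EU

open Polynomial Finset

lemma D3 : RR (ED 3 + gD 3) ∧ RR (ED 3 - gD 3) := by
  apply RR_pm (n := 3)
  apply assemble (w := fun r => if r = 0 then -1 / 2 else -2) (by norm_num) (ED_natDegree (by norm_num))
    (gD_natDegree (by norm_num)) (ED_zero _) (gD_zero _) (ED_top (by norm_num)) (gD_top (by norm_num))
  · intro r hr
    have : r < 2 := hr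
    interval_cases r <;> norm_num
  · intro r hr
    have : r < 1 := by omega
    interval_cases r <;> norm_num
  · intro r hr
    have h2 : r < 2 := hr
    have hE : ¬ Even 3 := by decide
    unfold ED gD
    rw [EB_3, show 3 - 1 = 2 by norm_num, EA_2, if_neg hE]
    simp only [eval_add, eval_sub, eval_mul, eval_pow, eval_one, eval_X, eval_C, eval_ofNat]
    interval_cases r <;> norm_num [abs_lt]

lemma D5 : RR (ED 5 + gD 5) ∧ RR (ED 5 - gD 5) := by
  apply RR_pm (n := 5)
  apply assemble (w := fun r => if r = 0 then -1 / 5 else if r = 1 then -1 / 2 else if r = 2 then -2 else -38) (by norm_num) (ED_natDegree (by norm_num))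
    (gD_natDegree (by norm_num)) (ED_zero _) (gD_zero _) (ED_top (by norm_num)) (gD_top (by norm_num))
  · intro r hr
    have : r < 4 := hr
    interval_cases r <;> norm_num
  · intro r hr
    have : r < 3 := by omega
    interval_cases r <;> norm_num
  · intro r hr
    have h2 : r < 4 := hr
    have hE : ¬ Even 5 := by decide
    unfold ED gD
    rw [EB_5, show 5 - 1 = 4 by norm_num, EA_4, if_neg hE]
    simp only [eval_add, eval_sub, eval_mul, eval_pow, eval_one, eval_X, eval_C, eval_ofNat]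
    interval_cases r <;> norm_num [abs_lt]

lemma D6 : RR (ED 6 + gD 6) ∧ RR (ED 6 - gD 6) := by
  apply RR_pm (n := 6)
  apply assemble (w := fun r => if r = 0 then -1 / 9 else if r = 1 then -1 / 2 else if r = 2 then -1 else if r = 3 then -3 else -129) (by norm_num) (ED_natDegree (by norm_num))
    (gD_natDegree (by norm_num)) (ED_zero _) (gD_zero _) (ED_top (by norm_num)) (gD_top (by norm_num))
  · intro r hr
    have : r < 5 := hr
    interval_cases r <;> norm_num
  · intro r hr
    have : r < 4 := by omega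
    interval_cases r <;> norm_num
  · intro r hr
    have h2 : r < 5 := hr
    have hE : Even 6 := by decide
    unfold ED gD
    rw [EB_6, show 6 - 1 = 5 by norm_num, EA_5, if_pos hE]
    simp only [eval_add, eval_sub, eval_mul, eval_pow, eval_one, eval_X, eval_C, eval_ofNat]
    interval_cases r <;> norm_num [abs_lt]

lemma D7 : RR (ED 7 + gD 7) ∧ RR (ED 7 - gD 7) := by
  apply RR_pm (n := 7)
  apply assemble (w := fun r => if r = 0 then -1 / 17 else if r = 1 then -1 / 3 else if r = 2 then -1 / 2 else if r = 3 then -2 else if r = 4 then -5 else -424) (by norm_num) (ED_natDegree (by norm_num))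
    (gD_natDegree (by norm_num)) (ED_zero _) (gD_zero _) (ED_top (by norm_num)) (gD_top (by norm_num))
  · intro r hr
    have : r < 6 := hr
    interval_cases r <;> norm_num
  · intro r hr
    have : r < 5 := by omega
    interval_cases r <;> norm_num
  · intro r hr
    have h2 : r < 6 := hr
    have hE : ¬ Even 7 := by decide
    unfold ED gD
    rw [EB_7, show 7 - 1 = 6 by norm_num, EA_6, if_neg hE]
    simp only [eval_add, eval_sub, eval_mul, eval_pow, eval_one, eval_X, eval_C, eval_ofNat]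
    interval_cases r <;> norm_num [abs_lt]

lemma B4 : RR (EB 4 + (1 - X) ^ 4) ∧ RR (EB 4 - (1 - X) ^ 4) := by
  apply RR_pm (n := 4)
  apply assemble (w := fun r => if r = 0 then -1 / 4 else if r = 1 then -1 else -7) (by norm_num) (EB_natDegree _) (one_sub_X_natDegree _)
    (EB_coeff_zero _) (one_sub_X_zero _) (EB_top _) (one_sub_X_top _ (by decide))
  · intro r hr
    have : r < 3 := hr
    interval_cases r <;> norm_num
  · intro r hr
    have : r < 2 := by omega
    interval_cases r <;> norm_num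
  · intro r hr
    have h2 : r < 3 := hr
    rw [EB_4]
    simp only [eval_add, eval_sub, eval_mul, eval_pow, eval_one, eval_X, eval_C, eval_ofNat]
    interval_cases r <;> norm_num [abs_lt]

lemma B6 : RR (EB 6 + (1 - X) ^ 6) ∧ RR (EB 6 - (1 - X) ^ 6) := by
  apply RR_pm (n := 6)
  apply assemble (w := fun r => if r = 0 then -1 / 13 else if r = 1 then -1 / 3 else if r = 2 then -1 else if r = 3 then -4 else -176) (by norm_num) (EB_natDegree _) (one_sub_X_natDegree _)
    (EB_coeff_zero _) (one_sub_X_zero _) (EB_top _) (one_sub_X_top _ (by decide))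
  · intro r hr
    have : r < 5 := hr
    interval_cases r <;> norm_num
  · intro r hr
    have : r < 4 := by omega
    interval_cases r <;> norm_num
  · intro r hr
    have h2 : r < 5 := hr
    rw [EB_6]
    simp only [eval_add, eval_sub, eval_mul, eval_pow, eval_one, eval_X, eval_C, eval_ofNat]
    interval_cases r <;> norm_num [abs_lt]

lemma A_base2 :
    (∃ c z, HR (EA (2 + 1 + 1) + (1 - X) ^ 2 * EA (1 + 1)) (2 + 1) c z) ∧
    ∃ h : ℝ[X], EA (2 + 1 + 1) - (1 - X) ^ 2 * EA (1 + 1) = X * h ∧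
      ∃ c z, HR h (2 + 1 - 2) c z := by
  have e1 : EA (2 + 1 + 1) = EA 4 := rfl
  have e2 : EA (1 + 1) = EA 2 := rfl
  have hg : (1 - X : ℝ[X]) ^ 2 * EA 2 = gD 3 := by
    unfold gD
    rw [if_neg (by decide), EA_2]
  rw [e1, e2, hg]
  apply assemble (w := fun r => if r = 0 then -1 / 2 else -2) (by norm_num) (EA_natDegree 3)
    (gD_natDegree (by norm_num)) (EA_coeff_zero _) (gD_zero _) (EA_top 3) (gD_top (by norm_num))
  · intro r hr
    have : r < 2 := hr
    interval_cases r <;> norm_num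
  · intro r hr
    have : r < 1 := by omega
    interval_cases r <;> norm_num
  · intro r hr
    have h2 : r < 2 := hr
    rw [← hg, EA_2, EA_4]
    simp only [eval_add, eval_sub, eval_mul, eval_pow, eval_one, eval_X, eval_C, eval_ofNat]
    interval_cases r <;> norm_num [abs_lt]

lemma A_base4 :
    (∃ c z, HR (EA (4 + 1 + 1) + (1 - X) ^ 4 * EA (1 + 1)) (4 + 1) c z) ∧
    ∃ h : ℝ[X], EA (4 + 1 + 1) - (1 - X) ^ 4 * EA (1 + 1) = X * h ∧
      ∃ c z, HR h (4 + 1 - 2) c z := by
  have e1 : EA (4 + 1 + 1) = EA 6 := rfl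
  have e2 : EA (1 + 1) = EA 2 := rfl
  have hg : (1 - X : ℝ[X]) ^ 4 * EA 2 = gD 5 := by
    unfold gD
    rw [if_neg (by decide), EA_2]
  rw [e1, e2, hg]
  apply assemble (w := fun r => if r = 0 then -1 / 7 else if r = 1 then -1 / 2 else if r = 2 then -2 else -10) (by norm_num) (EA_natDegree 5)
    (gD_natDegree (by norm_num)) (EA_coeff_zero _) (gD_zero _) (EA_top 5) (gD_top (by norm_num))
  · intro r hr
    have : r < 4 := hr
    interval_cases r <;> norm_num
  · intro r hr
    have : r < 3 := by omega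
    interval_cases r <;> norm_num
  · intro r hr
    have h2 : r < 4 := hr
    rw [← hg, EA_2, EA_6]
    simp only [eval_add, eval_sub, eval_mul, eval_pow, eval_one, eval_X, eval_C, eval_ofNat]
    interval_cases r <;> norm_num [abs_lt]

lemma RR_one_add_X : RR (1 + X) := by
  have : (1 + X : ℝ[X]) = C 1 * ∏ i ∈ range 1, (X - C ((fun _ => -1 : ℕ → ℝ) i)) := by
    simp; ring
  exact RR_of_prod one_ne_zero this

lemma RR.mul {p q : ℝ[X]} (hp : RR p) (hq : RR q) : RR (p * q) := by
  refine ⟨mul_ne_zero hp.1 hq.1, fun w hw => ?_⟩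
  rw [map_mul] at hw
  rcases mul_eq_zero.mp hw with h | h
  · exact hp.2 w h
  · exact hq.2 w h

lemma RR_X : RR X := ⟨X_ne_zero, fun w hw => by rw [aeval_X] at hw; rw [hw]; simp⟩

lemma D4 : RR (ED 4 + gD 4) ∧ RR (ED 4 - gD 4) := by
  have hE : Even 4 := by decide
  have e1 : (C (((4 : ℕ) : ℝ) * 2 ^ (4 - 1)) : ℝ[X]) = 32 := by
    have : (((4 : ℕ) : ℝ) * 2 ^ (4 - 1)) = (32 : ℝ) := by norm_num
    rw [this]; rfl
  have hplus : ED 4 + gD 4 = 2 + 40 * X + 108 * X ^ 2 + 40 * X ^ 3 + 2 * X ^ 4 := by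
    unfold ED gD
    rw [EB_4, show 4 - 1 = 3 by norm_num, EA_3, if_pos hE]
    rw [show 4 - 1 = 3 by norm_num] at e1
    rw [e1]; ring
  have hminus : ED 4 - gD 4 = C 48 * (X * ((1 + X) * (1 + X))) := by
    unfold ED gD
    rw [EB_4, show 4 - 1 = 3 by norm_num, EA_3, if_pos hE]
    rw [show 4 - 1 = 3 by norm_num] at e1
    have e2 : (C (48 : ℝ) : ℝ[X]) = 48 := rfl
    rw [e1, e2]; ring
  constructor
  · have hd : (ED 4 + gD 4).natDegree ≤ 4 :=
      natDegree_add_le_of_degree_le (ED_natDegree (by norm_num)) (gD_natDegree (by norm_num))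
    have hc : (ED 4 + gD 4).coeff 4 = 2 := by
      rw [coeff_add, ED_top (by norm_num), gD_top (by norm_num)]; norm_num
    obtain ⟨xf, hxf, hxs⟩ := far hd (by rw [hc]; norm_num) (-3)
    obtain ⟨c, z, h⟩ := HR_of_signs (D := 4)
      (x := fun r => if r = 0 then 0 else if r = 1 then -1 / 3 else if r = 2 then -1 else
        if r = 3 then -3 else xf) hd (by norm_num)
      (by
        intro r hr
        interval_cases r <;> norm_num
        exact hxf)
      (by
        intro r hr
        rcases Nat.lt_or_ge r 4 with h | h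
        · rw [hplus]
          simp only [eval_add, eval_sub, eval_mul, eval_pow, eval_one, eval_X, eval_C, eval_ofNat]
          interval_cases r <;> norm_num
        · have : r = 4 := by omega
          subst this
          simpa using hxs)
    exact h.RR
  · rw [hminus]
    exact (RR.mul RR_X (RR.mul RR_one_add_X RR_one_add_X)).C_mul (by norm_num)

lemma B2 : RR (EB 2 + (1 - X) ^ 2) ∧ RR (EB 2 - (1 - X) ^ 2) := by
  have hplus : EB 2 + (1 - X) ^ 2 = C 2 * ((1 + X) * (1 + X)) := by
    have e2 : (C (2 : ℝ) : ℝ[X]) = 2 := rfl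
    rw [EB_2, e2]; ring
  have hminus : EB 2 - (1 - X) ^ 2 = C 8 * X := by
    have e2 : (C (8 : ℝ) : ℝ[X]) = 8 := rfl
    rw [EB_2, e2]; ring
  rw [hplus, hminus]
  exact ⟨(RR.mul RR_one_add_X RR_one_add_X).C_mul (by norm_num), RR_X.C_mul (by norm_num)⟩

/-- type D -/
theorem D_RR {n : ℕ} (hn : 3 ≤ n) : RR (ED n + gD n) ∧ RR (ED n - gD n) := by
  rcases Nat.lt_or_ge n 8 with h | h
  · interval_cases n
    · exact D3
    · exact D4
    · exact D5
    · exact D6
    · exact D7
  · exact D_large h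

/-- type B -/
theorem B_RR {n : ℕ} (hn : 2 ≤ n) (he : Even n) :
    RR (EB n + (1 - X) ^ n) ∧ RR (EB n - (1 - X) ^ n) := by
  rcases Nat.lt_or_ge n 8 with h | h
  · interval_cases n
    · exact B2
    · exact absurd he (by decide)
    · exact B4
    · exact absurd he (by decide)
    · exact B6
    · exact absurd he (by decide)
  · exact B_large h he

lemma A_RR_aux {m k : ℕ} (hm : 2 ≤ m) (k0 : ℕ) (hk : k0 ≤ k)
    (h1 : ∃ c z, HR (EA (m + 1 + k0) + (1 - X) ^ m * EA (k0 + 1)) (m + k0) c z)
    (h2 : ∃ q : ℝ[X], EA (m + 1 + k0) - (1 - X) ^ m * EA (k0 + 1) = X * q ∧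
      ∃ c z, HR q (m + k0 - 2) c z) :
    RR (EA (m + 1 + k) + (1 - X) ^ m * EA (k + 1)) ∧
    RR (EA (m + 1 + k) - (1 - X) ^ m * EA (k + 1)) := by
  obtain ⟨l, rfl⟩ : ∃ l, k = k0 + l := ⟨k - k0, by omega⟩
  obtain ⟨c, z, h3⟩ := chain_plus h1 l
  obtain ⟨q, hq, c', z', h4⟩ := chain_minus hm h2 l
  exact ⟨h3.RR, by rw [hq]; exact h4.RR.X_mul⟩

/-- type A -/
theorem A_RR {n : ℕ} (hn : 4 ≤ n) (h : n % 4 = 0 ∨ n % 4 = 1) :
    RR (EA n + (1 - X) ^ (n / 2) * EA (n - n / 2)) ∧
    RR (EA n - (1 - X) ^ (n / 2) * EA (n - n / 2)) := by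
  obtain ⟨M, hM⟩ : ∃ M, n / 2 = 2 * M := ⟨n / 4, by omega⟩
  obtain ⟨k, hk⟩ : ∃ k, n = 2 * M + 1 + k := ⟨n - (2 * M + 1), by omega⟩
  have e1 : n - n / 2 = k + 1 := by omega
  rw [e1, hM, hk]
  have hM1 : 1 ≤ M := by omega
  have hk1 : 2 * M - 1 ≤ k := by omega
  rcases Nat.lt_or_ge M 3 with h3 | h3
  · interval_cases M
    · exact A_RR_aux (by norm_num) 1 (by omega) A_base2.1 A_base2.2
    · exact A_RR_aux (by norm_num) 1 (by omega) A_base4.1 A_base4.2
  · have hb := A_base h3
    apply A_RR_aux (by omega) 0 (by omega)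
    · rw [zero_add, EA_one, mul_one]; exact hb.1
    · rw [zero_add, EA_one, mul_one]; exact hb.2

end Pool.Agent.Hhelper34.EU

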