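import Pool.Agent.Hhelper34.EU.Comb4
import Pool.Agent.Hhelper34.EU.Final
import Pool.Agent.Hhelper34.EU.Defs

/-!
From permutations of `{±1, …, ±n}` to pairs (set of negative values, permutation).
-/

namespace Pool.Agent.Hhelper34.EU

open Polynomial Finset Equiv

/-- the word of the pair `(s, ρ)` -/
def wrd (s : Finset ℕ) {n : ℕ} (ρ : Perm (Fin n)) (i : ℕ) : ℤ :=
  if h : 1 ≤ i ∧ i ≤ n then ww s ρ ⟨i - 1, by omega⟩ else 0

lemma wrd_succ (s : Finset ℕ) {n : ℕ} (ρ : Perm (Fin n)) (k : Fin n) :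
    wrd s ρ (k + 1) = ww s ρ k := by
  unfold wrd
  rw [dif_pos ⟨by omega, by omega⟩]
  rfl

lemma wrd_zero (s : Finset ℕ) {n : ℕ} (ρ : Perm (Fin n)) : wrd s ρ 0 = 0 := by
  unfold wrd; rw [dif_neg (by omega)]

lemma mem_PM {n : ℕ} {x : ℤ} : x ∈ (Finset.Icc (-(n : ℤ)) (n : ℤ)).erase 0 ↔ x ≠ 0 ∧ x.natAbs ≤ n := by
  rw [Finset.mem_erase, Finset.mem_Icc]
  constructor
  · rintro ⟨h1, h2, h3⟩; exact ⟨h1, by omega⟩
  · rintro ⟨h1, h2⟩; exact ⟨h1, by omega, by omega⟩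

/-- values of the signed permutation attached to `(s, ρ)` -/
def phiv (s : Finset ℕ) {n : ℕ} (ρ : Perm (Fin n)) (x : ℤ) : ℤ :=
  if 0 < x then wrd s ρ x.natAbs else -wrd s ρ x.natAbs

lemma wrd_natAbs (s : Finset ℕ) {n : ℕ} (ρ : Perm (Fin n)) {i : ℕ} (h1 : 1 ≤ i) (h2 : i ≤ n) :
    (wrd s ρ i).natAbs = (ρ ⟨i - 1, by omega⟩ : ℕ) + 1 := by
  obtain ⟨k, rfl⟩ : ∃ k, i = k + 1 := ⟨i - 1, by omega⟩
  have := wrd_succ s ρ ⟨k, by omega⟩
  simp only at this
  rw [this]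
  have h := ww_abs s ρ ⟨k, by omega⟩
  have e : (⟨k + 1 - 1, by omega⟩ : Fin n) = ⟨k, by omega⟩ := rfl
  rw [e]
  rw [Int.abs_eq_natAbs] at h
  omega

lemma phiv_natAbs (s : Finset ℕ) {n : ℕ} (ρ : Perm (Fin n)) {x : ℤ} (h1 : x ≠ 0) (h2 : x.natAbs ≤ n) :
    (phiv s ρ x).natAbs = (ρ ⟨x.natAbs - 1, by omega⟩ : ℕ) + 1 := by
  unfold phiv
  have := wrd_natAbs s ρ (i := x.natAbs) (by omega) h2
  split_ifs
  · exact this
  · rw [Int.natAbs_neg]; exact this

lemma phiv_neg (s : Finset ℕ) {n : ℕ} (ρ : Perm (Fin n)) {x : ℤ} (h1 : x ≠ 0) :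
    phiv s ρ (-x) = -phiv s ρ x := by
  unfold phiv
  rw [Int.natAbs_neg]
  rcases lt_or_gt_of_ne h1 with h | h
  · rw [if_pos (by omega), if_neg (by omega), neg_neg]
  · rw [if_neg (by omega), if_pos h]

/-- the function on `{±1, …, ±n}` -/
def phif (s : Finset ℕ) {n : ℕ} (ρ : Perm (Fin n)) (x : PM n) : PM n :=
  ⟨phiv s ρ x, by
    have hx := mem_PM.mp x.2
    rw [mem_PM]
    have h := phiv_natAbs s ρ hx.1 hx.2
    have h2 := (ρ ⟨(x : ℤ).natAbs - 1, by omega⟩).isLt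
    constructor
    · intro h0; rw [h0] at h; simp at h
    · omega⟩

lemma phif_inj (s : Finset ℕ) {n : ℕ} (ρ : Perm (Fin n)) : Function.Injective (phif s ρ) := by
  intro x y hxy
  have hx := mem_PM.mp x.2
  have hy := mem_PM.mp y.2
  have h : phiv s ρ x = phiv s ρ y := congrArg Subtype.val hxy
  have h1 := phiv_natAbs s ρ hx.1 hx.2
  have h2 := phiv_natAbs s ρ hy.1 hy.2
  rw [h, h2] at h1
  have h3 : ρ ⟨(y : ℤ).natAbs - 1, by omega⟩ = ρ ⟨(x : ℤ).natAbs - 1, by omega⟩ := Fin.ext (by omega)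
  have h4 := ρ.injective h3
  have h5 : (y : ℤ).natAbs - 1 = (x : ℤ).natAbs - 1 := congrArg Fin.val h4
  have h6 : (y : ℤ).natAbs = (x : ℤ).natAbs := by omega
  rcases Int.natAbs_eq_natAbs_iff.mp h6 with h7 | h7
  · exact Subtype.ext h7.symm
  · exfalso
    rw [h7, phiv_neg s ρ hx.1] at h
    have h8 := phiv_natAbs s ρ hx.1 hx.2
    have : phiv s ρ x = 0 := by omega
    rw [this] at h8; simp at h8

/-- the signed permutation attached to `(s, ρ)` -/
noncomputable def phi (s : Finset ℕ) {n : ℕ} (ρ : Perm (Fin n)) : Perm (PM n) :=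
  Equiv.ofBijective (phif s ρ) (Finite.injective_iff_bijective.mp (phif_inj s ρ))

lemma phi_apply (s : Finset ℕ) {n : ℕ} (ρ : Perm (Fin n)) (x : PM n) :
    ((phi s ρ x : PM n) : ℤ) = phiv s ρ x := rfl

lemma phi_mem (s : Finset ℕ) {n : ℕ} (ρ : Perm (Fin n)) : phi s ρ ∈ signedPerms n := by
  unfold signedPerms
  rw [mem_filter]
  refine ⟨mem_univ _, ?_⟩
  intro x y hxy
  rw [phi_apply, phi_apply, hxy]
  exact phiv_neg s ρ (mem_PM.mp x.2).1

lemma entry_phi (s : Finset ℕ) {n : ℕ} (ρ : Perm (Fin n)) : entry (phi s ρ) = wrd s ρ := by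
  funext i
  unfold entry
  by_cases h : (i : ℤ) ∈ (Finset.Icc (-(n : ℤ)) (n : ℤ)).erase 0
  · rw [dif_pos h, phi_apply]
    have h2 := mem_PM.mp h
    unfold phiv
    have h3 : (0 : ℤ) < (i : ℤ) := by omega
    rw [if_pos h3, Int.natAbs_natCast]
  · rw [dif_neg h]
    unfold wrd
    rw [dif_neg]
    intro h2
    apply h
    rw [mem_PM]
    omega

lemma phi_inj {n : ℕ} {s s' : Finset ℕ} (hs : s ⊆ range n) (hs' : s' ⊆ range n) {ρ ρ' : Perm (Fin n)}
    (h : phi s ρ = phi s' ρ') : s = s' ∧ ρ = ρ' := by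
  have hw : ∀ k : Fin n, ww s ρ k = ww s' ρ' k := by
    intro k
    rw [← wrd_succ, ← wrd_succ, ← entry_phi, ← entry_phi, h]
  have h1 : ρ = ρ' := by
    ext k
    have h2 := ww_abs s ρ k
    have h3 := ww_abs s' ρ' k
    rw [hw k] at h2
    omega
  subst h1
  refine ⟨?_, rfl⟩
  ext x
  constructor
  · intro hx
    have hxn := mem_range.mp (hs hx)
    have h4 := hw (ρ.symm ⟨x, hxn⟩)
    unfold ww at h4
    rw [Equiv.apply_symm_apply] at h4
    have h5 := (vs_neg_iff s x).mpr hx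
    simp only at h4
    rw [h4] at h5
    exact (vs_neg_iff s' x).mp h5
  · intro hx
    have hxn := mem_range.mp (hs' hx)
    have h4 := hw (ρ.symm ⟨x, hxn⟩)
    unfold ww at h4
    rw [Equiv.apply_symm_apply] at h4
    have h5 := (vs_neg_iff s' x).mpr hx
    simp only at h4
    rw [← h4] at h5
    exact (vs_neg_iff s x).mp h5

/-- the positive element `k+1` -/
def posE {n : ℕ} (k : Fin n) : PM n := ⟨((k : ℕ) : ℤ) + 1, by rw [mem_PM]; omega⟩

lemma phi_surj {n : ℕ} {π : Perm (PM n)} (hπ : π ∈ signedPerms n) :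
    ∃ s ⊆ range n, ∃ ρ : Perm (Fin n), phi s ρ = π := by
  unfold signedPerms at hπ
  rw [mem_filter] at hπ
  have hodd := hπ.2
  have hval : ∀ x : PM n, ((π x : PM n) : ℤ) ≠ 0 ∧ ((π x : PM n) : ℤ).natAbs ≤ n := fun x =>
    mem_PM.mp (π x).2
  -- ρ
  let rf : Fin n → Fin n := fun k => ⟨((π (posE k) : PM n) : ℤ).natAbs - 1, by
    have := hval (posE k); omega⟩
  have hrf : Function.Injective rf := by
    intro k l hkl
    have h1 : ((π (posE k) : PM n) : ℤ).natAbs - 1 = ((π (posE l) : PM n) : ℤ).natAbs - 1 :=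
      congrArg Fin.val hkl
    have h2 := hval (posE k)
    have h3 := hval (posE l)
    have h4 : ((π (posE k) : PM n) : ℤ).natAbs = ((π (posE l) : PM n) : ℤ).natAbs := by omega
    rcases Int.natAbs_eq_natAbs_iff.mp h4 with h5 | h5
    · have := π.injective (Subtype.ext h5)
      have h6 : ((k : ℕ) : ℤ) + 1 = ((l : ℕ) : ℤ) + 1 := congrArg Subtype.val this
      exact Fin.ext (by omega)
    · exfalso
      have hl : -(((l : ℕ) : ℤ) + 1) ∈ (Finset.Icc (-(n : ℤ)) (n : ℤ)).erase 0 := by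
        rw [mem_PM]; omega
      have h6 := hodd (posE l) ⟨_, hl⟩ rfl
      rw [← h6] at h5
      have := π.injective (Subtype.ext h5)
      have h7 : ((k : ℕ) : ℤ) + 1 = -(((l : ℕ) : ℤ) + 1) := congrArg Subtype.val this
      omega
  let ρ : Perm (Fin n) := Equiv.ofBijective rf (Finite.injective_iff_bijective.mp hrf)
  have hρ : ∀ k, (ρ k : ℕ) = ((π (posE k) : PM n) : ℤ).natAbs - 1 := fun k => rfl
  let s : Finset ℕ := (range n).filter fun x => ∃ j : Fin n, ((π (posE j) : PM n) : ℤ) = -((x : ℤ) + 1)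
  refine ⟨s, Finset.filter_subset _ _, ρ, ?_⟩
  -- the words agree
  have hpos : ∀ k : Fin n, ww s ρ k = ((π (posE k) : PM n) : ℤ) := by
    intro k
    have h1 := hval (posE k)
    have h2 := hρ k
    unfold ww
    rcases lt_or_gt_of_ne h1.1 with h3 | h3
    · have hmem : (ρ k : ℕ) ∈ s := by
        rw [mem_filter]
        refine ⟨mem_range.mpr (ρ k).isLt, k, ?_⟩
        omega
      unfold vs
      rw [if_pos hmem]; omega
    · have hmem : (ρ k : ℕ) ∉ s := by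
        rw [mem_filter]
        rintro ⟨_, j, hj⟩
        have hk : -(((k : ℕ) : ℤ) + 1) ∈ (Finset.Icc (-(n : ℤ)) (n : ℤ)).erase 0 := by
          rw [mem_PM]; omega
        have h6 := hodd (posE k) ⟨_, hk⟩ rfl
        have h7 : ((π (posE j) : PM n) : ℤ) = ((π ⟨-(((k : ℕ) : ℤ) + 1), hk⟩ : PM n) : ℤ) := by
          rw [h6]; omega
        have := π.injective (Subtype.ext h7)
        have h8 : ((j : ℕ) : ℤ) + 1 = -(((k : ℕ) : ℤ) + 1) := congrArg Subtype.val this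
        omega
      unfold vs
      rw [if_neg hmem]; omega
  apply Equiv.ext
  intro x
  apply Subtype.ext
  rw [phi_apply]
  have hx := mem_PM.mp x.2
  obtain ⟨k, hk⟩ : ∃ k : Fin n, (x : ℤ).natAbs = (k : ℕ) + 1 := ⟨⟨(x : ℤ).natAbs - 1, by omega⟩, by simp; omega⟩
  unfold phiv
  rw [hk, wrd_succ, hpos k]
  split_ifs with h
  · congr 2
    apply Subtype.ext
    show ((k : ℕ) : ℤ) + 1 = (x : ℤ)
    omega
  · have h9 := hodd (posE k) x (by show (x : ℤ) = -(((k : ℕ) : ℤ) + 1); omega)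
    rw [h9]

/-- transport of sums -/
theorem sum_signed {n : ℕ} {M : Type*} [AddCommMonoid M] (F : (ℕ → ℤ) → M) :
    ∑ π ∈ signedPerms n, F (entry π) =
      ∑ s ∈ (range n).powerset, ∑ ρ : Perm (Fin n), F (wrd s ρ) := by
  rw [← Finset.sum_product']
  symm
  apply Finset.sum_bij (fun (x : Finset ℕ × Perm (Fin n)) _ => phi x.1 x.2)
  · intro x _; exact phi_mem _ _
  · rintro ⟨s, ρ⟩ h ⟨s', ρ'⟩ h' heq
    rw [mem_product] at h h'
    obtain ⟨h1, h2⟩ := phi_inj (mem_powerset.mp h.1) (mem_powerset.mp h'.1) heq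
    simp only at h1 h2
    rw [h1, h2]
  · intro π hπ
    obtain ⟨s, hs, ρ, h⟩ := phi_surj hπ
    exact ⟨(s, ρ), by rw [mem_product]; exact ⟨mem_powerset.mpr hs, mem_univ _⟩, h⟩
  · rintro ⟨s, ρ⟩ _
    rw [entry_phi]

end Pool.Agent.Hhelper34.EU
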