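import Pool.Agent.Hhelper34.EU.Comb5

/-!
Statistics of the words and the final identities.
-/

namespace Pool.Agent.Hhelper34.EU

open Polynomial Finset Equiv

lemma desCount_eq : ∀ (n : ℕ) (w : ℕ → ℤ), desCount w n = desT (w 0) n (fun k => w (k + 1)) := by
  intro n
  induction n with
  | zero => intro w; rfl
  | succ n ih =>
    intro w
    have h1 : desCount w (n + 1) = (if w 1 < w 0 then 1 else 0) + desCount (fun i => w (i + 1)) n := by
      unfold desCount
      rw [Finset.card_filter, Finset.card_filter, Finset.sum_range_succ']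
      ring
    rw [h1, ih, desT_succ]
    rfl

lemma desCount_wrd (s : Finset ℕ) {n : ℕ} (ρ : Perm (Fin n)) :
    desCount (wrd s ρ) n = desT 0 n (ww s ρ) := by
  rw [desCount_eq, wrd_zero]
  congr 1
  funext k
  exact wrd_succ s ρ k

lemma desCount_D (s : Finset ℕ) {m : ℕ} (ρ : Perm (Fin (m + 2))) :
    desCount (fun i => if i = 0 then -wrd s ρ 2 else wrd s ρ i) (m + 2) = desD (ww s ρ) := by
  rw [desCount_eq]
  unfold desD
  have h : wrd s ρ 2 = ww s ρ 1 := wrd_succ s ρ 1
  rw [if_pos rfl, h]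
  congr 1
  funext k
  rw [if_neg (Nat.succ_ne_zero _)]
  exact wrd_succ s ρ k

lemma negs_wrd {s : Finset ℕ} {n : ℕ} (hs : s ⊆ range n) (ρ : Perm (Fin n)) :
    negs (wrd s ρ) n = #s := by
  unfold negs
  symm
  apply Finset.card_bij (i := fun x hx => ((ρ.symm ⟨x, mem_range.mp (hs hx)⟩ : Fin n) : ℕ) + 1)
  · intro x hx
    rw [mem_filter, mem_Icc, wrd_succ]
    have := (ρ.symm ⟨x, mem_range.mp (hs hx)⟩).isLt
    refine ⟨by omega, ?_⟩
    unfold ww
    rw [Equiv.apply_symm_apply, vs_neg_iff]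
    exact hx
  · intro x hx y hy h
    have h1 : ρ.symm ⟨x, mem_range.mp (hs hx)⟩ = ρ.symm ⟨y, mem_range.mp (hs hy)⟩ := Fin.ext (by omega)
    have h2 := ρ.symm.injective h1
    exact congrArg Fin.val h2
  · intro i hi
    rw [mem_filter, mem_Icc] at hi
    obtain ⟨k, hk⟩ : ∃ k : Fin n, i = (k : ℕ) + 1 := ⟨⟨i - 1, by omega⟩, by simp; omega⟩
    rw [hk, wrd_succ] at hi
    have hk2 : (ρ k : ℕ) ∈ s := by
      have := hi.2
      unfold ww at this
      rwa [vs_neg_iff] at this
    refine ⟨(ρ k : ℕ), hk2, ?_⟩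
    rw [hk]
    simp

lemma prod_Icc_fin {M : Type*} [CommMonoid M] (n : ℕ) (f : ℕ → M) :
    ∏ i ∈ Icc 1 n, f i = ∏ k : Fin n, f (k + 1) := by
  rw [← Finset.prod_range (fun i => f (i + 1))]
  symm
  apply Finset.prod_nbij' (fun i => i + 1) (fun i => i - 1)
  · intro i hi; rw [mem_Icc]; have := mem_range.mp hi; omega
  · intro i hi; rw [mem_Icc] at hi; rw [mem_range]; omega
  · intro i _; simp
  · intro i hi; rw [mem_Icc] at hi; omega
  · intro i _; rfl

lemma neg_one_pow_card {ι : Type*} (S : Finset ι) (p : ι → Prop) [DecidablePred p] :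
    (-1 : ℤˣ) ^ #(S.filter p) = ∏ x ∈ S, (if p x then (-1 : ℤˣ) else 1) := by
  rw [Finset.prod_ite, Finset.prod_const, Finset.prod_const_one, mul_one]

/-- parity of the type D length -/
lemma lenD_sign (s : Finset ℕ) {n : ℕ} (ρ : Perm (Fin n)) :
    (-1 : ℤˣ) ^ lenD (wrd s ρ) n = Perm.sign ρ := by
  unfold lenD
  rw [pow_add, neg_one_pow_card, neg_one_pow_card, ← Finset.prod_mul_distrib, Finset.prod_product,
    prod_Icc_fin, Equiv.Perm.sign_eq_prod_prod_Ioi]
  apply Finset.prod_congr rfl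
  intro i _
  rw [prod_Icc_fin]
  have h0 : ∀ j : Fin n, (if ((i : ℕ) + 1 < (j : ℕ) + 1 ∧ wrd s ρ (j + 1) < wrd s ρ (i + 1)) then (-1 : ℤˣ) else 1) *
      (if ((i : ℕ) + 1 < (j : ℕ) + 1 ∧ wrd s ρ (j + 1) < -wrd s ρ (i + 1)) then (-1 : ℤˣ) else 1) =
      if i < j then (if ρ i < ρ j then 1 else -1) else 1 := by
    intro j
    rw [wrd_succ, wrd_succ]
    by_cases hij : i < j
    · have hij' : (i : ℕ) + 1 < (j : ℕ) + 1 := by
        have := Fin.lt_def.mp hij; omega
      rw [if_pos hij]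
      have h1 := ww_abs s ρ i
      have h2 := ww_abs s ρ j
      rw [Int.abs_eq_natAbs] at h1 h2
      have hne : (ρ i : ℕ) ≠ (ρ j : ℕ) := by
        intro h
        have := ρ.injective (Fin.ext h)
        exact (ne_of_lt hij) this
      have hlt : ρ i < ρ j ↔ (ρ i : ℕ) < (ρ j : ℕ) := Fin.lt_def
      have hj0 : ww s ρ j ≠ 0 := vs_ne s (ρ j)
      have hi0 : ww s ρ i ≠ 0 := vs_ne s (ρ i)
      rcases lt_or_gt_of_ne hne with h3 | h3
      · rw [if_pos (hlt.mpr h3)]
        rcases lt_or_gt_of_ne hj0 with h4 | h4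
        · rw [if_pos ⟨hij', by omega⟩, if_pos ⟨hij', by omega⟩]; simp
        · rw [if_neg (by rintro ⟨_, h⟩; omega), if_neg (by rintro ⟨_, h⟩; omega)]; simp
      · rw [if_neg (show ¬ ρ i < ρ j by rw [hlt]; omega)]
        rcases lt_or_gt_of_ne hi0 with h4 | h4
        · rw [if_neg (by rintro ⟨_, h⟩; omega), if_pos ⟨hij', by omega⟩]; simp
        · rw [if_pos ⟨hij', by omega⟩, if_neg (by rintro ⟨_, h⟩; omega)]; simp
    · have hij' : ¬ (i : ℕ) + 1 < (j : ℕ) + 1 := by
        rw [Fin.lt_def] at hij; omega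
      rw [if_neg hij, if_neg (fun h => hij' h.1), if_neg (fun h => hij' h.1)]; simp
  rw [Finset.prod_congr rfl (fun j _ => h0 j), ← Finset.prod_filter]
  apply Finset.prod_congr _ (fun _ _ => rfl)
  ext j; simp

lemma sg_one {n : ℕ} (ρ : Perm (Fin n)) (s : Finset ℕ) :
    sg 1 ρ = (-1 : ℝ[X]) ^ lenD (wrd s ρ) n := by
  unfold sg
  rw [← lenD_sign s ρ, pow_one]
  push_cast
  rfl

lemma sg_zero {n : ℕ} (ρ : Perm (Fin n)) : sg 0 ρ = 1 := by simp [sg]

/-- splitting a sum by parity -/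
lemma parity_split {ι : Type*} (S : Finset ι) (l : ι → ℕ) (F : ι → ℝ[X]) :
    2 * ∑ x ∈ S with Even (l x), F x = ∑ x ∈ S, F x + ∑ x ∈ S, (-1) ^ l x * F x ∧
    2 * ∑ x ∈ S with ¬ Even (l x), F x = ∑ x ∈ S, F x - ∑ x ∈ S, (-1) ^ l x * F x := by
  rw [← Finset.sum_filter_add_sum_filter_not S (fun x => Even (l x)) F,
    ← Finset.sum_filter_add_sum_filter_not S (fun x => Even (l x)) (fun x => (-1) ^ l x * F x)]
  have h1 : ∑ x ∈ S with Even (l x), (-1) ^ l x * F x = ∑ x ∈ S with Even (l x), F x := by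
    apply Finset.sum_congr rfl
    intro x hx
    rw [(mem_filter.mp hx).2.neg_one_pow, one_mul]
  have h2 : ∑ x ∈ S with ¬ Even (l x), (-1) ^ l x * F x = -∑ x ∈ S with ¬ Even (l x), F x := by
    rw [← Finset.sum_neg_distrib]
    apply Finset.sum_congr rfl
    intro x hx
    rw [(Nat.not_even_iff_odd.mp (mem_filter.mp hx).2).neg_one_pow]; ring
  rw [h1, h2]
  constructor <;> ring

/-! ### type A -/

lemma des_eq {n : ℕ} (π : Perm (Fin n)) : des π = desT 0 n (wd π) := by
  rcases n with _ | n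
  · simp [des, desT_zero]
  · rw [desT_succ, if_neg (by unfold wd; omega), zero_add]
    have h : desT (wd π 0) n (fun k => wd π k.succ) =
        desCount (fun i => if h : i < n + 1 then wd π ⟨i, h⟩ else 0) n := by
      rw [desCount_eq]
      have h0 : (if h : 0 < n + 1 then wd π ⟨0, h⟩ else 0) = wd π 0 := by
        rw [dif_pos (Nat.succ_pos n)]; rfl
      rw [h0]
      congr 1
      funext k
      rw [dif_pos (by omega : (k : ℕ) + 1 < n + 1)]
      rfl
    rw [h]
    unfold des desCount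
    apply Finset.card_bij (i := fun (i : Fin (n + 1)) _ => (i : ℕ))
    · intro i hi
      rw [mem_filter] at hi
      obtain ⟨_, j, hj, hlt⟩ := hi
      have := j.isLt
      rw [mem_filter, mem_range]
      refine ⟨by omega, ?_⟩
      beta_reduce
      rw [dif_pos (by omega : (i : ℕ) + 1 < n + 1), dif_pos (by omega : (i : ℕ) < n + 1)]
      unfold wd
      have e : (⟨(i : ℕ) + 1, by omega⟩ : Fin (n + 1)) = j := Fin.ext hj.symm
      have e2 : (⟨(i : ℕ), by omega⟩ : Fin (n + 1)) = i := rfl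
      rw [e, e2, Nat.cast_lt]
      exact Fin.lt_def.mp hlt
    · intro i _ j _ h; exact Fin.ext h
    · intro i hi
      rw [mem_filter, mem_range] at hi
      obtain ⟨h1, h2⟩ := hi
      beta_reduce at h2
      rw [dif_pos (by omega : i + 1 < n + 1), dif_pos (by omega : i < n + 1)] at h2
      unfold wd at h2
      rw [Nat.cast_lt] at h2
      refine ⟨⟨i, by omega⟩, ?_, rfl⟩
      rw [mem_filter]
      exact ⟨mem_univ _, ⟨i + 1, by omega⟩, rfl, Fin.lt_def.mpr h2⟩

theorem A_formula (n : ℕ) :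
    2 * Aplus n = EA n + (1 - X) ^ (n / 2) * EA (n - n / 2) ∧
    2 * Aminus n = EA n - (1 - X) ^ (n / 2) * EA (n - n / 2) := by
  have h0 : ∑ π : Perm (Fin n), (X : ℝ[X]) ^ des π = EA n := by
    rw [← EA_eq]
    unfold TT
    apply Finset.sum_congr rfl
    intro π _
    rw [sg_zero, one_mul, des_eq]; simp
  have h1 : ∑ π : Perm (Fin n), sg 1 π * (X : ℝ[X]) ^ des π = (1 - X) ^ (n / 2) * EA (n - n / 2) := by
    rw [← TT1_total]
    unfold TT
    apply Finset.sum_congr rfl
    intro π _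
    rw [des_eq]; simp
  have e1 : ∑ π : Perm (Fin n) with Perm.sign π = 1, sg 1 π * (X : ℝ[X]) ^ des π = Aplus n := by
    unfold Aplus
    apply Finset.sum_congr rfl
    intro π hπ
    unfold sg
    rw [(mem_filter.mp hπ).2]; simp
  have e2 : ∑ π : Perm (Fin n) with ¬ Perm.sign π = 1, sg 1 π * (X : ℝ[X]) ^ des π = -Aminus n := by
    unfold Aminus
    rw [← Finset.sum_neg_distrib]
    apply Finset.sum_congr rfl
    intro π hπ
    unfold sg
    have h2 : Perm.sign π = -1 := by
      rcases Int.units_eq_one_or (Perm.sign π) with h | h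
      · exact absurd h (mem_filter.mp hπ).2
      · exact h
    rw [h2]; simp
  have h2 : Aplus n + Aminus n = EA n := by
    rw [← h0, ← Finset.sum_filter_add_sum_filter_not univ (fun π : Perm (Fin n) => Perm.sign π = 1)]
    rfl
  have h3 : Aplus n - Aminus n = (1 - X) ^ (n / 2) * EA (n - n / 2) := by
    rw [← h1, ← Finset.sum_filter_add_sum_filter_not univ (fun π : Perm (Fin n) => Perm.sign π = 1),
      e1, e2]
    ring
  constructor
  · linear_combination h2 + h3
  · linear_combination h2 - h3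

/-! ### type B -/

theorem B_formula (m : ℕ) :
    2 * Bplus (2 * m) = EB (2 * m) + (1 - X) ^ (2 * m) ∧
    2 * Bminus (2 * m) = EB (2 * m) - (1 - X) ^ (2 * m) := by
  set n := 2 * m with hn
  have h0 : ∑ π ∈ signedPerms n, (X : ℝ[X]) ^ desCount (entry π) n = EB n := by
    rw [sum_signed (fun w => (X : ℝ[X]) ^ desCount w n), ← BS_zero]
    unfold BS
    apply Finset.sum_congr rfl
    intro s _
    apply Finset.sum_congr rfl
    intro ρ _
    rw [sg_zero, one_mul, desCount_wrd]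
  have h1 : ∑ π ∈ signedPerms n, (-1) ^ invB (entry π) n * (X : ℝ[X]) ^ desCount (entry π) n =
      (1 - X) ^ n := by
    rw [sum_signed (fun w => (-1) ^ invB w n * (X : ℝ[X]) ^ desCount w n), hn, ← BS_neg m]
    apply Finset.sum_congr rfl
    intro s hs
    apply Finset.sum_congr rfl
    intro ρ _
    unfold invB
    rw [desCount_wrd, negs_wrd (Finset.mem_powerset.mp hs), sg_one ρ s, pow_add]; ring
  obtain ⟨h2, h3⟩ := parity_split (signedPerms n) (fun π => invB (entry π) n)
    (fun π => (X : ℝ[X]) ^ desCount (entry π) n)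
  rw [h0, h1] at h2 h3
  exact ⟨h2, h3⟩

/-! ### type D -/

theorem D_formula (m : ℕ) :
    2 * Dplus (m + 2) = ED (m + 2) + gD (m + 2) ∧
    2 * Dminus (m + 2) = ED (m + 2) - gD (m + 2) := by
  have key : ∀ (b : ℕ) (F : (ℕ → ℤ) → ℝ[X]),
      (∀ s, ∀ ρ : Perm (Fin (m + 2)), F (wrd s ρ) = sg b ρ * X ^ desD (ww s ρ)) →
      ∑ π ∈ evenSigned (m + 2), F (entry π) = DE b m := by
    intro b F hF
    unfold evenSigned
    rw [Finset.sum_filter, sum_signed (fun w => if Even (negs w (m + 2)) then F w else 0)]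
    unfold DE
    rw [Finset.sum_filter]
    apply Finset.sum_congr rfl
    intro s hs
    by_cases h : Even #s
    · rw [if_pos h]
      apply Finset.sum_congr rfl
      intro ρ _
      rw [negs_wrd (Finset.mem_powerset.mp hs), if_pos h, hF]
    · rw [if_neg h]
      apply Finset.sum_eq_zero
      intro ρ _
      rw [negs_wrd (Finset.mem_powerset.mp hs), if_neg h]
  have h0 : ∑ π ∈ evenSigned (m + 2), (X : ℝ[X]) ^ desCount (entryD π) (m + 2) = ED (m + 2) := by
    rw [← DE_zero]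
    exact key 0 (fun w => (X : ℝ[X]) ^ desCount (fun i => if i = 0 then -w 2 else w i) (m + 2))
      (fun s ρ => by rw [desCount_D, sg_zero, one_mul])
  have h1 : ∑ π ∈ evenSigned (m + 2), (-1) ^ lenD (entry π) (m + 2) *
      (X : ℝ[X]) ^ desCount (entryD π) (m + 2) = gD (m + 2) := by
    rw [← DE_one]
    exact key 1 (fun w => (-1) ^ lenD w (m + 2) *
      (X : ℝ[X]) ^ desCount (fun i => if i = 0 then -w 2 else w i) (m + 2))
      (fun s ρ => by rw [desCount_D, sg_one ρ s])
  obtain ⟨h2, h3⟩ := parity_split (evenSigned (m + 2)) (fun π => lenD (entry π) (m + 2))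
    (fun π => (X : ℝ[X]) ^ desCount (entryD π) (m + 2))
  rw [h0, h1] at h2 h3
  exact ⟨h2, h3⟩

lemma real_of_two {p q : ℝ[X]} (h : 2 * p = q) (hq : RR q) : RealRooted p := by
  have e : (C (1 / 2 : ℝ) : ℝ[X]) * q = p := by
    rw [← h, ← mul_assoc]
    have : (C (1 / 2 : ℝ) : ℝ[X]) * 2 = 1 := by
      have e2 : (C (2 : ℝ) : ℝ[X]) = 2 := rfl
      rw [← e2, ← C_mul]; norm_num
    rw [this, one_mul]
  rw [← e]
  exact hq.C_mul (by norm_num)

end Pool.Agent.Hhelper34.EU
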