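import Pool.Agent.Hhelper34.EU.Roots

/-!
Even and odd parts of a product of linear factors (Hermite-Biehler type identities).
-/

namespace Pool.Agent.Hhelper34.EU

open Polynomial Finset

/-- `F = E(X^2) + X O(X^2)`, with formulas for `E^2 - u O^2` and the Wronskian-like expression. -/
def HB (F : ℝ[X]) (Nf Sf : ℝ → ℝ) : Prop :=
  ∃ E O : ℝ[X], F = E.comp (X ^ 2) + X * O.comp (X ^ 2) ∧
    ∀ u ≤ 0, E.eval u ^ 2 - u * O.eval u ^ 2 = Nf u ∧
      E.eval u * (O.eval u + 2 * u * (derivative O).eval u) - 2 * u * (derivative E).eval u * O.eval u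
        = Nf u * Sf u

lemma HB_one : HB 1 (fun _ => 1) (fun _ => 0) :=
  ⟨1, 0, by simp, fun u _ => by simp⟩

lemma HB.mul {F : ℝ[X]} {Nf Sf : ℝ → ℝ} (h : HB F Nf Sf) {a : ℝ} :
    HB ((1 + C a * X) * F) (fun u => (1 - a ^ 2 * u) * Nf u) (fun u => Sf u + a / (1 - a ^ 2 * u)) := by
  obtain ⟨E, O, hF, hEO⟩ := h
  refine ⟨E + C a * X * O, O + C a * E, ?_, ?_⟩
  · rw [hF]
    simp only [add_comp, mul_comp, C_comp, X_comp]
    ring
  · intro u hu
    obtain ⟨h1, h2⟩ := hEO u hu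
    have hpos : (1 - a ^ 2 * u) ≠ 0 := by
      have : 0 ≤ a ^ 2 * (-u) := mul_nonneg (sq_nonneg a) (by linarith)
      have : 0 < 1 - a ^ 2 * u := by linarith
      exact ne_of_gt this
    simp only [eval_add, eval_mul, eval_C, eval_X, derivative_add, derivative_mul, derivative_C,
      derivative_X, eval_zero, eval_one]
    constructor
    · linear_combination (1 - a ^ 2 * u) * h1
    · have e : (1 - a ^ 2 * u) * Nf u * (Sf u + a / (1 - a ^ 2 * u)) =
          (1 - a ^ 2 * u) * (Nf u * Sf u) + a * Nf u := by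
        field_simp
      rw [e]
      linear_combination (1 - a ^ 2 * u) * h2 + a * h1

lemma HB_prod (d : ℕ) (a : ℕ → ℝ) : HB (∏ i ∈ range d, (1 + C (a i) * X))
    (fun u => ∏ i ∈ range d, (1 - a i ^ 2 * u)) (fun u => ∑ i ∈ range d, a i / (1 - a i ^ 2 * u)) := by
  induction d with
  | zero => simpa using HB_one
  | succ d ih =>
    have := ih.mul (a := a d)
    obtain ⟨E, O, h1, h2⟩ := this
    refine ⟨E, O, ?_, ?_⟩
    · rw [Finset.prod_range_succ, mul_comm, h1]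
    · intro u hu
      obtain ⟨h3, h4⟩ := h2 u hu
      refine ⟨?_, ?_⟩
      · rw [h3]; simp only [Finset.prod_range_succ]; ring
      · rw [h4]; simp only [Finset.prod_range_succ, Finset.sum_range_succ]; ring

lemma HB.pow {F : ℝ[X]} {Nf Sf : ℝ → ℝ} (h : HB F Nf Sf) (k : ℕ) :
    HB ((1 + X) ^ k * F) (fun u => (1 - u) ^ k * Nf u) (fun u => Sf u + k / (1 - u)) := by
  induction k with
  | zero => simpa using h
  | succ k ih =>
    have := ih.mul (a := 1)
    obtain ⟨E, O, h1, h2⟩ := this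
    refine ⟨E, O, ?_, ?_⟩
    · rw [← h1]; simp only [C_1]; ring
    · intro u hu
      obtain ⟨h3, h4⟩ := h2 u hu
      refine ⟨?_, ?_⟩
      · rw [h3]; ring
      · rw [h4]; push_cast; ring

lemma comp_sq_inj {P Q : ℝ[X]} (h : P.comp (X ^ 2) = Q.comp (X ^ 2)) : P = Q := by
  rw [← expand_eq_comp_X_pow, ← expand_eq_comp_X_pow] at h
  exact expand_injective two_pos h

lemma HB_unique {E O E' O' : ℝ[X]}
    (h : E.comp (X ^ 2) + X * O.comp (X ^ 2) = E'.comp (X ^ 2) + X * O'.comp (X ^ 2)) :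
    E = E' ∧ O = O' := by
  have h2 := congrArg (fun p : ℝ[X] => p.comp (-X)) h
  simp only [add_comp, mul_comp, X_comp, comp_assoc, pow_comp, neg_sq] at h2
  have hE : (2 : ℝ[X]) * E.comp (X ^ 2) = 2 * E'.comp (X ^ 2) := by
    linear_combination h + h2
  have hE' : E = E' := comp_sq_inj (mul_left_cancel₀ two_ne_zero hE)
  have hO : X * O.comp (X ^ 2) = X * O'.comp (X ^ 2) := by
    rw [hE'] at h; exact add_left_cancel h
  exact ⟨hE', comp_sq_inj (mul_left_cancel₀ X_ne_zero hO)⟩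

/-- key identities at the zeros of `EB (n+1)` -/
lemma key_ids {n : ℕ} {c : ℝ} {z : ℕ → ℝ} (h : HR (EA (n + 1)) n c z) {u : ℝ} (hu : u < 0)
    (hB : (EB (n + 1)).eval u = 0) :
    -u * (2 ^ (n + 1) * (EA (n + 1)).eval u) ^ 2 =
        (1 - u) ^ (n + 2) * ∏ i ∈ range n, (1 - ((z i)⁻¹) ^ 2 * u) ∧
    2 * (derivative (EB (n + 1))).eval u = 2 ^ (n + 1) * (EA (n + 1)).eval u *
        ((n + 2) / (1 - u) + ∑ i ∈ range n, (-(z i)⁻¹) / (1 - ((z i)⁻¹) ^ 2 * u)) := by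
  have hp := h.prod_form (EA_coeff_zero _)
  have hb := (HB_prod n (fun i => -(z i)⁻¹)).pow (n + 2)
  rw [← hp] at hb
  obtain ⟨E, O, hF, hEO⟩ := hb
  have h3 := F3 (n + 1)
  rw [show n + 1 + 1 = n + 2 by ring] at h3
  have hu' : (1 + X : ℝ[X]) ^ (n + 2) * EA (n + 1) =
      (EB (n + 1)).comp (X ^ 2) + X * (C ((2 : ℝ) ^ (n + 1)) * EA (n + 1)).comp (X ^ 2) := by
    rw [h3]; simp only [mul_comp, C_comp]; ring
  obtain ⟨hE, hO⟩ := HB_unique (hF.symm.trans hu')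
  obtain ⟨h1, h2⟩ := hEO u hu.le
  rw [hE, hO] at h1 h2
  simp only [eval_mul, eval_C, hB, neg_sq] at h1 h2
  have hpos : 0 < (1 - u) ^ (n + 2) * ∏ i ∈ range n, (1 - ((z i)⁻¹) ^ 2 * u) := by
    apply mul_pos (pow_pos (by linarith) _)
    apply Finset.prod_pos
    intro i _
    have := mul_nonneg (sq_nonneg (z i)⁻¹) (neg_nonneg.mpr hu.le)
    linarith
  have e1 : -u * (2 ^ (n + 1) * (EA (n + 1)).eval u) ^ 2 =
        (1 - u) ^ (n + 2) * ∏ i ∈ range n, (1 - ((z i)⁻¹) ^ 2 * u) := by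
    rw [← h1]; ring
  refine ⟨e1, ?_⟩
  rw [← e1] at hpos
  have hO0 : 2 ^ (n + 1) * (EA (n + 1)).eval u ≠ 0 := by
    intro h0
    rw [h0] at hpos
    simp at hpos
  rw [← e1] at h2
  have hu0 : u ≠ 0 := ne_of_lt hu
  have h5 : (-u * (2 ^ (n + 1) * (EA (n + 1)).eval u)) * (2 * (derivative (EB (n + 1))).eval u) =
      (-u * (2 ^ (n + 1) * (EA (n + 1)).eval u)) * (2 ^ (n + 1) * (EA (n + 1)).eval u *
        ((n + 2) / (1 - u) + ∑ i ∈ range n, (-(z i)⁻¹) / (1 - ((z i)⁻¹) ^ 2 * u))) := by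
    push_cast at h2
    linear_combination h2
  exact mul_left_cancel₀ (mul_ne_zero (neg_ne_zero.mpr hu0) hO0) h5

end Pool.Agent.Hhelper34.EU
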