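import Pool.Agent.Hhelper34.EU.HB

/-!
Reciprocal pairs: rewriting the key identities with the pair sums `p_i`.
-/

namespace Pool.Agent.Hhelper34.EU

open Polynomial Finset

lemma split_prod {R : Type*} [CommMonoid R] (f : ℕ → R) (M e : ℕ) :
    ∏ i ∈ range (M + e + M), f i =
      (∏ i ∈ range M, (f i * f (M + e + M - 1 - i))) * ∏ i ∈ range e, f (M + i) := by
  rw [Finset.prod_range_add, Finset.prod_range_add, Finset.prod_mul_distrib]
  have : ∏ x ∈ range M, f (M + e + x) = ∏ i ∈ range M, f (M + e + M - 1 - i) := by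
    rw [← Finset.prod_range_reflect]
    apply Finset.prod_congr rfl
    intro i hi
    have := mem_range.mp hi
    congr 1; omega
  rw [this, mul_assoc, mul_assoc, mul_comm (∏ x ∈ range e, f (M + x))]

lemma split_sum {R : Type*} [AddCommMonoid R] (f : ℕ → R) (M e : ℕ) :
    ∑ i ∈ range (M + e + M), f i =
      (∑ i ∈ range M, (f i + f (M + e + M - 1 - i))) + ∑ i ∈ range e, f (M + i) := by
  rw [Finset.sum_range_add, Finset.sum_range_add, Finset.sum_add_distrib]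
  have : ∑ x ∈ range M, f (M + e + x) = ∑ i ∈ range M, f (M + e + M - 1 - i) := by
    rw [← Finset.sum_range_reflect]
    apply Finset.sum_congr rfl
    intro i hi
    have := mem_range.mp hi
    congr 1; omega
  rw [this]; abel

/-- data: positive reals in reciprocal pairs -/
structure Rcp (a : ℕ → ℝ) (M e : ℕ) : Prop where
  pos : ∀ i < M + e + M, 0 < a i
  rcp : ∀ i < M + e + M, a (M + e + M - 1 - i) * a i = 1
  he : e ≤ 1

variable {a : ℕ → ℝ} {M e : ℕ}

/-- pair sums -/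
noncomputable def ps (a : ℕ → ℝ) (i : ℕ) : ℝ := a i + (a i)⁻¹

lemma Rcp.inv (h : Rcp a M e) {i : ℕ} (hi : i < M + e + M) : a (M + e + M - 1 - i) = (a i)⁻¹ :=
  eq_inv_of_mul_eq_one_left (h.rcp i hi)

lemma Rcp.mid (h : Rcp a M e) (h1 : e = 1) : a M = 1 := by
  subst h1
  have := h.rcp M (by omega)
  rw [show M + 1 + M - 1 - M = M by omega] at this
  have hp := h.pos M (by omega)
  nlinarith

lemma ps_ge (h : Rcp a M e) {i : ℕ} (hi : i < M + e + M) : 2 ≤ ps a i := by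
  have hp := h.pos i hi
  have : ps a i - 2 = (a i - 1) ^ 2 / a i := by unfold ps; field_simp; ring
  have h2 : 0 ≤ (a i - 1) ^ 2 / a i := by positivity
  linarith

/-- the factors `c_i` -/
noncomputable def cf (a : ℕ → ℝ) (k : ℝ) (i : ℕ) : ℝ := 1 + k * (ps a i ^ 2 - 4)

lemma cf_ge (h : Rcp a M e) {k : ℝ} (hk : 0 ≤ k) {i : ℕ} (hi : i < M + e + M) : 1 ≤ cf a k i := by
  have := ps_ge h hi
  have h2 : 0 ≤ ps a i ^ 2 - 4 := by nlinarith
  have := mul_nonneg hk h2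
  unfold cf; linarith

lemma pair_mul {x u : ℝ} (hx : 0 < x) (hu : u < 0) :
    (1 - x ^ 2 * u) * (1 - (x⁻¹) ^ 2 * u) =
      (1 - u) ^ 2 * (1 + (-u / (1 - u) ^ 2) * ((x + x⁻¹) ^ 2 - 4)) := by
  have h1 : (1 - u) ≠ 0 := by linarith
  field_simp
  ring

lemma pair_add {x u : ℝ} (hx : 0 < x) (hu : u < 0) :
    (1 - u) * (x / (1 - x ^ 2 * u) + x⁻¹ / (1 - (x⁻¹) ^ 2 * u)) =
      (x + x⁻¹) / (1 + (-u / (1 - u) ^ 2) * ((x + x⁻¹) ^ 2 - 4)) := by
  have h1 : 0 < (1 - u) := by linarith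
  have h2 : 0 < 1 - x ^ 2 * u := by
    have := mul_nonneg (sq_nonneg x) (neg_nonneg.mpr hu.le)
    linarith
  have h3 : 0 < 1 - (x⁻¹) ^ 2 * u := by
    have := mul_nonneg (sq_nonneg x⁻¹) (neg_nonneg.mpr hu.le)
    linarith
  have h4 := pair_mul hx hu
  have h5 : 0 < 1 + (-u / (1 - u) ^ 2) * ((x + x⁻¹) ^ 2 - 4) := by
    have : 0 < (1 - u) ^ 2 * (1 + (-u / (1 - u) ^ 2) * ((x + x⁻¹) ^ 2 - 4)) := by
      rw [← h4]; exact mul_pos h2 h3
    exact (pos_iff_pos_of_mul_pos this).mp (by positivity)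
  rw [div_add_div _ _ h2.ne' h3.ne', ← mul_div_assoc, div_eq_div_iff (mul_pos h2 h3).ne' h5.ne', h4]
  have : x * (1 - x⁻¹ ^ 2 * u) + (1 - x ^ 2 * u) * x⁻¹ = (x + x⁻¹) * (1 - u) := by
    field_simp; ring
  rw [this]; ring

lemma Rcp.prod (h : Rcp a M e) {u : ℝ} (hu : u < 0) :
    ∏ i ∈ range (M + e + M), (1 - a i ^ 2 * u) =
      (1 - u) ^ (M + e + M) * ∏ i ∈ range M, cf a (-u / (1 - u) ^ 2) i := by
  rw [split_prod]
  have h1 : ∀ i ∈ range M, (1 - a i ^ 2 * u) * (1 - a (M + e + M - 1 - i) ^ 2 * u) =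
      (1 - u) ^ 2 * cf a (-u / (1 - u) ^ 2) i := by
    intro i hi
    have hi' := mem_range.mp hi
    rw [h.inv (by omega), pair_mul (h.pos i (by omega)) hu]; rfl
  rw [Finset.prod_congr rfl h1, Finset.prod_mul_distrib, Finset.prod_const, card_range]
  have h2 : ∏ i ∈ range e, (1 - a (M + i) ^ 2 * u) = (1 - u) ^ e := by
    have he := h.he
    interval_cases e
    · simp
    · simp [h.mid rfl]
  rw [h2, ← pow_mul]
  ring

lemma Rcp.sum (h : Rcp a M e) {u : ℝ} (hu : u < 0) :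
    (1 - u) * ∑ i ∈ range (M + e + M), a i / (1 - a i ^ 2 * u) =
      e + ∑ i ∈ range M, ps a i / cf a (-u / (1 - u) ^ 2) i := by
  rw [split_sum, mul_add, Finset.mul_sum]
  have h1 : ∀ i ∈ range M, (1 - u) * (a i / (1 - a i ^ 2 * u) +
      a (M + e + M - 1 - i) / (1 - a (M + e + M - 1 - i) ^ 2 * u)) =
      ps a i / cf a (-u / (1 - u) ^ 2) i := by
    intro i hi
    have hi' := mem_range.mp hi
    rw [h.inv (by omega), pair_add (h.pos i (by omega)) hu]; rfl
  rw [Finset.sum_congr rfl h1]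
  have h2 : (1 - u) * ∑ i ∈ range e, a (M + i) / (1 - a (M + i) ^ 2 * u) = e := by
    have he := h.he
    have hne : (1 - u) ≠ 0 := by linarith
    interval_cases e
    · simp
    · simp [h.mid rfl, hne]
  rw [h2]; ring

/-- the polynomial as a product over pairs -/
lemma Rcp.poly (h : Rcp a M e) : ∏ i ∈ range (M + e + M), (1 + C (a i) * X) =
    (∏ i ∈ range M, (1 + C (ps a i) * X + X ^ 2)) * (1 + X) ^ e := by
  rw [split_prod]
  congr 1
  · apply Finset.prod_congr rfl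
    intro i hi
    have hi' := mem_range.mp hi
    have hp := (h.pos i (by omega)).ne'
    rw [h.inv (by omega)]
    have : (C (a i) : ℝ[X]) * C ((a i)⁻¹) = 1 := by rw [← C_mul, mul_inv_cancel₀ hp, C_1]
    unfold ps
    rw [C_add]
    linear_combination X ^ 2 * this
  · have he := h.he
    interval_cases e
    · simp
    · simp [h.mid rfl]

lemma coeff_pairs (p : ℕ → ℝ) (M : ℕ) :
    (∏ i ∈ range M, (1 + C (p i) * X + X ^ 2)).coeff 0 = 1 ∧
    (∏ i ∈ range M, (1 + C (p i) * X + X ^ 2)).coeff 1 = ∑ i ∈ range M, p i ∧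
    (∏ i ∈ range M, (1 + C (p i) * X + X ^ 2)).coeff 2 =
      ((∑ i ∈ range M, p i) ^ 2 - ∑ i ∈ range M, p i ^ 2) / 2 + M := by
  induction M with
  | zero => simp [coeff_one]
  | succ M ih =>
    obtain ⟨h0, h1, h2⟩ := ih
    rw [Finset.prod_range_succ, Finset.sum_range_succ, Finset.sum_range_succ]
    set Q : ℝ[X] := ∏ i ∈ range M, (1 + C (p i) * X + X ^ 2)
    have e : Q * (1 + C (p M) * X + X ^ 2) = Q + C (p M) * (X * Q) + X * (X * Q) := by ring
    rw [e]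
    refine ⟨?_, ?_, ?_⟩
    · simp [h0]
    · rw [coeff_add, coeff_add, coeff_C_mul, coeff_X_mul, coeff_X_mul, h1, h0]
      simp
    · rw [coeff_add, coeff_add, coeff_C_mul, coeff_X_mul, coeff_X_mul, coeff_X_mul, h1, h0, h2]
      push_cast; ring

lemma Rcp.coeffs (h : Rcp a M e) {p : ℝ[X]} (hp : p = ∏ i ∈ range (M + e + M), (1 + C (a i) * X)) :
    p.coeff 1 = ∑ i ∈ range M, ps a i + e ∧
    p.coeff 2 = ((∑ i ∈ range M, ps a i) ^ 2 - ∑ i ∈ range M, ps a i ^ 2) / 2 + M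
      + e * ∑ i ∈ range M, ps a i := by
  rw [hp, h.poly]
  obtain ⟨h0, h1, h2⟩ := coeff_pairs (ps a) M
  have he := h.he
  interval_cases e
  · rw [pow_zero, mul_one, h1, h2]; simp
  · set Q : ℝ[X] := ∏ i ∈ range M, (1 + C (ps a i) * X + X ^ 2)
    have e : Q * (1 + X) ^ 1 = Q + X * Q := by ring
    rw [e]
    refine ⟨?_, ?_⟩
    · rw [coeff_add, coeff_X_mul, h1, h0]; simp
    · rw [coeff_add, coeff_X_mul, h1, h2]; simp

end Pool.Agent.Hhelper34.EU
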