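import Pool.Agent.Hhelper34.EU.Basic

/-!
The Eulerian polynomials of types A and B through their differential recursions; coefficients,
palindromicity, real roots, and the identity
`(1+t)^(n+1) A_n(t) = B_n(t^2) + 2^n t A_n(t^2)`.
-/

namespace Pool.Agent.Hhelper34.EU

open Polynomial Finset

/-- Eulerian polynomials of type A (`EA 0 = EA 1 = 1`, `EA 2 = 1 + t`, ...) -/
noncomputable def EA : ℕ → ℝ[X]
  | 0 => 1
  | n + 1 => (C 1 + C (n : ℝ) * X) * EA n + X * (1 - X) * derivative (EA n)

/-- Eulerian polynomials of type B (`EB 0 = 1`, `EB 1 = 1 + t`, ...) -/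
noncomputable def EB : ℕ → ℝ[X]
  | 0 => 1
  | n + 1 => C 2 * ((C (1 / 2) + C ((n : ℝ) + 1 / 2) * X) * EB n + X * (1 - X) * derivative (EB n))

lemma EA_succ (n : ℕ) : EA (n + 1) = (C 1 + C (n : ℝ) * X) * EA n + X * (1 - X) * derivative (EA n) := rfl

lemma EB_succ (n : ℕ) : EB (n + 1) =
    C 2 * ((C (1 / 2) + C ((n : ℝ) + 1 / 2) * X) * EB n + X * (1 - X) * derivative (EB n)) := rfl

lemma EA_one : EA 1 = 1 := by simp [EA]

lemma EA_coeff_zero (n : ℕ) : (EA n).coeff 0 = 1 := by
  induction n with
  | zero => simp [EA]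
  | succ n ih => rw [EA_succ, coeff_step_zero, ih]; norm_num

lemma EA_coeff_succ (n k : ℕ) : (EA (n + 1)).coeff (k + 1) =
    (k + 2) * (EA n).coeff (k + 1) + (n - k) * (EA n).coeff k := by
  rw [EA_succ, coeff_step]; ring

lemma EB_coeff_zero (n : ℕ) : (EB n).coeff 0 = 1 := by
  induction n with
  | zero => simp [EB]
  | succ n ih => rw [EB_succ, coeff_C_mul, coeff_step_zero, ih]; norm_num

lemma EB_coeff_succ (n k : ℕ) : (EB (n + 1)).coeff (k + 1) =
    (2 * k + 3) * (EB n).coeff (k + 1) + (2 * n + 1 - 2 * k) * (EB n).coeff k := by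
  rw [EB_succ, coeff_C_mul, coeff_step]; ring

lemma EA_coeff_one (n : ℕ) : (EA n).coeff 1 = 2 ^ n - n - 1 := by
  induction n with
  | zero => simp [EA, coeff_one]
  | succ n ih =>
    have := EA_coeff_succ n 0
    rw [EA_coeff_zero, zero_add, ih] at this
    rw [this]; push_cast; ring

lemma EA_coeff_two (n : ℕ) : (EA n).coeff 2 = 3 ^ n - (n + 1) * 2 ^ n + n * (n + 1) / 2 := by
  induction n with
  | zero => simp [EA, coeff_one]
  | succ n ih =>
    have := EA_coeff_succ n 1
    rw [show (1 + 1 : ℕ) = 2 from rfl, ih, EA_coeff_one] at this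
    rw [this]; push_cast; ring

lemma EB_coeff_one (n : ℕ) : (EB n).coeff 1 = 3 ^ n - n - 1 := by
  induction n with
  | zero => simp [EB, coeff_one]
  | succ n ih =>
    have := EB_coeff_succ n 0
    rw [EB_coeff_zero, zero_add, ih] at this
    rw [this]; push_cast; ring

lemma EB_coeff_two (n : ℕ) : (EB n).coeff 2 = 5 ^ n - (n + 1) * 3 ^ n + n * (n + 1) / 2 := by
  induction n with
  | zero => simp [EB, coeff_one]
  | succ n ih =>
    have := EB_coeff_succ n 1
    rw [show (1 + 1 : ℕ) = 2 from rfl, ih, EB_coeff_one] at this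
    rw [this]; push_cast; ring

lemma EA_coeff_big (n : ℕ) : ∀ k, n < k + 1 → (EA (n + 1)).coeff (k + 1) = 0 := by
  induction n with
  | zero =>
    intro k _
    rw [zero_add, EA_one, coeff_one]; simp
  | succ n ih =>
    intro k hk
    obtain ⟨l, rfl⟩ : ∃ l, k = l + 1 := ⟨k - 1, by omega⟩
    rw [EA_coeff_succ, ih (l + 1) (by omega), ih l (by omega)]
    ring

lemma EB_coeff_big (n : ℕ) : ∀ k, n < k → (EB n).coeff k = 0 := by
  induction n with
  | zero => intro k hk; simp [EB, coeff_one]; omega
  | succ n ih =>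
    intro k hk
    obtain ⟨l, rfl⟩ : ∃ l, k = l + 1 := ⟨k - 1, by omega⟩
    rw [EB_coeff_succ, ih (l + 1) (by omega), ih l (by omega)]
    ring

/-- palindromicity -/
lemma EA_pal (n : ℕ) : ∀ i j, i + j = n → (EA (n + 1)).coeff i = (EA (n + 1)).coeff j := by
  induction n with
  | zero => intro i j h; have : i = j := by omega
            rw [this]
  | succ n ih =>
    -- top coefficient
    have key : ∀ i j, i + j = n + 1 → (EA (n + 1 + 1)).coeff i = (EA (n + 1 + 1)).coeff j := by
      intro i j h
      rcases i with _ | k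
      · have hj : j = n + 1 := by omega
        subst hj
        rw [EA_coeff_zero, EA_coeff_succ, EA_coeff_big n n (by omega), ← ih 0 n (by omega),
          EA_coeff_zero]
        push_cast; ring
      · rcases j with _ | l
        · have hk : k = n := by omega
          subst hk
          rw [EA_coeff_zero, EA_coeff_succ, EA_coeff_big k k (by omega), ← ih 0 k (by omega),
            EA_coeff_zero]
          push_cast; ring
        · rw [EA_coeff_succ (n + 1) k, EA_coeff_succ (n + 1) l, ih (k + 1) l (by omega),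
            ih k (l + 1) (by omega)]
          have : (n : ℝ) = k + l + 1 := by
            have : n = k + l + 1 := by omega
            rw [this]; push_cast; ring
          push_cast
          rw [this]; ring
    exact key

lemma EB_pal (n : ℕ) : ∀ i j, i + j = n → (EB n).coeff i = (EB n).coeff j := by
  induction n with
  | zero => intro i j h; have : i = j := by omega
            rw [this]
  | succ n ih =>
    intro i j h
    rcases i with _ | k
    · have hj : j = n + 1 := by omega
      subst hj
      rw [EB_coeff_zero, EB_coeff_succ, EB_coeff_big n (n + 1) (by omega), ← ih 0 n (by omega),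
        EB_coeff_zero]
      ring
    · rcases j with _ | l
      · have hk : k = n := by omega
        subst hk
        rw [EB_coeff_zero, EB_coeff_succ, EB_coeff_big k (k + 1) (by omega), ← ih 0 k (by omega),
          EB_coeff_zero]
        ring
      · rw [EB_coeff_succ, EB_coeff_succ, ih (k + 1) l (by omega), ih k (l + 1) (by omega)]
        have : (n : ℝ) = k + l + 1 := by
          have : n = k + l + 1 := by omega
          rw [this]; push_cast; ring
        rw [this]; ring

/-- the odd/even identity -/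
lemma F3 (n : ℕ) : (1 + X : ℝ[X]) ^ (n + 1) * EA n =
    (EB n).comp (X ^ 2) + C ((2 : ℝ) ^ n) * X * (EA n).comp (X ^ 2) := by
  induction n with
  | zero =>
    have h1 : EA 0 = 1 := rfl
    have h2 : EB 0 = 1 := rfl
    rw [h1, h2]; simp
  | succ n ih =>
    have hC2 : (C (2 : ℝ) : ℝ[X]) = 2 := rfl
    have hd := congrArg derivative ih
    simp only [derivative_mul, derivative_add, derivative_pow, derivative_comp, derivative_C,
      derivative_X, derivative_one] at hd
    rw [EA_succ, EB_succ]
    simp only [add_comp, mul_comp, sub_comp, C_comp, X_comp, one_comp]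
    have e1 : (C (1 / 2 : ℝ) : ℝ[X]) * 2 = 1 := by
      rw [← hC2, ← C_mul]; norm_num
    have e2 : (C ((n : ℝ) + 1 / 2) : ℝ[X]) * 2 = 2 * C (n : ℝ) + 1 := by
      rw [← hC2, ← C_mul, ← C_mul, ← C_1, ← C_add]; congr 1; ring
    have e3 : (C ((2 : ℝ) ^ (n + 1)) : ℝ[X]) = 2 * C ((2 : ℝ) ^ n) := by
      rw [← hC2, ← C_mul]; congr 1; ring
    have e4 : (C ((n + 1 : ℕ) : ℝ) : ℝ[X]) = C (n : ℝ) + 1 := by
      push_cast; rw [C_add, C_1]
    have e5 : (C ((2 : ℕ) : ℝ) : ℝ[X]) = 2 := by push_cast; exact hC2
    rw [e3, hC2]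
    rw [e4, e5] at hd
    simp only [C_1] at *
    simp only [Nat.add_sub_cancel] at hd
    linear_combination (1 + (2 * C (n : ℝ) + 1) * X ^ 2) * ih + X * (1 - X ^ 2) * hd
      - (EB n).comp (X ^ 2) * e1 - X ^ 2 * (EB n).comp (X ^ 2) * e2

end Pool.Agent.Hhelper34.EU
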