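import Pool.Agent.Hhelper34.EU.Polys

/-!
Real roots of the Eulerian polynomials, reciprocal pairs.
-/

namespace Pool.Agent.Hhelper34.EU

open Polynomial Finset

lemma HR.scale {p : ℝ[X]} {d : ℕ} {c : ℝ} {z : ℕ → ℝ} (h : HR p d c z) {k : ℝ} (hk : 0 < k) :
    HR (C k * p) d (k * c) z := by
  refine ⟨mul_pos hk h.1, h.2.1, h.2.2.1, ?_⟩
  rw [h.2.2.2, C_mul, mul_assoc]

lemma HR_EA (n : ℕ) : ∃ c z, HR (EA (n + 1)) n c z := by
  induction n with
  | zero =>
    refine ⟨1, fun _ => 0, one_pos, fun i hi => absurd hi (Nat.not_lt_zero _),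
      fun i j _ hj => absurd hj (Nat.not_lt_zero _), ?_⟩
    rw [zero_add, EA_one]; simp
  | succ n ih =>
    obtain ⟨c, z, h⟩ := ih
    rw [EA_succ]
    exact h.step one_pos (by push_cast; linarith)

lemma HR_EB (n : ℕ) : ∃ c z, HR (EB n) n c z := by
  induction n with
  | zero =>
    refine ⟨1, fun _ => 0, one_pos, fun i hi => absurd hi (Nat.not_lt_zero _),
      fun i j _ hj => absurd hj (Nat.not_lt_zero _), ?_⟩
    simp [EB]
  | succ n ih =>
    obtain ⟨c, z, h⟩ := ih
    rw [EB_succ]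
    obtain ⟨c', z', h'⟩ := h.step (a := 1 / 2) (b := (n : ℝ) + 1 / 2) (by norm_num) (by linarith)
    exact ⟨_, _, h'.scale two_pos⟩

/-- product form normalised at `0` -/
lemma HR.prod_form {p : ℝ[X]} {d : ℕ} {c : ℝ} {z : ℕ → ℝ} (h : HR p d c z) (h0 : p.coeff 0 = 1) :
    p = ∏ i ∈ range d, (1 + C (-(z i)⁻¹) * X) := by
  have h1 : ∀ i ∈ range d, (X - C (z i) : ℝ[X]) = C (-z i) * (1 + C (-(z i)⁻¹) * X) := by
    intro i hi
    have hz : z i ≠ 0 := ne_of_lt (h.2.1 i (by simpa using hi))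
    rw [mul_add, ← mul_assoc, ← C_mul, neg_mul_neg, mul_inv_cancel₀ hz]
    simp; ring
  have h2 : p = C (c * ∏ i ∈ range d, (-z i)) * ∏ i ∈ range d, (1 + C (-(z i)⁻¹) * X) := by
    conv_lhs => rw [h.2.2.2]
    rw [Finset.prod_congr rfl h1, Finset.prod_mul_distrib, C_mul, map_prod, mul_assoc]
  have h3 : c * ∏ i ∈ range d, (-z i) = 1 := by
    have := congrArg (eval 0) h2
    rw [← coeff_zero_eq_eval_zero, h0] at this
    simp only [eval_mul, eval_C, eval_prod, eval_add, eval_one, eval_X, mul_zero, add_zero,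
      Finset.prod_const_one, mul_one] at this
    exact this.symm
  rw [h3, C_1, one_mul] at h2
  exact h2

lemma pal_eval {p : ℝ[X]} {d : ℕ} (hd : p.natDegree ≤ d)
    (hpal : ∀ i j, i + j = d → p.coeff i = p.coeff j) {x : ℝ} (hx : x ≠ 0) :
    p.eval x = x ^ d * p.eval (x⁻¹) := by
  rw [eval_eq_sum_range' (Nat.lt_succ_of_le hd), eval_eq_sum_range' (Nat.lt_succ_of_le hd),
    Finset.mul_sum, ← Finset.sum_range_reflect]
  apply Finset.sum_congr rfl
  intro i hi
  have hi' : i ≤ d := by have := mem_range.mp hi; omega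
  rw [hpal (d + 1 - 1 - i) i (by omega)]
  have : x ^ (d + 1 - 1 - i) = x ^ d * x⁻¹ ^ i := by
    rw [inv_pow, show d + 1 - 1 - i = d - i by omega, pow_sub₀ x hx hi']
  rw [this]; ring

lemma HR.mem_of_root {p : ℝ[X]} {d : ℕ} {c : ℝ} {z : ℕ → ℝ} (h : HR p d c z) {x : ℝ}
    (hx : p.eval x = 0) : ∃ j < d, z j = x := by
  rw [h.2.2.2] at hx
  simp only [eval_mul, eval_C, eval_prod, eval_sub, eval_X] at hx
  rcases mul_eq_zero.mp hx with h1 | h1
  · exact absurd h1 (ne_of_gt h.1)
  · obtain ⟨j, hj, hj'⟩ := Finset.prod_eq_zero_iff.mp h1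
    exact ⟨j, by simpa using hj, by linarith⟩

/-- the roots of a palindromic polynomial come in reciprocal pairs -/
lemma HR.pal {p : ℝ[X]} {d : ℕ} {c : ℝ} {z : ℕ → ℝ} (h : HR p d c z)
    (hpal : ∀ i j, i + j = d → p.coeff i = p.coeff j) {i : ℕ} (hi : i < d) :
    z (d - 1 - i) = (z i)⁻¹ := by
  have hex : ∀ i : ℕ, ∃ j, i < d → j < d ∧ z j = (z i)⁻¹ := by
    intro i
    by_cases hi : i < d
    · have hz : z i ≠ 0 := ne_of_lt (h.2.1 i hi)
      have h1 := pal_eval h.natDegree.le hpal hz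
      rw [h.root hi] at h1
      have h2 : p.eval ((z i)⁻¹) = 0 := by
        rcases mul_eq_zero.mp h1.symm with h3 | h3
        · exact absurd h3 (pow_ne_zero _ hz)
        · exact h3
      obtain ⟨j, hj, hj'⟩ := h.mem_of_root h2
      exact ⟨j, fun _ => ⟨hj, hj'⟩⟩
    · exact ⟨0, fun h => absurd h hi⟩
  choose σ hσ using hex
  -- σ is strictly decreasing
  have hmono : ∀ i j, i < j → j < d → z j < z i := h.2.2.1
  have hanti : ∀ i j, i < j → j < d → σ j < σ i := by
    intro i j hij hj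
    by_contra hcon
    push Not at hcon
    have hzi := h.2.1 i (by omega)
    have hzj := h.2.1 j hj
    have h1 := hmono i j hij hj
    have h2 : (z i)⁻¹ < (z j)⁻¹ := by
      rw [inv_lt_inv_of_neg hzi hzj]; exact h1
    rw [← (hσ i (by omega)).2, ← (hσ j hj).2] at h2
    rcases Nat.lt_or_ge (σ i) (σ j) with h3 | h3
    · have := hmono _ _ h3 (hσ j hj).1
      linarith
    · have : σ i = σ j := by omega
      rw [this] at h2
      exact lt_irrefl _ h2
  have hup : ∀ i, i < d → σ i + i ≤ d - 1 := by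
    intro i
    induction i with
    | zero => intro hi; have := (hσ 0 hi).1; omega
    | succ i ih =>
      intro hi
      have h1 := ih (by omega)
      have h2 := hanti i (i + 1) (by omega) hi
      omega
  have hlow : ∀ k, k < d → k ≤ σ (d - 1 - k) := by
    intro k
    induction k with
    | zero => intro _; omega
    | succ k ih =>
      intro hk
      have h1 := ih (by omega)
      have h2 := hanti (d - 1 - (k + 1)) (d - 1 - k) (by omega) (by omega)
      omega
  have h1 := hup i hi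
  have h2 := hlow (d - 1 - i) (by omega)
  rw [show d - 1 - (d - 1 - i) = i by omega] at h2
  have h3 : σ i = d - 1 - i := by omega
  rw [← h3]
  exact (hσ i hi).2

end Pool.Agent.Hhelper34.EU
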