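import Pool.Agent.Hhelper34.EU.AVals

/-!
Explicit Eulerian polynomials of small rank.
-/

namespace Pool.Agent.Hhelper34.EU

open Polynomial Finset

lemma EA_2 : EA 2 = 1 + X := by
  rw [EA_succ, EA_one]; simp

lemma stepA (n : ℕ) (p q : ℝ[X]) (h : EA n = p) (hq : q = (1 + (n : ℝ[X]) * X) * p + X * (1 - X) * derivative p) :
    EA (n + 1) = q := by
  rw [EA_succ, h, hq]; simp

lemma stepB (n : ℕ) (p q : ℝ[X]) (h : EB n = p)
    (hq : q = (1 + (2 * (n : ℝ[X]) + 1) * X) * p + 2 * X * (1 - X) * derivative p) :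
    EB (n + 1) = q := by
  have e1 : (C (1 / 2 : ℝ) : ℝ[X]) * C 2 = 1 := by
    rw [← C_mul]; norm_num
  have e2 : (C ((n : ℝ) + 1 / 2) : ℝ[X]) * C 2 = 2 * (n : ℝ[X]) + 1 := by
    rw [← C_mul]
    have : ((n : ℝ) + 1 / 2) * 2 = 2 * n + 1 := by ring
    rw [this, C_add, C_mul, C_1]
    rfl
  have e3 : (C (2 : ℝ) : ℝ[X]) = 2 := rfl
  rw [EB_succ, h, hq]
  linear_combination p * e1 + X * p * e2 + X * (1 - X) * derivative p * e3

lemma EA_3 : EA 3 = 1 + 4 * X + X ^ 2 := by
  apply stepA 2 _ _ EA_2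
  simp only [derivative_add, derivative_one, derivative_X]
  push_cast; ring

lemma EA_4 : EA 4 = 1 + 11 * X + 11 * X ^ 2 + X ^ 3 := by
  apply stepA 3 _ _ EA_3
  simp only [derivative_add, derivative_mul, derivative_ofNat, derivative_one, derivative_X,
    derivative_X_pow, map_natCast]
  push_cast; ring

lemma EA_5 : EA 5 = 1 + 26 * X + 66 * X ^ 2 + 26 * X ^ 3 + X ^ 4 := by
  apply stepA 4 _ _ EA_4
  simp only [derivative_add, derivative_mul, derivative_ofNat, derivative_one, derivative_X,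
    derivative_X_pow, map_natCast]
  push_cast; ring

lemma EA_6 : EA 6 = 1 + 57 * X + 302 * X ^ 2 + 302 * X ^ 3 + 57 * X ^ 4 + X ^ 5 := by
  apply stepA 5 _ _ EA_5
  simp only [derivative_add, derivative_mul, derivative_ofNat, derivative_one, derivative_X,
    derivative_X_pow, map_natCast]
  push_cast; ring

lemma EB_1 : EB 1 = 1 + X := by
  apply stepB 0 1 _ rfl
  simp

lemma EB_2 : EB 2 = 1 + 6 * X + X ^ 2 := by
  apply stepB 1 _ _ EB_1
  simp only [derivative_add, derivative_mul, derivative_ofNat, derivative_one, derivative_X,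
    derivative_X_pow, map_natCast]
  push_cast; ring

lemma EB_3 : EB 3 = 1 + 23 * X + 23 * X ^ 2 + X ^ 3 := by
  apply stepB 2 _ _ EB_2
  simp only [derivative_add, derivative_mul, derivative_ofNat, derivative_one, derivative_X,
    derivative_X_pow, map_natCast]
  push_cast; ring

lemma EB_4 : EB 4 = 1 + 76 * X + 230 * X ^ 2 + 76 * X ^ 3 + X ^ 4 := by
  apply stepB 3 _ _ EB_3
  simp only [derivative_add, derivative_mul, derivative_ofNat, derivative_one, derivative_X,
    derivative_X_pow, map_natCast]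
  push_cast; ring

lemma EB_5 : EB 5 = 1 + 237 * X + 1682 * X ^ 2 + 1682 * X ^ 3 + 237 * X ^ 4 + X ^ 5 := by
  apply stepB 4 _ _ EB_4
  simp only [derivative_add, derivative_mul, derivative_ofNat, derivative_one, derivative_X,
    derivative_X_pow, map_natCast]
  push_cast; ring

lemma EB_6 : EB 6 = 1 + 722 * X + 10543 * X ^ 2 + 23548 * X ^ 3 + 10543 * X ^ 4 + 722 * X ^ 5 + X ^ 6 := by
  apply stepB 5 _ _ EB_5
  simp only [derivative_add, derivative_mul, derivative_ofNat, derivative_one, derivative_X,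
    derivative_X_pow, map_natCast]
  push_cast; ring

lemma EB_7 : EB 7 = 1 + 2179 * X + 60657 * X ^ 2 + 259723 * X ^ 3 + 259723 * X ^ 4 + 60657 * X ^ 5 + 2179 * X ^ 6 + X ^ 7 := by
  apply stepB 6 _ _ EB_6
  simp only [derivative_add, derivative_mul, derivative_ofNat, derivative_one, derivative_X,
    derivative_X_pow, map_natCast]
  push_cast; ring


end Pool.Agent.Hhelper34.EU
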