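import Pool.Agent.Hhelper34.EU.Bounds

/-!
Values of the type A, B, D Eulerian polynomials at the zeros of `EB N`.
-/

namespace Pool.Agent.Hhelper34.EU

open Polynomial Finset

lemma rcp_of_HR {n M e : ℕ} {c : ℝ} {z : ℕ → ℝ} (h : HR (EA (n + 1)) n c z) (hn : n = M + e + M)
    (he : e ≤ 1) : Rcp (fun i => -(z i)⁻¹) M e := by
  refine ⟨?_, ?_, he⟩
  · intro i hi
    have := inv_lt_zero.mpr (h.2.1 i (by omega))
    show 0 < -(z i)⁻¹
    linarith
  · intro i hi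
    have h1 := h.pal (fun i j hij => EA_pal n i j hij) (by omega : i < n)
    show -(z (M + e + M - 1 - i))⁻¹ * -(z i)⁻¹ = 1
    rw [← hn, h1, inv_inv]
    have := ne_of_lt (h.2.1 i (by omega))
    field_simp

/-- basic facts at a zero of `EB (n+1)` -/
lemma vals {n M e : ℕ} (hn : n = M + e + M) (he : e ≤ 1) :
    ∃ a : ℕ → ℝ, Rcp a M e ∧
      (EA (n + 1)).coeff 1 = ∑ i ∈ range M, ps a i + e ∧
      (EA (n + 1)).coeff 2 = ((∑ i ∈ range M, ps a i) ^ 2 - ∑ i ∈ range M, ps a i ^ 2) / 2 + M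
        + e * ∑ i ∈ range M, ps a i ∧
      ∀ c' w, HR (EB (n + 1)) (n + 1) c' w → ∀ r < n + 1,
        -w r * (2 ^ (n + 1) * (EA (n + 1)).eval (w r)) ^ 2 = (1 - w r) ^ (2 * (n + 1)) *
          ∏ i ∈ range M, cf a (-w r / (1 - w r) ^ 2) i ∧
        2 * (1 - w r) * (derivative (EB (n + 1))).eval (w r) =
          2 ^ (n + 1) * (EA (n + 1)).eval (w r) *
            ((n + 2) + (e + ∑ i ∈ range M, ps a i / cf a (-w r / (1 - w r) ^ 2) i)) ∧
        0 < (-1 : ℝ) ^ r * (EA (n + 1)).eval (w r) := by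
  obtain ⟨c, z, h⟩ := HR_EA n
  set a : ℕ → ℝ := fun i => -(z i)⁻¹ with ha
  have hr := rcp_of_HR h hn he
  have hco := hr.coeffs (p := EA (n + 1)) (by rw [← hn]; exact h.prod_form (EA_coeff_zero _))
  refine ⟨a, hr, hco.1, hco.2, ?_⟩
  intro c' w hw r hrn
  have hu := hw.2.1 r hrn
  obtain ⟨k1, k2⟩ := key_ids h hu (hw.root hrn)
  have e1 : ∏ i ∈ range n, (1 - ((z i)⁻¹) ^ 2 * w r) =
      ∏ i ∈ range (M + e + M), (1 - a i ^ 2 * w r) := by
    rw [← hn]; simp [ha]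
  have e2 : ∑ i ∈ range n, (-(z i)⁻¹) / (1 - ((z i)⁻¹) ^ 2 * w r) =
      ∑ i ∈ range (M + e + M), a i / (1 - a i ^ 2 * w r) := by
    rw [← hn]; simp [ha]
  rw [e1, hr.prod hu, ← hn] at k1
  have k2' : 2 * (1 - w r) * (derivative (EB (n + 1))).eval (w r) =
          2 ^ (n + 1) * (EA (n + 1)).eval (w r) *
            ((n + 2) + (e + ∑ i ∈ range M, ps a i / cf a (-w r / (1 - w r) ^ 2) i)) := by
    rw [← hr.sum hu, ← e2]
    have hne : (1 - w r) ≠ 0 := by linarith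
    have : 2 * (1 - w r) * (derivative (EB (n + 1))).eval (w r) =
      (1 - w r) * (2 * (derivative (EB (n + 1))).eval (w r)) := by ring
    rw [this, k2]
    field_simp
  refine ⟨?_, k2', ?_⟩
  · rw [k1]; ring
  · have hd := hw.deriv hrn
    have hT : 0 ≤ ∑ i ∈ range M, ps a i / cf a (-w r / (1 - w r) ^ 2) i := by
      apply Finset.sum_nonneg
      intro i hi
      have hi' := mem_range.mp hi
      have hk : 0 ≤ -w r / (1 - w r) ^ 2 := div_nonneg (by linarith) (sq_nonneg _)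
      have h1 := ps_ge hr (by omega : i < M + e + M)
      have h2 := cf_ge hr hk (by omega : i < M + e + M)
      exact div_nonneg (by linarith) (by linarith)
    have hR : 0 < ((n : ℝ) + 2) + (e + ∑ i ∈ range M, ps a i / cf a (-w r / (1 - w r) ^ 2) i) := by
      positivity
    have hpos : 0 < (-1 : ℝ) ^ r * (2 * (1 - w r) * (derivative (EB (n + 1))).eval (w r)) := by
      have : (-1 : ℝ) ^ r * (2 * (1 - w r) * (derivative (EB (n + 1))).eval (w r)) =
        (2 * (1 - w r)) * ((-1 : ℝ) ^ r * (derivative (EB (n + 1))).eval (w r)) := by ring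
      rw [this]; exact mul_pos (by linarith) hd
    rw [k2'] at hpos
    have e3 : (-1 : ℝ) ^ r * (2 ^ (n + 1) * (EA (n + 1)).eval (w r) *
            ((n + 2) + (e + ∑ i ∈ range M, ps a i / cf a (-w r / (1 - w r) ^ 2) i))) =
      (2 ^ (n + 1) * ((n + 2) + (e + ∑ i ∈ range M, ps a i / cf a (-w r / (1 - w r) ^ 2) i))) *
        ((-1 : ℝ) ^ r * (EA (n + 1)).eval (w r)) := by ring
    rw [e3] at hpos
    exact (pos_iff_pos_of_mul_pos hpos).mp (mul_pos (by positivity) hR)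

lemma three_pow_ge {N : ℕ} (hN : 7 ≤ N) : ((N : ℝ) + 1) * 2 ^ (N + 1) ≤ 3 ^ N := by
  induction N, hN using Nat.le_induction with
  | base => norm_num
  | succ N hN ih =>
    have h1 : (7 : ℝ) ≤ N := by exact_mod_cast hN
    have h2 : (0 : ℝ) < 2 ^ (N + 1) := by positivity
    rw [pow_succ 2 (N + 1), pow_succ 3 N]
    push_cast
    nlinarith

/-- the type D polynomial -/
noncomputable def ED (n : ℕ) : ℝ[X] := EB n - C ((n : ℝ) * 2 ^ (n - 1)) * X * EA (n - 1)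

/-- values of the type D and B polynomials at the zeros of `EB (n+1)` (`n + 2 ≥ 8`) -/
lemma Dval {n : ℕ} (hn : 6 ≤ n) {c : ℝ} {w : ℕ → ℝ} (hw : HR (EB (n + 1)) (n + 1) c w) {r : ℕ}
    (hr : r < n + 1) :
    (1 - w r) ^ (n + 2) < (-1 : ℝ) ^ (r + 1) * (ED (n + 2)).eval (w r) ∧
    (1 - w r) ^ (n + 2) < (-1 : ℝ) ^ (r + 1) * (EB (n + 2)).eval (w r) := by
  obtain ⟨a, ha, hc1, hc2, hv⟩ := vals (n := n) (M := n / 2) (e := n % 2) (by omega) (by omega)
  obtain ⟨v1, v2, v3⟩ := hv c w hw r hr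
  set M := n / 2
  set e := n % 2 with he_def
  have he : e = 0 ∨ e = 1 := by omega
  have hM : 2 * M ≤ n := by omega
  have hu := hw.2.1 r hr
  have hB0 := hw.root hr
  set u := w r
  set k := -u / (1 - u) ^ 2 with hk
  set T := ∑ i ∈ range M, ps a i / cf a k i with hT
  set A := (EA (n + 1)).eval u with hA
  have hk0 : 0 < k := (EB_kappa hw hr).1
  have hk1 : 1 ≤ k * ((3 ^ (n + 1) - (n + 1 : ℕ) - 1) + 3) := (EB_kappa hw hr).2
  obtain ⟨b1, b2, b3, b4, b5⟩ := lbD1 M (ps a) (cf a k)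
    (fun i hi => cf_ge ha hk0.le (by omega)) (fun i hi => by
      have := ps_ge ha (by omega : i < M + e + M); linarith)
  rw [← hT] at b2 b4 b5
  set P := ∏ i ∈ range M, cf a k i with hP
  -- B value
  have eB : (EB (n + 2)).eval u = u * (2 ^ (n + 1) * A) * ((n + 2) + (e + T)) := by
    rw [EB_succ]
    simp only [eval_mul, eval_C, eval_add, eval_X, eval_sub, eval_one, hB0]
    linear_combination u * v2
  have eD : (ED (n + 2)).eval u = u * (2 ^ (n + 1) * A) * (e + T) := by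
    unfold ED
    rw [show n + 2 - 1 = n + 1 by omega]
    simp only [eval_sub, eval_mul, eval_C, eval_X, eB]
    push_cast
    ring
  have hR0 : (0 : ℝ) ≤ e + T := by positivity
  -- key inequality
  have hPR : 2 * ((EA (n + 1)).coeff 2 - M) ≤ P * (e + T) ^ 2 := by
    rw [hc2]
    rcases he with h0 | h0
    · rw [h0]; push_cast
      have : P * (0 + T) ^ 2 = P * T ^ 2 := by ring
      rw [this]; linarith
    · rw [h0]; push_cast
      have : P * (1 + T) ^ 2 = P + 2 * (P * T) + P * T ^ 2 := by ring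
      rw [this]; linarith
  have hkey : 1 < k * (P * (e + T) ^ 2) := by
    refine lt_of_le_of_lt hk1 ?_
    apply mul_lt_mul_of_pos_left _ hk0
    refine lt_of_lt_of_le ?_ hPR
    rw [EA_coeff_two]
    have h3 := three_pow_ge (N := n + 1) (by omega)
    have hn' : (6 : ℝ) ≤ n := by exact_mod_cast hn
    have hM' : 2 * (M : ℝ) ≤ n := by exact_mod_cast hM
    rw [pow_succ 2 (n + 1)] at h3
    push_cast at h3 ⊢
    nlinarith
  have hsq : ((-u) * ((-1 : ℝ) ^ r * (2 ^ (n + 1) * A)) * (e + T)) ^ 2 =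
      k * (P * (e + T) ^ 2) * ((1 - u) ^ (n + 2)) ^ 2 := by
    have h1 : (((-1 : ℝ) ^ r)) ^ 2 = 1 := by rw [← pow_mul, mul_comm, pow_mul]; norm_num
    have h2 : -u = k * (1 - u) ^ 2 := by
      rw [hk]; have : (1 - u) ≠ 0 := by linarith
      field_simp
    calc ((-u) * ((-1 : ℝ) ^ r * (2 ^ (n + 1) * A)) * (e + T)) ^ 2
        = (-u) * (-u * (2 ^ (n + 1) * A) ^ 2) * ((-1 : ℝ) ^ r) ^ 2 * (e + T) ^ 2 := by ring
      _ = (k * (1 - u) ^ 2) * ((1 - u) ^ (2 * (n + 1)) * P) * 1 * (e + T) ^ 2 := by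
          rw [v1, h1, ← h2]
      _ = _ := by ring
  have hX0 : 0 ≤ (-u) * ((-1 : ℝ) ^ r * (2 ^ (n + 1) * A)) * (e + T) := by
    have : (-1 : ℝ) ^ r * (2 ^ (n + 1) * A) = 2 ^ (n + 1) * ((-1 : ℝ) ^ r * A) := by ring
    rw [this]
    exact mul_nonneg (mul_nonneg (by linarith) (mul_nonneg (by positivity) v3.le)) hR0
  have h1u : (0 : ℝ) < 1 - u := by linarith
  have hmain : (1 - u) ^ (n + 2) < (-u) * ((-1 : ℝ) ^ r * (2 ^ (n + 1) * A)) * (e + T) := by
    apply lt_of_pow_lt_pow_left₀ 2 hX0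
    rw [hsq]
    have : 0 < ((1 - u) ^ (n + 2)) ^ 2 := by positivity
    nlinarith
  refine ⟨?_, ?_⟩
  · rw [eD]
    have : (-1 : ℝ) ^ (r + 1) * (u * (2 ^ (n + 1) * A) * (e + T)) =
      (-u) * ((-1 : ℝ) ^ r * (2 ^ (n + 1) * A)) * (e + T) := by rw [pow_succ]; ring
    rw [this]; exact hmain
  · rw [eB]
    have : (-1 : ℝ) ^ (r + 1) * (u * (2 ^ (n + 1) * A) * ((n + 2) + (e + T))) =
      (-u) * ((-1 : ℝ) ^ r * (2 ^ (n + 1) * A)) * (e + T) +
        (n + 2) * ((-u) * (2 ^ (n + 1) * ((-1 : ℝ) ^ r * A))) := by rw [pow_succ]; ring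
    rw [this]
    have h4 : 0 ≤ ((n : ℝ) + 2) * ((-u) * (2 ^ (n + 1) * ((-1 : ℝ) ^ r * A))) :=
      mul_nonneg (by positivity) (mul_nonneg (by linarith) (mul_nonneg (by positivity) v3.le))
    linarith

end Pool.Agent.Hhelper34.EU
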